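import Mathlib

open Complex Metric Real Filter Topology MeasureTheory
open scoped ComplexConjugate ENNReal

namespace Pool.Agent.Lib.P6e0919

lemma det_mul (a : ℂ) :
    (((ContinuousLinearMap.toSpanSingleton ℂ a : ℂ →L[ℂ] ℂ).restrictScalars ℝ : ℂ →L[ℝ] ℂ)).det =
      ‖a‖ ^ 2 := by
  rw [← Complex.normSq_eq_norm_sq, ← Algebra.norm_complex_apply, Algebra.norm_apply]
  rw [ContinuousLinearMap.det]
  congr 1
  ext x
  simp [mul_comm]

/-- one injective piece -/
lemma area_piece {A : Set ℂ} (hA : MeasurableSet A) {F F' : ℂ → ℂ}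
    (hF : ∀ z ∈ A, HasDerivAt F (F' z) z) (hinj : Set.InjOn F A)
    {T : ℂ → ℝ≥0∞} (hT : Measurable T) :
    Measurable (fun c => ∑' z : ℂ, (A ∩ F ⁻¹' {c}).indicator T z) ∧
    ∫⁻ c, ∑' z : ℂ, (A ∩ F ⁻¹' {c}).indicator T z = ∫⁻ z in A, ENNReal.ofReal (‖F' z‖ ^ 2) * T z := by
  have hfd : ∀ z ∈ A, HasFDerivWithinAt F
      ((ContinuousLinearMap.toSpanSingleton ℂ (F' z) : ℂ →L[ℂ] ℂ).restrictScalars ℝ : ℂ →L[ℝ] ℂ) A z := by
    intro z hz
    exact ((hF z hz).hasFDerivAt.restrictScalars ℝ).hasFDerivWithinAt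
  have hemb := measurableEmbedding_of_fderivWithin hA hfd hinj
  set Φ : ℂ → ℝ≥0∞ := fun c => ∑' z : ℂ, (A ∩ F ⁻¹' {c}).indicator T z with hΦ
  have hin : ∀ z ∈ A, Φ (F z) = T z := by
    intro z hz
    simp only [hΦ]
    rw [tsum_eq_single z]
    · have hzm : z ∈ A ∩ F ⁻¹' {F z} := ⟨hz, rfl⟩
      rw [Set.indicator_of_mem hzm]
    · intro w hw
      rw [Set.indicator_of_notMem]
      rintro ⟨hwA, hwF⟩
      exact hw (hinj hwA hz hwF)
  have hout : ∀ c ∉ F '' A, Φ c = 0 := by
    intro c hc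
    simp only [hΦ]
    rw [ENNReal.tsum_eq_zero]
    intro z
    rw [Set.indicator_of_notMem]
    rintro ⟨hzA, hzF⟩
    exact hc ⟨z, hzA, hzF⟩
  constructor
  · have h1 : Φ = Function.extend (A.domRestrict F) (fun z : A => T z) (fun _ => 0) := by
      funext c
      by_cases hc : c ∈ F '' A
      · obtain ⟨z, hz, rfl⟩ := hc
        rw [hin z hz]
        have := hemb.injective.extend_apply (fun z : A => T z) (fun _ => 0) ⟨z, hz⟩
        exact this.symm
      · rw [hout c hc, Function.extend_apply']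
        rintro ⟨z, hz⟩
        exact hc ⟨z, z.2, hz⟩
    change Measurable Φ
    rw [h1]
    exact hemb.measurable_extend (hT.comp measurable_subtype_coe) measurable_const
  · have h2 : ∫⁻ c, Φ c = ∫⁻ c in F '' A, Φ c := by
      have hm : MeasurableSet (F '' A) := measurable_image_of_fderivWithin hA hfd hinj
      rw [← lintegral_indicator hm]
      apply lintegral_congr
      intro c
      by_cases hc : c ∈ F '' A
      · rw [Set.indicator_of_mem hc]
      · rw [Set.indicator_of_notMem hc, hout c hc]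
    change ∫⁻ c, Φ c = _
    rw [h2, lintegral_image_eq_lintegral_abs_det_fderiv_mul volume hA hfd hinj]
    apply setLIntegral_congr_fun hA
    intro z hz
    simp only
    rw [hin z hz, det_mul, abs_of_nonneg (by positivity)]

/-- The area formula for a locally injective holomorphic map. -/
theorem area_formula {U : Set ℂ} (hU : MeasurableSet U) {F F' : ℂ → ℂ}
    (hF : ∀ z ∈ U, HasStrictDerivAt F (F' z) z) (hF' : ∀ z ∈ U, F' z ≠ 0)
    {T : ℂ → ℝ≥0∞} (hT : Measurable T) :
    Measurable (fun c => ∑' z : ℂ, (U ∩ F ⁻¹' {c}).indicator T z) ∧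
    ∫⁻ c, ∑' z : ℂ, (U ∩ F ⁻¹' {c}).indicator T z = ∫⁻ z in U, ENNReal.ofReal (‖F' z‖ ^ 2) * T z := by
  have hloc : ∀ z ∈ U, ∃ V : Set ℂ, IsOpen V ∧ z ∈ V ∧ Set.InjOn F V := by
    intro z hz
    have h1 := (hF z hz).hasStrictFDerivAt_equiv (hF' z hz)
    refine ⟨(h1.toOpenPartialHomeomorph F).source, (h1.toOpenPartialHomeomorph F).open_source,
      h1.mem_toOpenPartialHomeomorph_source, ?_⟩
    exact (h1.toOpenPartialHomeomorph F).injOn
  choose! V hV1 hV2 hV3 using hloc
  obtain ⟨t, htU, htc, ht⟩ := TopologicalSpace.countable_cover_nhdsWithin (s := U) (f := V)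
    (fun z hz => mem_nhdsWithin_of_mem_nhds ((hV1 z hz).mem_nhds (hV2 z hz)))
  by_cases hUe : U = ∅
  · subst hUe
    simp
  have htne : t.Nonempty := by
    rw [Set.nonempty_iff_ne_empty]
    rintro rfl
    apply hUe
    simpa using ht
  obtain ⟨s, hs⟩ := htc.exists_eq_range htne
  set B : ℕ → Set ℂ := fun n => V (s n) ∩ U with hB
  have hsU : ∀ n, s n ∈ U := fun n => htU (by rw [hs]; exact ⟨n, rfl⟩)
  set A : ℕ → Set ℂ := disjointed B with hA
  have hBm : ∀ n, MeasurableSet (B n) := fun n => (hV1 _ (hsU n)).measurableSet.inter hU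
  have hAm : ∀ n, MeasurableSet (A n) := fun n => MeasurableSet.disjointed hBm n
  have hAB : ∀ n, A n ⊆ B n := fun n => disjointed_subset B n
  have hAd : Pairwise (Function.onFun Disjoint A) := disjoint_disjointed B
  have hAU : ⋃ n, A n = U := by
    rw [hA, iUnion_disjointed]
    apply Set.Subset.antisymm
    · exact Set.iUnion_subset (fun n => Set.inter_subset_right)
    · intro z hz
      obtain ⟨w, hw, hzw⟩ := Set.mem_iUnion₂.1 (ht hz)
      rw [hs] at hw
      obtain ⟨n, rfl⟩ := hw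
      exact Set.mem_iUnion.2 ⟨n, hzw, hz⟩
  have hAinj : ∀ n, Set.InjOn F (A n) := fun n =>
    (hV3 _ (hsU n)).mono ((hAB n).trans Set.inter_subset_left)
  have hAU' : ∀ n, A n ⊆ U := fun n => (hAB n).trans Set.inter_subset_right
  have hpiece := fun n => area_piece (hAm n) (fun z hz => (hF z (hAU' n hz)).hasDerivAt) (hAinj n) hT
  have hind : ∀ c z, (U ∩ F ⁻¹' {c}).indicator T z = ∑' n, (A n ∩ F ⁻¹' {c}).indicator T z := by
    intro c z
    by_cases hz : z ∈ U ∩ F ⁻¹' {c}
    · rw [Set.indicator_of_mem hz]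
      have h1 : z ∈ ⋃ n, A n := by rw [hAU]; exact hz.1
      obtain ⟨n, hn⟩ := Set.mem_iUnion.1 h1
      rw [tsum_eq_single n]
      · have hzm : z ∈ A n ∩ F ⁻¹' {c} := ⟨hn, hz.2⟩
        rw [Set.indicator_of_mem hzm]
      · intro k hk
        rw [Set.indicator_of_notMem]
        rintro ⟨hzk, -⟩
        exact Set.disjoint_left.1 (hAd hk) hzk hn
    · rw [Set.indicator_of_notMem hz, eq_comm, ENNReal.tsum_eq_zero]
      intro n
      rw [Set.indicator_of_notMem]
      rintro ⟨hzn, hzF⟩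
      exact hz ⟨hAU' n hzn, hzF⟩
  have hΦ : (fun c => ∑' z : ℂ, (U ∩ F ⁻¹' {c}).indicator T z) =
      fun c => ∑' n, ∑' z : ℂ, (A n ∩ F ⁻¹' {c}).indicator T z := by
    funext c
    rw [ENNReal.tsum_comm]
    exact tsum_congr (fun z => hind c z)
  constructor
  · rw [hΦ]
    exact Measurable.tsum (fun n => (hpiece n).1)
  · rw [hΦ, lintegral_tsum (fun n => (hpiece n).1.aemeasurable)]
    rw [← hAU, lintegral_iUnion hAm hAd]
    exact tsum_congr (fun n => (hpiece n).2)

end Pool.Agent.Lib.P6e0919
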