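import Mathlib

open Complex Metric Real Filter Topology MeromorphicOn MeasureTheory

namespace Pool.Agent.Lib.P6e0919

/-- Poisson-Jensen formula. -/
theorem poisson_jensen {f : ℂ → ℂ} {R : ℝ} (hR : 0 < R) (hf : AnalyticOnNhd ℂ f (closedBall 0 R))
    {w : ℂ} (hw : w ∈ ball (0:ℂ) R) (hfw : f w ≠ 0) :
    Real.log ‖f w‖ =
      circleAverage ((Complex.re ∘ herglotzRieszKernel 0 w) • (fun z => Real.log ‖f z‖)) 0 R -
        ∑ᶠ u, (divisor f (ball 0 R) u : ℝ) * Real.log ‖canonicalFactor R u w‖ := by
  have hwc : w ∈ closedBall (0:ℂ) R := ball_subset_closedBall hw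
  have hfm : MeromorphicOn f (closedBall 0 R) := hf.meromorphicOn
  have hord0 : ∀ z ∈ closedBall (0:ℂ) R, f z ≠ 0 → meromorphicOrderAt f z = 0 := by
    intro z hz hfz
    rw [(hf z hz).meromorphicOrderAt_eq, (hf z hz).analyticOrderAt_eq_zero.2 hfz]
    simp
  have hord : ∀ u : (closedBall (0 : ℂ) R), meromorphicOrderAt f u ≠ ⊤ := by
    rw [← hfm.exists_meromorphicOrderAt_ne_top_iff_forall
      (Metric.isConnected_closedBall hR.le)]
    exact ⟨⟨w, hwc⟩, by simp [hord0 w hwc hfw]⟩
  obtain ⟨h, D⟩ := hfm.exists_ecanonicalDecomp hord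
  have h1 := D.log_norm_eq hwc (hord0 w hwc hfw) hR
  rw [(hf w hwc).meromorphicTrailingCoeffAt_of_ne_zero hfw] at h1
  -- on the sphere
  have h2 : ∀ z ∈ sphere (0:ℂ) R, f z ≠ 0 → Real.log ‖f z‖ = Real.log ‖h z‖ +
      ∑ᶠ i, (divisor f (sphere 0 R) i : ℝ) * Real.log ‖z - i‖ := by
    intro z hz hfz
    have hzc : z ∈ closedBall (0:ℂ) R := sphere_subset_closedBall hz
    have h3 := D.log_norm_eq hzc (hord0 z hzc hfz) hR
    rw [(hf z hzc).meromorphicTrailingCoeffAt_of_ne_zero hfz] at h3
    have h4 : ∑ᶠ i, (divisor f (ball 0 R) i : ℝ) * Real.log ‖canonicalFactor R i z‖ = 0 := by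
      apply finsum_eq_zero_of_forall_eq_zero
      intro i
      by_cases hi : i ∈ ball (0:ℂ) R
      · rw [norm_canonicalFactor_eval_circle_eq_one hi hz, Real.log_one, mul_zero]
      · rw [Function.locallyFinsuppWithin.apply_eq_zero_of_notMem _ hi]; simp
    rw [h4] at h3
    linarith
  set K : ℂ → ℝ := Complex.re ∘ herglotzRieszKernel 0 w with hK
  have hKc : ContinuousOn K (sphere 0 |R|) :=
    Complex.continuous_re.comp_continuousOn (continuousOn_herglotzRieszKernel_sphere hw)
  have hfin : (Function.support (fun i => (divisor f (sphere 0 R) i : ℝ))).Finite := by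
    have : (divisor f (sphere (0:ℂ) R)).support.Finite :=
      (divisor f (sphere (0:ℂ) R)).finiteSupport (isCompact_sphere 0 R)
    apply this.subset
    intro i hi
    simpa using hi
  set t := hfin.toFinset with ht
  have hsum : ∀ g : ℂ → ℝ, ∑ᶠ i, (divisor f (sphere 0 R) i : ℝ) * g i =
      ∑ i ∈ t, (divisor f (sphere 0 R) i : ℝ) * g i := by
    intro g
    apply finsum_eq_sum_of_support_subset
    intro i hi
    rw [ht, Set.Finite.coe_toFinset, Function.mem_support]
    intro h0
    exact hi (by simp only [h0, zero_mul])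
  have hne : {z : ℂ | f z ≠ 0} ∈ codiscreteWithin (sphere (0:ℂ) |R|) := by
    rw [abs_of_pos hR]
    exact Filter.codiscreteWithin_mono sphere_subset_closedBall
      (hf.preimage_zero_mem_codiscreteWithin hfw hwc (Metric.isConnected_closedBall hR.le))
  have h5 : circleAverage (K • (fun z => Real.log ‖f z‖)) 0 R =
      circleAverage (K • (fun z => Real.log ‖h z‖) +
        ∑ i ∈ t, (divisor f (sphere 0 R) i : ℝ) • (K • (fun z => Real.log ‖z - i‖))) 0 R := by
    apply circleAverage_congr_codiscreteWithin _ hR.ne'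
    filter_upwards [hne, self_mem_codiscreteWithin _] with z hz hzs
    rw [abs_of_pos hR] at hzs
    simp only [Pi.smul_apply', Pi.add_apply, Finset.sum_apply, Pi.smul_apply, smul_eq_mul]
    rw [h2 z hzs hz, hsum, mul_add, Finset.mul_sum]
    congr 1
    apply Finset.sum_congr rfl
    intro i _
    change K z * ((divisor f (sphere 0 R) i : ℝ) * Real.log ‖z - i‖) =
      (divisor f (sphere 0 R) i : ℝ) * (K z * Real.log ‖z - i‖)
    ring
  have hint1 : CircleIntegrable (K • (fun z => Real.log ‖h z‖)) 0 R := by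
    apply CircleIntegrable.continuousOn_smul _ hKc
    exact (D.analyticOnNhd.mono (by rw [abs_of_pos hR]; exact sphere_subset_closedBall)).meromorphicOn.circleIntegrable_log_norm
  have hint2 : ∀ i, CircleIntegrable (K • (fun z => Real.log ‖z - i‖)) 0 R := by
    intro i
    apply CircleIntegrable.continuousOn_smul _ hKc
    exact (analyticOnNhd_id.sub analyticOnNhd_const).meromorphicOn.circleIntegrable_log_norm
  have h6 : circleAverage (K • (fun z => Real.log ‖f z‖)) 0 R = Real.log ‖h w‖ +
      ∑ᶠ i, (divisor f (sphere 0 R) i : ℝ) * Real.log ‖w - i‖ := by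
    rw [h5, circleAverage_add hint1, circleAverage_sum, hsum]
    · congr 1
      · rw [hK]
        apply InnerProductSpace.HarmonicOnNhd.circleAverage_re_herglotzRieszKernel_smul _ hw
        intro z hz
        exact (D.analyticOnNhd z hz).harmonicAt_log_norm (D.ne_zero z hz)
      · apply Finset.sum_congr rfl
        intro i hi
        rw [circleAverage_smul, smul_eq_mul]
        congr 1
        have hi' : i ∈ sphere (0:ℂ) R := by
          by_contra hcon
          rw [ht, Set.Finite.mem_toFinset, Function.mem_support] at hi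
          apply hi
          rw [Function.locallyFinsuppWithin.apply_eq_zero_of_notMem _ hcon]; simp
        exact circleAverage_re_herglotzRieszKernel_mul_log hi' hw
    · intro i _
      exact (hint2 i).const_smul
    · apply CircleIntegrable.sum
      intro i _
      exact (hint2 i).const_smul
  rw [h6]
  linarith

end Pool.Agent.Lib.P6e0919
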