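import Mathlib
import Pool.Agent.Lib.P6e0919.PJ

open Complex Metric Real Filter Topology MeromorphicOn MeasureTheory

namespace Pool.Agent.Lib.P6e0919

/-- Bound for functions with nonnegative real part. -/
lemma norm_le_of_re_nonneg {D : ℂ → ℂ} {R : ℝ} (hD : DifferentiableOn ℂ D (ball 0 R))
    (hre : ∀ z ∈ ball (0:ℂ) R, 0 ≤ (D z).re) {z : ℂ} (hz : z ∈ ball (0:ℂ) R) :
    ‖D z‖ ≤ ‖D 0‖ * ((R + ‖z‖) / (R - ‖z‖)) := by
  have hR : 0 < R := pos_of_mem_ball hz
  have hzR : ‖z‖ < R := by simpa using hz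
  have hpos : 0 < R - ‖z‖ := by linarith
  have key : ∀ M > 0, ‖D z‖ ≤ 2 * M * ‖z‖ / (R - ‖z‖) + ‖D 0‖ * ((R + ‖z‖) / (R - ‖z‖)) := by
    intro M hM
    have h1 := borelCaratheodory (f := fun z => - D z) (M := M) (R := R) hM hD.neg
      (fun w hw => by
        have := hre w hw
        simp only [Set.mem_ofPred_eq, neg_re]
        linarith) hR hz
    simp only [norm_neg] at h1
    calc ‖D z‖ ≤ _ := h1
      _ = _ := by ring
  have h2 : Tendsto (fun M : ℝ => 2 * M * ‖z‖ / (R - ‖z‖) + ‖D 0‖ * ((R + ‖z‖) / (R - ‖z‖)))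
      (𝓝[>] 0) (𝓝 (2 * 0 * ‖z‖ / (R - ‖z‖) + ‖D 0‖ * ((R + ‖z‖) / (R - ‖z‖)))) := by
    apply Tendsto.add_const
    have hid : Tendsto (fun δ : ℝ => δ) (𝓝[>] 0) (𝓝 0) := nhdsWithin_le_nhds
    exact (((hid.const_mul 2).mul_const _).div_const _)
  simp only [mul_zero, zero_mul, zero_div, zero_add] at h2
  refine ge_of_tendsto h2 ?_
  filter_upwards [self_mem_nhdsWithin] with M hM using key M hM

/-- Holomorphic functions on the unit disc with nonnegative real part. -/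
def PR (F : ℂ → ℂ) : Prop := DifferentiableOn ℂ F (ball 0 1) ∧ ∀ z ∈ ball (0:ℂ) 1, 0 ≤ (F z).re

lemma PR.add {F G : ℂ → ℂ} (hF : PR F) (hG : PR G) : PR (fun z => F z + G z) :=
  ⟨hF.1.add hG.1, fun z hz => by rw [add_re]; exact add_nonneg (hF.2 z hz) (hG.2 z hz)⟩

lemma PR.const_mul {F : ℂ → ℂ} (hF : PR F) {c : ℝ} (hc : 0 ≤ c) : PR (fun z => (c : ℂ) * F z) :=
  ⟨hF.1.const_mul _, fun z hz => by
    rw [re_ofReal_mul]; exact mul_nonneg hc (hF.2 z hz)⟩

lemma PR_const {c : ℝ} (hc : 0 ≤ c) : PR (fun _ => (c : ℂ)) :=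
  ⟨differentiableOn_const _, fun z _ => by simpa using hc⟩

/-- Harnack inequality on a disc. -/
lemma harnack_ball {F : ℂ → ℂ} {R : ℝ} (hF : DifferentiableOn ℂ F (ball 0 R))
    (hre : ∀ z ∈ ball (0:ℂ) R, 0 ≤ (F z).re) {z : ℂ} (hz : z ∈ ball (0:ℂ) R) :
    (F z).re ≤ (F 0).re * ((R + ‖z‖) / (R - ‖z‖)) := by
  have hR : 0 < R := pos_of_mem_ball hz
  have h0 : (0:ℂ) ∈ ball (0:ℂ) R := mem_ball_self hR
  have h1 := norm_le_of_re_nonneg (D := fun z => F z - ((F 0).im : ℂ) * I) (R := R)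
    (hF.sub (differentiableOn_const _)) (fun w hw => by simpa using hre w hw) hz
  have h2 : F 0 - ((F 0).im : ℂ) * I = ((F 0).re : ℂ) := by
    apply Complex.ext <;> simp
  simp only [h2] at h1
  rw [Complex.norm_real, Real.norm_eq_abs, abs_of_nonneg (hre 0 h0)] at h1
  refine le_trans ?_ h1
  have h3 := Complex.re_le_norm (F z - ((F 0).im : ℂ) * I)
  simpa using h3

lemma harnack {F : ℂ → ℂ} (hF : PR F) {z w : ℂ} (hz : z ∈ ball (0:ℂ) 1)
    (hw : ‖w - z‖ ≤ (1 - ‖z‖) / 2) : (F w).re ≤ 3 * (F z).re := by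
  have hz1 : ‖z‖ < 1 := by simpa using hz
  have hR : 0 < 1 - ‖z‖ := by linarith
  have hsub : ∀ v ∈ ball (0:ℂ) (1 - ‖z‖), z + v ∈ ball (0:ℂ) 1 := by
    intro v hv
    rw [mem_ball_zero_iff] at hv ⊢
    calc ‖z + v‖ ≤ ‖z‖ + ‖v‖ := norm_add_le _ _
      _ < 1 := by linarith
  have h1 := harnack_ball (F := fun v => F (z + v)) (R := 1 - ‖z‖)
    (hF.1.comp ((differentiableOn_const _).add differentiableOn_id) (fun v hv => hsub v hv))
    (fun v hv => hF.2 _ (hsub v hv)) (z := w - z) (by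
      rw [mem_ball_zero_iff]
      linarith)
  simp only [add_sub_cancel, add_zero] at h1
  refine h1.trans ?_
  have h2 : (1 - ‖z‖ + ‖w - z‖) / (1 - ‖z‖ - ‖w - z‖) ≤ 3 := by
    rw [div_le_iff₀ (by linarith)]
    linarith
  calc (F z).re * ((1 - ‖z‖ + ‖w - z‖) / (1 - ‖z‖ - ‖w - z‖)) ≤ (F z).re * 3 := by
        apply mul_le_mul_of_nonneg_left h2 (hF.2 z hz)
    _ = 3 * (F z).re := mul_comm _ _

/-- Herglotz integral of `φ` over the circle of radius `r`. -/
noncomputable def Hg (φ : ℂ → ℝ) (r : ℝ) (z : ℂ) : ℂ :=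
  circleAverage (fun ζ => herglotzRieszKernel 0 z ζ • (φ ζ : ℂ)) 0 r

lemma circleIntegrable_ofReal {φ : ℂ → ℝ} {r : ℝ} (h : CircleIntegrable φ 0 r) :
    CircleIntegrable (fun ζ => (φ ζ : ℂ)) 0 r := by
  simp only [CircleIntegrable, intervalIntegrable_iff] at h ⊢
  exact Complex.ofRealCLM.integrable_comp h

lemma differentiableOn_Hg {φ : ℂ → ℝ} {r : ℝ} (h : CircleIntegrable φ 0 r) :
    DifferentiableOn ℂ (Hg φ r) (ball 0 r) :=
  differentiableOn_circleAverage_herglotzRieszKernel_smul (circleIntegrable_ofReal h)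

lemma re_Hg {φ : ℂ → ℝ} {r : ℝ} (h : CircleIntegrable φ 0 r) {z : ℂ} (hz : z ∈ ball (0:ℂ) r) :
    (Hg φ r z).re = circleAverage ((Complex.re ∘ herglotzRieszKernel 0 z) • φ) 0 r :=
  re_circleAverage_herglotzRieszKernel_smul h hz

lemma Hg_zero {φ : ℂ → ℝ} {r : ℝ} (hr : 0 < r) (h : CircleIntegrable φ 0 r) :
    Hg φ r 0 = (circleAverage φ 0 r : ℝ) := by
  have h1 : Hg φ r 0 = circleAverage (fun ζ => (φ ζ : ℂ)) 0 r := by
    apply circleAverage_congr_sphere
    intro ζ hζ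
    have hζ0 : ζ ≠ 0 := by
      rintro rfl
      rw [abs_of_pos hr, mem_sphere_zero_iff_norm, norm_zero] at hζ
      linarith
    simp only [herglotzRieszKernel_def, sub_zero, add_zero, div_self hζ0, one_smul]
  rw [h1]
  exact Complex.ofRealCLM.circleAverage_comp_comm h

/-- The Poisson kernel is nonnegative. -/
lemma poisson_nonneg {r : ℝ} {z ζ : ℂ} (hz : z ∈ ball (0:ℂ) r) (hζ : ζ ∈ sphere (0:ℂ) r) :
    0 ≤ (herglotzRieszKernel 0 z ζ).re := by
  have h := le_re_herglotzRieszKernel hζ hz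
  refine le_trans ?_ h
  have : ‖z‖ < r := by simpa using hz
  rw [sub_zero]
  apply div_nonneg
  · linarith
  · linarith [norm_nonneg z]

lemma circleIntegrable_poisson_smul {φ : ℂ → ℝ} {r : ℝ} (h : CircleIntegrable φ 0 r) {z : ℂ}
    (hz : z ∈ ball (0:ℂ) r) :
    CircleIntegrable ((Complex.re ∘ herglotzRieszKernel 0 z) • φ) 0 r :=
  h.continuousOn_smul
    (Complex.continuous_re.comp_continuousOn (continuousOn_herglotzRieszKernel_sphere hz))

/-- comparison of Poisson integrals, with an exceptional discrete set -/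
lemma circleAverage_poisson_mono {φ ψ : ℂ → ℝ} {r : ℝ} (hφ : CircleIntegrable φ 0 r)
    (hψ : CircleIntegrable ψ 0 r)
    (hle : ∀ᶠ ζ in codiscreteWithin (sphere (0:ℂ) |r|), φ ζ ≤ ψ ζ) {z : ℂ}
    (hz : z ∈ ball (0:ℂ) r) :
    circleAverage ((Complex.re ∘ herglotzRieszKernel 0 z) • φ) 0 r ≤
      circleAverage ((Complex.re ∘ herglotzRieszKernel 0 z) • ψ) 0 r := by
  have hr : 0 < r := pos_of_mem_ball hz
  have h1 : circleAverage ((Complex.re ∘ herglotzRieszKernel 0 z) • φ) 0 r =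
      circleAverage ((Complex.re ∘ herglotzRieszKernel 0 z) • (fun ζ => min (φ ζ) (ψ ζ))) 0 r := by
    apply circleAverage_congr_codiscreteWithin _ hr.ne'
    filter_upwards [hle] with ζ hζ
    simp only [Pi.smul_apply', min_eq_left hζ]
  rw [h1]
  have hmin : CircleIntegrable (fun ζ => min (φ ζ) (ψ ζ)) 0 r := by
    simp only [CircleIntegrable, intervalIntegrable_iff] at hφ hψ ⊢
    exact Integrable.inf hφ hψ
  apply circleAverage_mono (circleIntegrable_poisson_smul hmin hz)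
    (circleIntegrable_poisson_smul hψ hz)
  intro ζ hζ
  rw [abs_of_pos hr] at hζ
  simp only [Pi.smul_apply', Function.comp_apply, smul_eq_mul]
  exact mul_le_mul_of_nonneg_left (min_le_right _ _) (poisson_nonneg hz hζ)

end Pool.Agent.Lib.P6e0919
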