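import Mathlib
import Pool.Agent.Lib.P6e0919.Harm

open Complex Metric Real Filter Topology MeromorphicOn MeasureTheory

namespace Pool.Agent.Lib.P6e0919

/-- Poisson formula for real parts. -/
lemma poisson_re {F : ℂ → ℂ} {R r : ℝ} (hF : DifferentiableOn ℂ F (ball 0 R)) (hr : r < R)
    {z : ℂ} (hz : z ∈ ball (0:ℂ) r) :
    circleAverage ((Complex.re ∘ herglotzRieszKernel 0 z) • (fun ζ => (F ζ).re)) 0 r =
      (F z).re := by
  apply InnerProductSpace.HarmonicOnNhd.circleAverage_re_herglotzRieszKernel_smul _ hz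
  intro w hw
  apply AnalyticAt.harmonicAt_re
  have hw' : w ∈ ball (0:ℂ) R := closedBall_subset_ball hr hw
  exact (hF.analyticOnNhd isOpen_ball) w hw'

/-- mean value property for real parts -/
lemma mean_re {F : ℂ → ℂ} {U : Set ℂ} (hU : IsOpen U) (hF : DifferentiableOn ℂ F U) {c : ℂ} {r : ℝ}
    (hr : 0 ≤ r) (hsub : closedBall c r ⊆ U) :
    circleAverage (fun ζ => (F ζ).re) c r = (F c).re := by
  apply InnerProductSpace.HarmonicOnNhd.circleAverage_eq
  intro w hw
  rw [abs_of_nonneg hr] at hw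
  exact AnalyticAt.harmonicAt_re ((hF.analyticOnNhd hU) w (hsub hw))

/-- radii increasing to one -/
noncomputable def rad (n : ℕ) : ℝ := 1 - 1 / ((n : ℝ) + 2)

lemma rad_mem (n : ℕ) : rad n ∈ Set.Ioo (0:ℝ) 1 := by
  unfold rad
  have h1 : (0:ℝ) < (n:ℝ) + 2 := by positivity
  have h2 : 1 / ((n:ℝ) + 2) < 1 := by
    rw [div_lt_one h1]
    have : (0:ℝ) ≤ n := Nat.cast_nonneg n
    linarith
  have h3 : 0 < 1 / ((n:ℝ) + 2) := by positivity
  constructor <;> linarith

lemma rad_strictMono : StrictMono rad := by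
  intro m n hmn
  unfold rad
  have h1 : (m:ℝ) + 2 < n + 2 := by
    have : (m:ℝ) < n := by exact_mod_cast hmn
    linarith
  have h2 : 1 / ((n:ℝ) + 2) < 1 / ((m:ℝ) + 2) := one_div_lt_one_div_of_lt (by positivity) h1
  linarith

lemma tendsto_rad : Tendsto rad atTop (𝓝 1) := by
  have h1 : Tendsto (fun n : ℕ => 1 / ((n : ℝ) + 2)) atTop (𝓝 0) := by
    have h2 := (tendsto_one_div_add_atTop_nhds_zero_nat (𝕜 := ℝ)).comp (tendsto_add_atTop_nat 1)
    refine h2.congr (fun n => ?_)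
    simp only [Function.comp]
    push_cast
    ring
  have h3 := h1.const_sub 1
  rw [sub_zero] at h3
  exact h3

lemma exists_rad_gt {ρ : ℝ} (hρ : ρ < 1) : ∃ N : ℕ, ∀ n ≥ N, ρ < rad n := by
  have h := tendsto_rad.eventually_const_lt hρ
  exact Filter.eventually_atTop.1 h

theorem exists_limit {φ : ℂ → ℝ} (hint : ∀ r ∈ Set.Ioo (0:ℝ) 1, CircleIntegrable φ 0 r)
    (hmono : ∀ r ∈ Set.Ioo (0:ℝ) 1, ∀ s ∈ Set.Ioo (0:ℝ) r,
      ∀ᶠ ζ in codiscreteWithin (sphere (0:ℂ) |s|), φ ζ ≤ (Hg φ r ζ).re)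
    {M : ℝ} (hM : ∀ r ∈ Set.Ioo (0:ℝ) 1, circleAverage φ 0 r ≤ M) :
    ∃ H : ℂ → ℂ, DifferentiableOn ℂ H (ball 0 1) ∧
      (∀ z ∈ ball (0:ℂ) 1, Tendsto (fun n : ℕ => Hg φ (rad n) z) atTop (𝓝 (H z))) ∧
      ∀ r ∈ Set.Ioo (0:ℝ) 1, ∀ z ∈ ball (0:ℂ) r, (Hg φ r z).re ≤ (H z).re := by
  -- monotonicity
  have hmon : ∀ r ∈ Set.Ioo (0:ℝ) 1, ∀ s ∈ Set.Ioo (0:ℝ) r, ∀ z ∈ ball (0:ℂ) s,
      (Hg φ s z).re ≤ (Hg φ r z).re := by
    intro r hr s hs z hz
    have hs1 : s ∈ Set.Ioo (0:ℝ) 1 := ⟨hs.1, hs.2.trans hr.2⟩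
    rw [re_Hg (hint s hs1) hz, ← poisson_re (differentiableOn_Hg (hint r hr)) hs.2 hz]
    apply circleAverage_poisson_mono (hint s hs1) _ (hmono r hr s hs) hz
    apply ContinuousOn.circleIntegrable hs.1.le
    apply Complex.continuous_re.comp_continuousOn
    exact (differentiableOn_Hg (hint r hr)).continuousOn.mono
      (sphere_subset_closedBall.trans (closedBall_subset_ball hs.2))
  set a : ℕ → ℝ := fun n => circleAverage φ 0 (rad n) with ha
  have hHg0 : ∀ n, Hg φ (rad n) 0 = (a n : ℂ) := fun n => Hg_zero (rad_mem n).1 (hint _ (rad_mem n))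
  have hamono : Monotone a := by
    apply monotone_nat_of_le_succ
    intro n
    have h1 := hmon _ (rad_mem (n+1)) (rad n) ⟨(rad_mem n).1, rad_strictMono (Nat.lt_succ_self n)⟩ 0
      (mem_ball_self (rad_mem n).1)
    rw [hHg0, hHg0] at h1
    simpa using h1
  have habdd : BddAbove (Set.range a) := ⟨M, by rintro _ ⟨n, rfl⟩; exact hM _ (rad_mem n)⟩
  set A := ⨆ n, a n with hA
  have haA : Tendsto a atTop (𝓝 A) := tendsto_atTop_ciSup hamono habdd
  have haA' : ∀ n, a n ≤ A := fun n => le_ciSup habdd n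
  -- the key estimate
  have key : ∀ m n : ℕ, m ≤ n → ∀ z ∈ ball (0:ℂ) (rad m),
      ‖Hg φ (rad n) z - Hg φ (rad m) z‖ ≤ (A - a m) * ((rad m + ‖z‖) / (rad m - ‖z‖)) := by
    intro m n hmn z hz
    have hzr : ‖z‖ < rad m := by simpa using hz
    have hnn : 0 ≤ (rad m + ‖z‖) / (rad m - ‖z‖) := by
      apply div_nonneg
      · linarith [norm_nonneg z]
      · linarith
    rcases hmn.eq_or_lt with h | h
    · subst h
      rw [sub_self, norm_zero]
      exact mul_nonneg (by linarith [haA' m]) hnn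
    · have hlt := rad_strictMono h
      have h1 := norm_le_of_re_nonneg (D := fun z => Hg φ (rad n) z - Hg φ (rad m) z) (R := rad m)
        (((differentiableOn_Hg (hint _ (rad_mem n))).mono (ball_subset_ball hlt.le)).sub
          (differentiableOn_Hg (hint _ (rad_mem m))))
        (fun w hw => by
          have := hmon _ (rad_mem n) (rad m) ⟨(rad_mem m).1, hlt⟩ w hw
          rw [sub_re]; linarith) hz
      refine h1.trans ?_
      apply mul_le_mul_of_nonneg_right _ hnn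
      simp only [hHg0]
      rw [← Complex.ofReal_sub, Complex.norm_real, Real.norm_eq_abs,
        abs_of_nonneg (by linarith [hamono h.le])]
      linarith [haA' n]
  -- uniform version
  have key2 : ∀ ρ < 1, ∃ N : ℕ, ρ < rad N ∧ ∀ m n : ℕ, N ≤ m → m ≤ n → ∀ z ∈ closedBall (0:ℂ) ρ,
      ‖Hg φ (rad n) z - Hg φ (rad m) z‖ ≤ (A - a m) * (4 / (1 - ρ)) := by
    intro ρ hρ
    obtain ⟨N, hN⟩ := exists_rad_gt (ρ := (1 + ρ) / 2) (by linarith)
    refine ⟨N, by linarith [hN N le_rfl], fun m n hm hmn z hz => ?_⟩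
    have hz' : ‖z‖ ≤ ρ := by simpa using hz
    have hm' := hN m hm
    have hm1 := (rad_mem m).2
    refine (key m n hmn z (by simp only [mem_ball_zero_iff]; linarith)).trans ?_
    apply mul_le_mul_of_nonneg_left _ (by linarith [haA' m])
    rw [div_le_div_iff₀ (by linarith) (by linarith)]
    nlinarith [norm_nonneg z]
  -- Cauchy
  have hcauchy : ∀ z ∈ ball (0:ℂ) 1, CauchySeq (fun n => Hg φ (rad n) z) := by
    intro z hz
    have hz1 : ‖z‖ < 1 := by simpa using hz
    obtain ⟨N, hN1, hN⟩ := key2 ‖z‖ hz1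
    rw [Metric.cauchySeq_iff']
    intro ε hε
    have h1 : Tendsto (fun n => (A - a n) * (4 / (1 - ‖z‖))) atTop (𝓝 ((A - A) * (4 / (1 - ‖z‖)))) :=
      (haA.const_sub A).mul_const _
    rw [sub_self, zero_mul] at h1
    obtain ⟨N2, hN2⟩ := Filter.eventually_atTop.1 (h1.eventually_lt_const hε)
    refine ⟨max N N2, fun n hn => ?_⟩
    rw [dist_eq_norm]
    exact (hN _ n (le_max_left _ _) hn z (by simp)).trans_lt (hN2 _ (le_max_right _ _))
  choose! H hH using fun z (hz : z ∈ ball (0:ℂ) 1) => cauchySeq_tendsto_of_complete (hcauchy z hz)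
  have hunif : ∀ ρ < 1, TendstoUniformlyOn (fun n => Hg φ (rad n)) H atTop (ball 0 ρ) := by
    intro ρ hρ
    obtain ⟨N, hN1, hN⟩ := key2 ρ hρ
    rw [Metric.tendstoUniformlyOn_iff]
    intro ε hε
    have h1 : Tendsto (fun n => (A - a n) * (4 / (1 - ρ))) atTop (𝓝 ((A - A) * (4 / (1 - ρ)))) :=
      (haA.const_sub A).mul_const _
    rw [sub_self, zero_mul] at h1
    filter_upwards [h1.eventually_lt_const hε, Filter.eventually_ge_atTop N] with m hm hmN z hz
    have hz1 : z ∈ ball (0:ℂ) 1 := ball_subset_ball hρ.le hz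
    rw [dist_eq_norm]
    refine lt_of_le_of_lt ?_ hm
    have h2 : Tendsto (fun n => ‖Hg φ (rad n) z - Hg φ (rad m) z‖) atTop
        (𝓝 ‖H z - Hg φ (rad m) z‖) := ((hH z hz1).sub_const _).norm
    refine le_of_tendsto h2 ?_
    filter_upwards [Filter.eventually_ge_atTop m] with n hn
    exact hN m n hmN hn z (ball_subset_closedBall hz)
  refine ⟨H, ?_, hH, ?_⟩
  · intro z hz
    have hz1 : ‖z‖ < 1 := by simpa using hz
    have h1 : DifferentiableOn ℂ H (ball 0 ((1 + ‖z‖) / 2)) := by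
      apply TendstoLocallyUniformlyOn.differentiableOn
        (hunif ((1 + ‖z‖) / 2) (by linarith)).tendstoLocallyUniformlyOn _ isOpen_ball
      obtain ⟨N, hN⟩ := exists_rad_gt (ρ := (1 + ‖z‖) / 2) (by linarith)
      filter_upwards [Filter.eventually_ge_atTop N] with n hn
      exact (differentiableOn_Hg (hint _ (rad_mem n))).mono (ball_subset_ball (hN n hn).le)
    have h2 : z ∈ ball (0:ℂ) ((1 + ‖z‖) / 2) := by
      rw [mem_ball_zero_iff]; linarith
    exact ((h1 z h2).differentiableAt (isOpen_ball.mem_nhds h2)).differentiableWithinAt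
  · intro r hr z hz
    have hz1 : z ∈ ball (0:ℂ) 1 := ball_subset_ball hr.2.le hz
    have h1 : Tendsto (fun n => (Hg φ (rad n) z).re) atTop (𝓝 (H z).re) :=
      (Complex.continuous_re.tendsto _).comp (hH z hz1)
    refine ge_of_tendsto h1 ?_
    obtain ⟨N, hN⟩ := exists_rad_gt hr.2
    filter_upwards [Filter.eventually_ge_atTop N] with n hn
    exact hmon _ (rad_mem n) r ⟨hr.1, hN n hn⟩ z hz

end Pool.Agent.Lib.P6e0919
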