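import Mathlib
import Pool.Agent.Lib.P6e0919.Limit

open Complex Metric Real Filter Topology MeromorphicOn MeasureTheory
open scoped ComplexConjugate

namespace Pool.Agent.Lib.P6e0919

lemma normSq_identity (R : ℝ) (u w : ℂ) :
    ‖(R:ℂ) ^ 2 - conj u * w‖ ^ 2 = R ^ 2 * ‖w - u‖ ^ 2 + (R ^ 2 - ‖u‖ ^ 2) * (R ^ 2 - ‖w‖ ^ 2) := by
  simp only [← Complex.normSq_eq_norm_sq, Complex.normSq_apply]
  simp [pow_two]
  ring

lemma log_canonicalFactor_nonneg {R : ℝ} {u w : ℂ} (hu : u ∈ ball (0:ℂ) R)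
    (hw : w ∈ ball (0:ℂ) R) : 0 ≤ Real.log ‖canonicalFactor R u w‖ := by
  have hR : 0 < R := pos_of_mem_ball hu
  by_cases hne : w = u
  · rw [hne, canonicalFactor_apply_self]; simp
  · apply Real.log_nonneg
    have hu' : ‖u‖ < R := by simpa using hu
    have hw' : ‖w‖ < R := by simpa using hw
    have hpos : 0 < ‖w - u‖ := norm_pos_iff.2 (sub_ne_zero.2 hne)
    rw [canonicalFactor_apply, norm_div, norm_mul, Complex.norm_real, Real.norm_eq_abs,
      abs_of_pos hR, one_le_div (by positivity)]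
    apply le_of_sq_le_sq _ (norm_nonneg _)
    rw [normSq_identity]
    have h1 : 0 ≤ (R ^ 2 - ‖u‖ ^ 2) * (R ^ 2 - ‖w‖ ^ 2) := by
      apply mul_nonneg
      · nlinarith [norm_nonneg u]
      · nlinarith [norm_nonneg w]
    nlinarith

/-- Subharmonicity of `log ‖f‖`. -/
lemma log_norm_le_poisson {f : ℂ → ℂ} {R : ℝ} (hR : 0 < R)
    (hf : AnalyticOnNhd ℂ f (closedBall 0 R)) {w : ℂ} (hw : w ∈ ball (0:ℂ) R) (hfw : f w ≠ 0) :
    Real.log ‖f w‖ ≤
      circleAverage ((Complex.re ∘ herglotzRieszKernel 0 w) • (fun z => Real.log ‖f z‖)) 0 R := by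
  rw [poisson_jensen hR hf hw hfw]
  have h1 : 0 ≤ ∑ᶠ u, (divisor f (ball 0 R) u : ℝ) * Real.log ‖canonicalFactor R u w‖ := by
    apply finsum_nonneg
    intro u
    by_cases hu : u ∈ ball (0:ℂ) R
    · apply mul_nonneg _ (log_canonicalFactor_nonneg hu hw)
      have : 0 ≤ divisor f (ball 0 R) u :=
        (MeromorphicOn.AnalyticOnNhd.divisor_nonneg (hf.mono ball_subset_closedBall)) u
      exact_mod_cast this
    · rw [Function.locallyFinsuppWithin.apply_eq_zero_of_notMem _ hu]; simp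
  linarith

/-- The Nevanlinna class, for functions on the plane (only the values on the disc matter). -/
def IsNev (f : ℂ → ℂ) : Prop := DifferentiableOn ℂ f (ball 0 1) ∧
  ∃ C : ℝ, ∀ r ∈ Set.Ioo (0:ℝ) 1, circleAverage (fun z => Real.posLog ‖f z‖) 0 r ≤ C

lemma analyticOnNhd_closedBall {f : ℂ → ℂ} (hf : DifferentiableOn ℂ f (ball 0 1)) {r : ℝ}
    (hr : r < 1) : AnalyticOnNhd ℂ f (closedBall 0 r) :=
  (hf.analyticOnNhd isOpen_ball).mono (closedBall_subset_ball hr)

lemma circleIntegrable_posLog {f : ℂ → ℂ} (hf : DifferentiableOn ℂ f (ball 0 1)) {r : ℝ}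
    (hr : r ∈ Set.Ioo (0:ℝ) 1) : CircleIntegrable (fun z => Real.posLog ‖f z‖) 0 r := by
  apply MeromorphicOn.circleIntegrable_posLog_norm
  apply AnalyticOnNhd.meromorphicOn
  apply (analyticOnNhd_closedBall hf hr.2).mono
  rw [abs_of_pos hr.1]
  exact sphere_subset_closedBall

lemma circleIntegrable_log {f : ℂ → ℂ} (hf : DifferentiableOn ℂ f (ball 0 1)) {r : ℝ}
    (hr : r ∈ Set.Ioo (0:ℝ) 1) : CircleIntegrable (fun z => Real.log ‖f z‖) 0 r := by
  apply MeromorphicOn.circleIntegrable_log_norm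
  apply AnalyticOnNhd.meromorphicOn
  apply (analyticOnNhd_closedBall hf hr.2).mono
  rw [abs_of_pos hr.1]
  exact sphere_subset_closedBall

lemma posLog_le_Hg {f : ℂ → ℂ} (hf : DifferentiableOn ℂ f (ball 0 1)) {r : ℝ}
    (hr : r ∈ Set.Ioo (0:ℝ) 1) {z : ℂ} (hz : z ∈ ball (0:ℂ) r) :
    Real.posLog ‖f z‖ ≤ (Hg (fun z => Real.posLog ‖f z‖) r z).re := by
  have hi := circleIntegrable_posLog hf hr
  rw [re_Hg hi hz, Real.posLog_apply]
  apply max_le
  · apply circleAverage_nonneg_of_nonneg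
    intro ζ hζ
    rw [abs_of_pos hr.1] at hζ
    simp only [Pi.smul_apply', Function.comp_apply, smul_eq_mul]
    exact mul_nonneg (poisson_nonneg hz hζ) Real.posLog_nonneg
  · by_cases hfz : f z = 0
    · rw [hfz, norm_zero, Real.log_zero]
      apply circleAverage_nonneg_of_nonneg
      intro ζ hζ
      rw [abs_of_pos hr.1] at hζ
      simp only [Pi.smul_apply', Function.comp_apply, smul_eq_mul]
      exact mul_nonneg (poisson_nonneg hz hζ) Real.posLog_nonneg
    · refine (log_norm_le_poisson hr.1 (analyticOnNhd_closedBall hf hr.2) hz hfz).trans ?_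
      apply circleAverage_poisson_mono (circleIntegrable_log hf hr) hi _ hz
      apply Eventually.of_forall
      intro ζ
      rw [Real.posLog_apply]
      exact le_max_right _ _

theorem IsNev.exists_majorant {f : ℂ → ℂ} (hf : IsNev f) :
    ∃ F : ℂ → ℂ, PR F ∧ ∀ z ∈ ball (0:ℂ) 1, ‖f z‖ ≤ Real.exp (F z).re := by
  obtain ⟨hd, C, hC⟩ := hf
  obtain ⟨H, hH1, hH2, hH3⟩ := exists_limit (φ := fun z => Real.posLog ‖f z‖)
    (fun r hr => circleIntegrable_posLog hd hr)
    (fun r hr s hs => by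
      filter_upwards [self_mem_codiscreteWithin _] with ζ hζ
      apply posLog_le_Hg hd hr
      rw [abs_of_pos hs.1, mem_sphere_zero_iff_norm] at hζ
      rw [mem_ball_zero_iff, hζ]
      exact hs.2) hC
  have h1 : ∀ z ∈ ball (0:ℂ) 1, Real.posLog ‖f z‖ ≤ (H z).re := by
    intro z hz
    have hz1 : ‖z‖ < 1 := by simpa using hz
    obtain ⟨r, hr1, hr2⟩ := exists_between hz1
    have hr : r ∈ Set.Ioo (0:ℝ) 1 := ⟨(norm_nonneg z).trans_lt hr1, hr2⟩
    have hzr : z ∈ ball (0:ℂ) r := by simpa using hr1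
    exact (posLog_le_Hg hd hr hzr).trans (hH3 r hr z hzr)
  refine ⟨H, ⟨hH1, fun z hz => Real.posLog_nonneg.trans (h1 z hz)⟩, fun z hz => ?_⟩
  by_cases hfz : f z = 0
  · rw [hfz, norm_zero]; positivity
  · have h2 : Real.log ‖f z‖ ≤ (H z).re := by
      refine le_trans ?_ (h1 z hz)
      rw [Real.posLog_apply]
      exact le_max_right _ _
    calc ‖f z‖ = Real.exp (Real.log ‖f z‖) := (Real.exp_log (norm_pos_iff.2 hfz)).symm
      _ ≤ _ := Real.exp_le_exp.2 h2

lemma circleIntegrable_re {F : ℂ → ℂ} (hF : DifferentiableOn ℂ F (ball 0 1)) {r : ℝ}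
    (hr : r ∈ Set.Ioo (0:ℝ) 1) : CircleIntegrable (fun z => (F z).re) 0 r := by
  apply ContinuousOn.circleIntegrable hr.1.le
  apply Complex.continuous_re.comp_continuousOn
  exact hF.continuousOn.mono (sphere_subset_closedBall.trans (closedBall_subset_ball hr.2))

theorem isNev_of_majorant {f : ℂ → ℂ} (hf : DifferentiableOn ℂ f (ball 0 1)) {F : ℂ → ℂ}
    (hF : PR F) (hle : ∀ z ∈ ball (0:ℂ) 1, ‖f z‖ ≤ Real.exp (F z).re) : IsNev f := by
  refine ⟨hf, (F 0).re, fun r hr => ?_⟩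
  have h1 : circleAverage (fun ζ => (F ζ).re) 0 r = (F 0).re :=
    mean_re isOpen_ball hF.1 hr.1.le (closedBall_subset_ball hr.2)
  rw [← h1]
  apply circleAverage_mono (circleIntegrable_posLog hf hr) (circleIntegrable_re hF.1 hr)
  intro ζ hζ
  rw [abs_of_pos hr.1] at hζ
  have hζ1 : ζ ∈ ball (0:ℂ) 1 := closedBall_subset_ball hr.2 (sphere_subset_closedBall hζ)
  rw [Real.posLog_apply]
  apply max_le (hF.2 ζ hζ1)
  by_cases h0 : f ζ = 0
  · rw [h0, norm_zero, Real.log_zero]; exact hF.2 ζ hζ1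
  · rw [Real.log_le_iff_le_exp (norm_pos_iff.2 h0)]
    exact hle ζ hζ1

end Pool.Agent.Lib.P6e0919
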