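import Mathlib
import Pool.Agent.Lib.P6e0919.Nev

open Complex Metric Real Filter Topology MeromorphicOn MeasureTheory
open scoped ComplexConjugate

namespace Pool.Agent.Lib.P6e0919

/-- half-plane valued kernel -/
noncomputable def bk (u z : ℂ) : ℂ := (1 + conj u * z) / (1 - conj u * z)

lemma norm_conj_mul_lt {u z : ℂ} (hu : u ∈ ball (0:ℂ) 1) (hz : z ∈ ball (0:ℂ) 1) :
    ‖conj u * z‖ < 1 := by
  rw [norm_mul, RCLike.norm_conj]
  have h1 : ‖u‖ < 1 := by simpa using hu
  have h2 : ‖z‖ < 1 := by simpa using hz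
  nlinarith [norm_nonneg u, norm_nonneg z]

lemma one_sub_conj_mul_ne {u z : ℂ} (hu : u ∈ ball (0:ℂ) 1) (hz : z ∈ ball (0:ℂ) 1) :
    1 - conj u * z ≠ 0 := by
  intro h
  rw [sub_eq_zero] at h
  have := norm_conj_mul_lt hu hz
  rw [← h, norm_one] at this
  exact lt_irrefl _ this

lemma re_bk (u z : ℂ) : (bk u z).re = (1 - ‖u‖ ^ 2 * ‖z‖ ^ 2) / ‖1 - conj u * z‖ ^ 2 := by
  unfold bk
  rw [div_re, ← Complex.normSq_eq_norm_sq (1 - conj u * z), ← add_div]
  congr 1
  have : ‖u‖ ^ 2 * ‖z‖ ^ 2 = Complex.normSq (conj u * z) := by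
    rw [Complex.normSq_eq_norm_sq, norm_mul, RCLike.norm_conj]; ring
  rw [this, Complex.normSq_apply]
  simp only [add_re, one_re, sub_re, add_im, one_im, sub_im]
  ring

lemma bk_lower_left {u z : ℂ} (hu : u ∈ ball (0:ℂ) 1) (hz : z ∈ ball (0:ℂ) 1) :
    (1 - ‖u‖ ^ 2) / ‖1 - conj u * z‖ ^ 2 ≤ (bk u z).re := by
  rw [re_bk]
  have h1 : ‖u‖ < 1 := by simpa using hu
  have h2 : ‖z‖ < 1 := by simpa using hz
  gcongr
  have h3 : ‖z‖ ^ 2 ≤ 1 := by nlinarith [norm_nonneg z]
  exact mul_le_of_le_one_right (by positivity) h3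

lemma bk_lower_right {u z : ℂ} (hu : u ∈ ball (0:ℂ) 1) (hz : z ∈ ball (0:ℂ) 1) :
    (1 - ‖z‖ ^ 2) / ‖1 - conj u * z‖ ^ 2 ≤ (bk u z).re := by
  rw [re_bk]
  have h1 : ‖u‖ < 1 := by simpa using hu
  have h2 : ‖z‖ < 1 := by simpa using hz
  gcongr
  have h3 : ‖u‖ ^ 2 ≤ 1 := by nlinarith [norm_nonneg u]
  exact mul_le_of_le_one_left (by positivity) h3

lemma re_bk_nonneg {u z : ℂ} (hu : u ∈ ball (0:ℂ) 1) (hz : z ∈ ball (0:ℂ) 1) :
    0 ≤ (bk u z).re := by
  refine le_trans ?_ (bk_lower_left hu hz)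
  have h1 : ‖u‖ < 1 := by simpa using hu
  apply div_nonneg _ (by positivity)
  nlinarith [norm_nonneg u]

lemma one_sub_norm_le {u z : ℂ} (hu : u ∈ ball (0:ℂ) 1) : 1 - ‖z‖ ≤ ‖1 - conj u * z‖ := by
  have h1 : ‖u‖ < 1 := by simpa using hu
  have h2 : ‖conj u * z‖ ≤ ‖z‖ := by
    rw [norm_mul, RCLike.norm_conj]
    nlinarith [norm_nonneg z]
  have h3 : ‖(1:ℂ)‖ - ‖conj u * z‖ ≤ ‖1 - conj u * z‖ := norm_sub_norm_le _ _
  rw [norm_one] at h3
  linarith

lemma norm_bk_le {u z : ℂ} (hu : u ∈ ball (0:ℂ) 1) (hz : z ∈ ball (0:ℂ) 1) :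
    ‖bk u z‖ ≤ 2 / (1 - ‖z‖) := by
  have h2 : ‖z‖ < 1 := by simpa using hz
  have h3 := norm_conj_mul_lt hu hz
  unfold bk
  rw [norm_div]
  have h4 : ‖1 + conj u * z‖ ≤ 2 := by
    calc ‖1 + conj u * z‖ ≤ ‖(1:ℂ)‖ + ‖conj u * z‖ := norm_add_le _ _
      _ ≤ 2 := by rw [norm_one]; linarith
  exact div_le_div₀ (by norm_num) h4 (by linarith) (one_sub_norm_le hu)

section KS

variable {ι : Type*} (p : ι → ℂ) (m : ι → ℝ)

/-- Sum of half-plane kernels. -/
noncomputable def KS (z : ℂ) : ℂ := ∑' i, (m i : ℂ) * bk (p i) z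

variable {p m}

lemma norm_term_le (hp : ∀ i, m i ≠ 0 → p i ∈ ball (0:ℂ) 1) (hm : ∀ i, 0 ≤ m i) {z : ℂ}
    (hz : z ∈ ball (0:ℂ) 1) (i : ι) : ‖(m i : ℂ) * bk (p i) z‖ ≤ m i * (2 / (1 - ‖z‖)) := by
  by_cases h : m i = 0
  · rw [h]; simp
  · rw [norm_mul, Complex.norm_real, Real.norm_eq_abs, abs_of_nonneg (hm i)]
    exact mul_le_mul_of_nonneg_left (norm_bk_le (hp i h) hz) (hm i)

lemma summable_KS (hp : ∀ i, m i ≠ 0 → p i ∈ ball (0:ℂ) 1) (hm : ∀ i, 0 ≤ m i)
    (hs : Summable m) {z : ℂ} (hz : z ∈ ball (0:ℂ) 1) :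
    Summable (fun i => (m i : ℂ) * bk (p i) z) :=
  Summable.of_norm_bounded (hs.mul_right (2 / (1 - ‖z‖))) (norm_term_le hp hm hz)

lemma re_KS (hp : ∀ i, m i ≠ 0 → p i ∈ ball (0:ℂ) 1) (hm : ∀ i, 0 ≤ m i)
    (hs : Summable m) {z : ℂ} (hz : z ∈ ball (0:ℂ) 1) :
    (KS p m z).re = ∑' i, m i * (bk (p i) z).re ∧ Summable (fun i => m i * (bk (p i) z).re) := by
  have h1 := summable_KS hp hm hs hz
  have h2 : ∀ i, ((m i : ℂ) * bk (p i) z).re = m i * (bk (p i) z).re := fun i => by
    rw [re_ofReal_mul]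
  constructor
  · rw [KS, Complex.re_tsum h1]
    exact tsum_congr h2
  · exact (Complex.hasSum_re h1.hasSum).summable.congr (fun i => (h2 i))

lemma term_nonneg (hp : ∀ i, m i ≠ 0 → p i ∈ ball (0:ℂ) 1) (hm : ∀ i, 0 ≤ m i) {z : ℂ}
    (hz : z ∈ ball (0:ℂ) 1) (i : ι) : 0 ≤ m i * (bk (p i) z).re := by
  by_cases h : m i = 0
  · rw [h, zero_mul]
  · exact mul_nonneg (hm i) (re_bk_nonneg (hp i h) hz)

lemma sum_le_re_KS (hp : ∀ i, m i ≠ 0 → p i ∈ ball (0:ℂ) 1) (hm : ∀ i, 0 ≤ m i)
    (hs : Summable m) {z : ℂ} (hz : z ∈ ball (0:ℂ) 1) (t : Finset ι) :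
    ∑ i ∈ t, m i * (bk (p i) z).re ≤ (KS p m z).re := by
  obtain ⟨h1, h2⟩ := re_KS hp hm hs hz
  rw [h1]
  exact h2.sum_le_tsum t (fun i _ => term_nonneg hp hm hz i)

lemma PR_KS (hp : ∀ i, m i ≠ 0 → p i ∈ ball (0:ℂ) 1) (hm : ∀ i, 0 ≤ m i)
    (hs : Summable m) : PR (KS p m) := by
  constructor
  · intro z hz
    have hz1 : ‖z‖ < 1 := by simpa using hz
    set ρ := (1 + ‖z‖) / 2 with hρ
    have h1 : DifferentiableOn ℂ (KS p m) (ball 0 ρ) := by
      apply differentiableOn_tsum_of_summable_norm (u := fun i => m i * (2 / (1 - ρ)))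
        (hs.mul_right _) _ isOpen_ball
      · intro i w hw
        have hw1 : w ∈ ball (0:ℂ) 1 := ball_subset_ball (by rw [hρ]; linarith) hw
        have hw2 : ‖w‖ < ρ := by simpa using hw
        refine (norm_term_le hp hm hw1 i).trans ?_
        have : 2 / (1 - ‖w‖) ≤ 2 / (1 - ρ) := by
          apply div_le_div_of_nonneg_left (by norm_num)
          · rw [hρ]; linarith
          · linarith
        exact mul_le_mul_of_nonneg_left this (hm i)
      · intro i
        by_cases h : m i = 0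
        · simp only [h, Complex.ofReal_zero, zero_mul]; exact differentiableOn_const _
        · intro w hw
          have hw1 : w ∈ ball (0:ℂ) 1 := ball_subset_ball (by rw [hρ]; linarith) hw
          apply DifferentiableAt.differentiableWithinAt
          apply DifferentiableAt.const_mul
          unfold bk
          apply DifferentiableAt.div
          · fun_prop
          · fun_prop
          · exact one_sub_conj_mul_ne (hp i h) hw1
    have h2 : z ∈ ball (0:ℂ) ρ := by rw [mem_ball_zero_iff, hρ]; linarith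
    exact ((h1 z h2).differentiableAt (isOpen_ball.mem_nhds h2)).differentiableWithinAt
  · intro z hz
    simpa using sum_le_re_KS hp hm hs hz ∅

end KS

/-- Jensen's inequality on the disc. -/
lemma jensen_sum {g : ℂ → ℂ} (hd : DifferentiableOn ℂ g (ball 0 1)) {C : ℝ}
    (hC : ∀ r ∈ Set.Ioo (0:ℝ) 1, circleAverage (fun z => Real.log ‖g z‖) 0 r ≤ C)
    (t : Finset ℂ) :
    ∑ u ∈ t, (divisor g (ball 0 1) u : ℝ) * Real.log ‖u‖⁻¹ ≤
      C - Real.log ‖meromorphicTrailingCoeffAt g 0‖ := by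
  set D : ℂ → ℝ := fun u => (divisor g (ball 0 1) u : ℝ) with hD
  have han : AnalyticOnNhd ℂ g (ball 0 1) := hd.analyticOnNhd isOpen_ball
  have hD0 : ∀ u, 0 ≤ D u := by
    intro u
    have : 0 ≤ divisor g (ball 0 1) u := (MeromorphicOn.AnalyticOnNhd.divisor_nonneg han) u
    simp only [hD]
    exact_mod_cast this
  have hDout : ∀ u ∉ ball (0:ℂ) 1, D u = 0 := by
    intro u hu
    simp only [hD]
    rw [Function.locallyFinsuppWithin.apply_eq_zero_of_notMem _ hu]; simp
  have hDR : ∀ R : ℝ, 0 < R → R < 1 → ∀ u ∈ closedBall (0:ℂ) R,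
      (divisor g (closedBall 0 |R|) u : ℝ) = D u := by
    intro R hR0 hR u hu
    have hu1 : u ∈ ball (0:ℂ) 1 := closedBall_subset_ball hR hu
    simp only [hD]
    rw [divisor_apply (by rw [abs_of_pos hR0]; exact (analyticOnNhd_closedBall hd hR).meromorphicOn)
      (by rw [abs_of_pos hR0]; exact hu), divisor_apply han.meromorphicOn hu1]
  set L := Real.log ‖meromorphicTrailingCoeffAt g 0‖ with hL
  have hJ : ∑ u ∈ t, D u * Real.log ‖u‖⁻¹ ≤ C - L := by
    -- restrict to the points in the ball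
    classical
    set t' := t.filter (fun u => u ∈ ball (0:ℂ) 1) with ht'
    have e1 : ∑ u ∈ t, D u * Real.log ‖u‖⁻¹ = ∑ u ∈ t', D u * Real.log ‖u‖⁻¹ := by
      rw [ht', Finset.sum_filter]
      apply Finset.sum_congr rfl
      intro u _
      by_cases hu : u ∈ ball (0:ℂ) 1
      · rw [if_pos hu]
      · rw [if_neg hu, hDout u hu, zero_mul]
    rw [e1]
    have h1 : ∀ᶠ n in atTop, ∑ u ∈ t', D u * Real.log (rad n * ‖u‖⁻¹) ≤
        C - D 0 * Real.log (rad n) - L := by
      have h2 : ∀ᶠ n in atTop, ∀ u ∈ t', u ∈ ball (0:ℂ) (rad n) := by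
        rw [Finset.eventually_all]
        intro u hu
        have hu1 : ‖u‖ < 1 := by simpa using (Finset.mem_filter.1 hu).2
        obtain ⟨N, hN⟩ := exists_rad_gt hu1
        filter_upwards [Filter.eventually_ge_atTop N] with n hn
        simpa using hN n hn
      filter_upwards [h2] with n hn
      have hr := rad_mem n
      have hJ := MeromorphicOn.circleAverage_log_norm (c := 0) (R := rad n) (f := g) hr.1.ne'
        (by rw [abs_of_pos hr.1]; exact (analyticOnNhd_closedBall hd hr.2).meromorphicOn)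
      rw [hDR _ hr.1 hr.2 0 (mem_closedBall_self hr.1.le)] at hJ
      have h3 : circleAverage (fun z => Real.log ‖g z‖) 0 (rad n) ≤ C := hC _ hr
      have hfin : (Function.support (fun u => (divisor g (closedBall 0 |rad n|) u : ℝ) *
          Real.log (rad n * ‖0 - u‖⁻¹))).Finite := by
        have : (divisor g (closedBall (0:ℂ) |rad n|)).support.Finite :=
          (divisor g (closedBall (0:ℂ) |rad n|)).finiteSupport (isCompact_closedBall _ _)
        apply this.subset
        intro u hu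
        rw [Function.mem_support] at hu ⊢
        intro h0
        exact hu (by rw [h0]; simp)
      have h4 : ∑ u ∈ t', D u * Real.log (rad n * ‖u‖⁻¹) ≤
          ∑ᶠ u, (divisor g (closedBall 0 |rad n|) u : ℝ) * Real.log (rad n * ‖0 - u‖⁻¹) := by
        rw [finsum_eq_sum_of_support_subset (s := hfin.toFinset ∪ t') _ (by
          intro u hu
          rw [Finset.mem_coe, Finset.mem_union]
          left
          rw [Set.Finite.mem_toFinset]; exact hu)]
        have h5 : ∀ u ∈ t', D u * Real.log (rad n * ‖u‖⁻¹) =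
            (divisor g (closedBall 0 |rad n|) u : ℝ) * Real.log (rad n * ‖0 - u‖⁻¹) := by
          intro u hu
          rw [hDR _ hr.1 hr.2 u (ball_subset_closedBall (hn u hu)), zero_sub, norm_neg]
        rw [Finset.sum_congr rfl h5]
        apply Finset.sum_le_sum_of_subset_of_nonneg Finset.subset_union_right
        intro u _ _
        by_cases hu : u ∈ closedBall (0:ℂ) (rad n)
        · rw [hDR _ hr.1 hr.2 u hu]
          apply mul_nonneg (hD0 u)
          by_cases hu0 : u = 0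
          · rw [hu0]; simp
          · apply Real.log_nonneg
            rw [zero_sub, norm_neg]
            have h6 : ‖u‖ ≤ rad n := by simpa using hu
            have h7 : 0 < ‖u‖ := norm_pos_iff.2 hu0
            rw [← div_eq_mul_inv, le_div_iff₀ h7, one_mul]
            exact h6
        · rw [Function.locallyFinsuppWithin.apply_eq_zero_of_notMem _ (by
            rw [abs_of_pos hr.1]; exact hu)]; simp
      linarith
    have h8 : Tendsto (fun n => ∑ u ∈ t', D u * Real.log (rad n * ‖u‖⁻¹)) atTop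
        (𝓝 (∑ u ∈ t', D u * Real.log ‖u‖⁻¹)) := by
      apply tendsto_finsetSum
      intro u _
      apply Tendsto.const_mul
      by_cases hu0 : u = 0
      · rw [hu0]; simp
      · have h9 : Tendsto (fun n => rad n * ‖u‖⁻¹) atTop (𝓝 (1 * ‖u‖⁻¹)) := tendsto_rad.mul_const _
        rw [one_mul] at h9
        exact h9.log (inv_ne_zero (norm_ne_zero_iff.2 hu0))
    have h10 : Tendsto (fun n => C - D 0 * Real.log (rad n) - L) atTop
        (𝓝 (C - D 0 * Real.log 1 - L)) :=
      (((tendsto_rad.log one_ne_zero).const_mul (D 0)).const_sub C).sub_const L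
    rw [Real.log_one, mul_zero, sub_zero] at h10
    exact le_of_tendsto_of_tendsto h8 h10 h1
  exact hJ

/-- Blaschke condition. -/
theorem blaschke {g : ℂ → ℂ} (hg : IsNev g) :
    Summable (fun u : ℂ => (divisor g (ball 0 1) u : ℝ) * (1 - ‖u‖ ^ 2)) := by
  obtain ⟨hd, C, hC⟩ := hg
  set D : ℂ → ℝ := fun u => (divisor g (ball 0 1) u : ℝ) with hD
  have han : AnalyticOnNhd ℂ g (ball 0 1) := hd.analyticOnNhd isOpen_ball
  have hD0 : ∀ u, 0 ≤ D u := by
    intro u
    have : 0 ≤ divisor g (ball 0 1) u := (MeromorphicOn.AnalyticOnNhd.divisor_nonneg han) u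
    simp only [hD]
    exact_mod_cast this
  have hDout : ∀ u ∉ ball (0:ℂ) 1, D u = 0 := by
    intro u hu
    simp only [hD]
    rw [Function.locallyFinsuppWithin.apply_eq_zero_of_notMem _ hu]; simp
  set L := Real.log ‖meromorphicTrailingCoeffAt g 0‖ with hL
  have hJ : ∀ t : Finset ℂ, ∑ u ∈ t, D u * Real.log ‖u‖⁻¹ ≤ C - L := by
    intro t
    apply jensen_sum hd _ t
    intro r hr
    refine le_trans ?_ (hC _ hr)
    apply circleAverage_mono (circleIntegrable_log hd hr) (circleIntegrable_posLog hd hr)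
    intro ζ _
    rw [Real.posLog_apply]
    exact le_max_right _ _
  apply summable_of_sum_le (c := D 0 + 2 * (C - L))
  · intro u
    by_cases hu : u ∈ ball (0:ℂ) 1
    · have h1 : ‖u‖ < 1 := by simpa using hu
      apply mul_nonneg (hD0 u)
      nlinarith [norm_nonneg u]
    · have := hDout u hu
      simp only [hD] at this
      simp only [this, zero_mul]
      exact le_refl (0:ℝ)
  · intro t
    classical
    have h1 : ∀ u ∈ t, D u * (1 - ‖u‖ ^ 2) ≤ (if u = 0 then D 0 else 0) +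
        2 * (D u * Real.log ‖u‖⁻¹) := by
      intro u _
      by_cases hu0 : u = 0
      · rw [if_pos hu0, hu0]; simp
      · rw [if_neg hu0, zero_add]
        have h2 : 0 < ‖u‖ ^ 2 := by positivity
        have h3 := Real.log_le_sub_one_of_pos h2
        rw [Real.log_pow] at h3
        have h4 : 1 - ‖u‖ ^ 2 ≤ 2 * Real.log ‖u‖⁻¹ := by
          rw [Real.log_inv]
          push_cast at h3
          linarith
        nlinarith [hD0 u]
    refine (Finset.sum_le_sum h1).trans ?_
    rw [Finset.sum_add_distrib, ← Finset.mul_sum]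
    have h5 := hJ t
    have h6 : ∑ u ∈ t, (if u = 0 then D 0 else 0) ≤ D 0 := by
      rw [Finset.sum_ite_eq']
      split_ifs
      · exact le_rfl
      · exact hD0 0
    linarith

end Pool.Agent.Lib.P6e0919
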