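import Mathlib
import Pool.Agent.Lib.P6e0919.Blaschke

open Complex Metric Real Filter Topology MeromorphicOn MeasureTheory
open scoped ComplexConjugate

namespace Pool.Agent.Lib.P6e0919

lemma circleAverage_log_canonicalFactor {R : ℝ} {u z : ℂ} (hu : u ∈ ball (0:ℂ) R) {ρ : ℝ}
    (hρ : 0 < ρ) (hz : closedBall z ρ ⊆ ball (0:ℂ) R) :
    circleAverage (fun w => Real.log ‖canonicalFactor R u w‖) z ρ =
      Real.log ‖(R:ℂ) ^ 2 - conj u * z‖ - Real.log R -
        (Real.log ρ + Real.posLog (ρ⁻¹ * ‖z - u‖)) := by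
  have hR : 0 < R := pos_of_mem_ball hu
  have hu' : ‖u‖ < R := by simpa using hu
  have hne : ∀ w ∈ closedBall z ρ, (R:ℂ) ^ 2 - conj u * w ≠ 0 := by
    intro w hw h0
    have hw' : ‖w‖ < R := by simpa using hz hw
    rw [sub_eq_zero] at h0
    have h1 : ‖(R:ℂ) ^ 2‖ = ‖conj u * w‖ := by rw [h0]
    rw [norm_pow, Complex.norm_real, Real.norm_eq_abs, abs_of_pos hR, norm_mul,
      RCLike.norm_conj] at h1
    nlinarith [norm_nonneg u, norm_nonneg w]
  have hi1 : CircleIntegrable (fun w => Real.log ‖(R:ℂ) ^ 2 - conj u * w‖) z ρ := by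
    apply MeromorphicOn.circleIntegrable_log_norm
    apply AnalyticOnNhd.meromorphicOn
    intro w _
    fun_prop
  have hi2 : CircleIntegrable (fun w => Real.log ‖w - u‖) z ρ := by
    apply MeromorphicOn.circleIntegrable_log_norm
    apply AnalyticOnNhd.meromorphicOn
    intro w _
    fun_prop
  have hi3 : CircleIntegrable (fun _ : ℂ => Real.log R) z ρ := circleIntegrable_const _ _ _
  have h1 : circleAverage (fun w => Real.log ‖canonicalFactor R u w‖) z ρ =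
      circleAverage (((fun w => Real.log ‖(R:ℂ) ^ 2 - conj u * w‖) - (fun _ => Real.log R)) -
        (fun w => Real.log ‖w - u‖)) z ρ := by
    apply circleAverage_congr_codiscreteWithin _ hρ.ne'
    have h2 : {u}ᶜ ∈ codiscreteWithin (sphere z |ρ|) :=
      Filter.codiscreteWithin_mono (Set.subset_univ _)
        (by exact (Set.finite_singleton u).compl_mem_codiscrete)
    filter_upwards [h2, self_mem_codiscreteWithin _] with w hw hws
    rw [abs_of_pos hρ] at hws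
    have hwu : w - u ≠ 0 := sub_ne_zero.2 hw
    have hR' : (R:ℂ) ≠ 0 := by exact_mod_cast hR.ne'
    have hnw := hne w (sphere_subset_closedBall hws)
    simp only [Pi.sub_apply]
    rw [canonicalFactor_apply, norm_div, Real.log_div (norm_ne_zero_iff.2 hnw)
      (norm_ne_zero_iff.2 (mul_ne_zero hR' hwu)), norm_mul, Real.log_mul (norm_ne_zero_iff.2 hR')
      (norm_ne_zero_iff.2 hwu), Complex.norm_real, Real.norm_eq_abs, abs_of_pos hR]
    ring
  rw [h1, circleAverage_sub (hi1.sub hi3) hi2, circleAverage_sub hi1 hi3, circleAverage_const]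
  congr 1
  · congr 1
    apply AnalyticOnNhd.circleAverage_log_norm_of_ne_zero
    · intro w _; fun_prop
    · rw [abs_of_pos hρ]; exact hne
  · exact circleAverage_log_norm_sub_const_eq_log_radius_add_posLog hρ.ne'

/-- the elementary estimate -/
lemma mean_estimate {R : ℝ} (hR1 : R < 1) {u z : ℂ} (hu : u ∈ ball (0:ℂ) R)
    (hz : closedBall z ((1 - ‖z‖) / 4) ⊆ ball (0:ℂ) R) (hz1 : z ∈ ball (0:ℂ) 1) :
    circleAverage (fun w => Real.log ‖canonicalFactor R u w‖) z ((1 - ‖z‖) / 4) ≤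
      41 * ((1 - ‖u‖ ^ 2) * (bk u z).re) := by
  have hR : 0 < R := pos_of_mem_ball hu
  have hu' : ‖u‖ < R := by simpa using hu
  have hzn : ‖z‖ < 1 := by simpa using hz1
  set ρ := (1 - ‖z‖) / 4 with hρ
  have hρ0 : 0 < ρ := by rw [hρ]; linarith
  have hzR : ‖z‖ < R := by simpa using hz (mem_closedBall_self hρ0.le)
  rw [circleAverage_log_canonicalFactor hu hρ0 hz]
  set M := max ‖z - u‖ ρ with hM
  have hM0 : 0 < M := lt_of_lt_of_le hρ0 (le_max_right _ _)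
  have hlogM : Real.log ρ + Real.posLog (ρ⁻¹ * ‖z - u‖) = Real.log M := by
    rw [Real.posLog_apply]
    by_cases h : ‖z - u‖ ≤ ρ
    · have h1 : M = ρ := max_eq_right h
      rw [h1]
      have h2 : Real.log (ρ⁻¹ * ‖z - u‖) ≤ 0 := by
        apply Real.log_nonpos (by positivity)
        rw [inv_mul_le_iff₀ hρ0, mul_one]
        exact h
      rw [max_eq_left h2, add_zero]
    · push Not at h
      have h1 : M = ‖z - u‖ := max_eq_left h.le
      rw [h1]
      have h3 : 0 < ‖z - u‖ := hρ0.trans h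
      have h2 : 0 ≤ Real.log (ρ⁻¹ * ‖z - u‖) := by
        apply Real.log_nonneg
        rw [le_inv_mul_iff₀ hρ0, mul_one]
        exact h.le
      rw [max_eq_right h2, Real.log_mul (inv_ne_zero hρ0.ne') h3.ne', Real.log_inv]
      ring
  rw [hlogM]
  have hu1 : u ∈ ball (0:ℂ) 1 := ball_subset_ball hR1.le hu
  have hun : ‖u‖ < 1 := hu'.trans hR1
  -- comparison with the unit disc
  have hid1 := normSq_identity 1 u z
  have hidR := normSq_identity R u z
  simp only [Complex.ofReal_one, one_pow, one_mul] at hid1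
  set q := ‖1 - conj u * z‖ ^ 2 with hq
  set pp := ‖z - u‖ ^ 2 with hp
  have hpos1 : 0 < (1 - ‖u‖ ^ 2) * (1 - ‖z‖ ^ 2) := by
    apply mul_pos <;> nlinarith [norm_nonneg u, norm_nonneg z]
  have hq0 : 0 < q := by rw [hid1]; nlinarith [sq_nonneg ‖z - u‖]
  have hcmp : ‖(R:ℂ) ^ 2 - conj u * z‖ ^ 2 ≤ R ^ 2 * q := by
    rw [hidR, hid1]
    -- (R² - a)(R² - b) ≤ R² (1 - a)(1 - b)  with a, b ≤ R² ≤ 1
    have ha : ‖u‖ ^ 2 ≤ R ^ 2 := by nlinarith [norm_nonneg u]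
    have hb : ‖z‖ ^ 2 ≤ R ^ 2 := by nlinarith [norm_nonneg z]
    have ha0 : 0 ≤ ‖u‖ ^ 2 := by positivity
    have hb0 : 0 ≤ ‖z‖ ^ 2 := by positivity
    have hR2 : R ^ 2 ≤ 1 := by nlinarith
    have hR20 : 0 < R ^ 2 := by positivity
    have key : R ^ 2 * ((1 - ‖u‖ ^ 2) * (1 - ‖z‖ ^ 2)) - (R ^ 2 - ‖u‖ ^ 2) * (R ^ 2 - ‖z‖ ^ 2) =
        (1 - R ^ 2) * (R ^ 2 - ‖u‖ ^ 2 * ‖z‖ ^ 2) := by ring
    have h3 : ‖u‖ ^ 2 * ‖z‖ ^ 2 ≤ R ^ 2 := by
      calc ‖u‖ ^ 2 * ‖z‖ ^ 2 ≤ R ^ 2 * 1 := by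
            apply mul_le_mul ha _ hb0 hR20.le
            exact hb.trans hR2
        _ = R ^ 2 := mul_one _
    have h4 : 0 ≤ (1 - R ^ 2) * (R ^ 2 - ‖u‖ ^ 2 * ‖z‖ ^ 2) :=
      mul_nonneg (by linarith) (by linarith)
    nlinarith
  have hN0 : 0 < ‖(R:ℂ) ^ 2 - conj u * z‖ := by
    have h1 : 0 < ‖(R:ℂ) ^ 2 - conj u * z‖ ^ 2 := by
      rw [hidR]
      have : 0 < (R ^ 2 - ‖u‖ ^ 2) * (R ^ 2 - ‖z‖ ^ 2) := by
        apply mul_pos <;> nlinarith [norm_nonneg u, norm_nonneg z]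
      nlinarith [sq_nonneg ‖z - u‖, sq_nonneg R]
    rcases (norm_nonneg ((R:ℂ) ^ 2 - conj u * z)).eq_or_lt with h | h
    · rw [← h] at h1; norm_num at h1
    · exact h
  have hstep : Real.log ‖(R:ℂ) ^ 2 - conj u * z‖ - Real.log R - Real.log M ≤
      (1 / 2) * Real.log (q / M ^ 2) := by
    have h1 : Real.log (‖(R:ℂ) ^ 2 - conj u * z‖ ^ 2) ≤ Real.log (R ^ 2 * q) :=
      Real.log_le_log (by positivity) hcmp
    rw [Real.log_pow ‖(R:ℂ) ^ 2 - conj u * z‖ 2, Real.log_mul (by positivity) hq0.ne',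
      Real.log_pow R 2] at h1
    rw [Real.log_div hq0.ne' (by positivity), Real.log_pow M 2]
    push_cast at h1 ⊢
    linarith
  refine hstep.trans ?_
  have hM2 : 0 < M ^ 2 := by positivity
  have h5 : Real.log (q / M ^ 2) ≤ q / M ^ 2 - 1 := Real.log_le_sub_one_of_pos (by positivity)
  have hpM : pp ≤ M ^ 2 := by
    rw [hp]
    exact pow_le_pow_left₀ (norm_nonneg _) (le_max_left _ _) 2
  have hqM : q ≤ 81 * M ^ 2 := by
    have h6 : 1 - ‖z‖ ^ 2 ≤ 8 * M := by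
      have h61 : 1 - ‖z‖ = 4 * ρ := by rw [hρ]; ring
      have h7 : ρ ≤ M := le_max_right _ _
      have h62 : 1 - ‖z‖ ^ 2 = (1 - ‖z‖) * (1 + ‖z‖) := by ring
      rw [h62, h61]
      calc 4 * ρ * (1 + ‖z‖) ≤ 4 * ρ * 2 := by
            apply mul_le_mul_of_nonneg_left _ (by positivity)
            linarith
        _ ≤ 8 * M := by linarith
    have h8 : 1 - ‖u‖ ^ 2 ≤ 10 * M := by
      have h9 : ‖z‖ ≤ ‖z - u‖ + ‖u‖ := by
        calc ‖z‖ = ‖(z - u) + u‖ := by rw [sub_add_cancel]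
          _ ≤ _ := norm_add_le _ _
      have h10 : ‖z - u‖ ≤ M := le_max_left _ _
      have h11 : ‖z‖ ^ 2 - ‖u‖ ^ 2 ≤ 2 * M := by
        have h111 : 0 ≤ (M - (‖z‖ - ‖u‖)) * (‖z‖ + ‖u‖) :=
          mul_nonneg (by linarith) (by positivity)
        have h112 : 0 ≤ M * (2 - ‖z‖ - ‖u‖) := mul_nonneg hM0.le (by linarith)
        linarith
      linarith
    have h12 : (1 - ‖u‖ ^ 2) * (1 - ‖z‖ ^ 2) ≤ (10 * M) * (8 * M) := by
      apply mul_le_mul h8 h6 _ (by positivity)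
      have h121 : 1 - ‖z‖ ^ 2 = (1 - ‖z‖) * (1 + ‖z‖) := by ring
      rw [h121]
      exact mul_nonneg (by linarith) (by positivity)
    rw [hid1]
    linarith
  have h13 : q / M ^ 2 - 1 ≤ (q - pp) / M ^ 2 := by
    rw [sub_div]
    have : pp / M ^ 2 ≤ 1 := by rw [div_le_one hM2]; exact hpM
    linarith
  have h14 : (q - pp) / M ^ 2 ≤ 81 * ((q - pp) / q) := by
    have h15 : 0 ≤ q - pp := by rw [hid1]; linarith
    rw [← mul_div_assoc, div_le_div_iff₀ hM2 hq0]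
    calc (q - pp) * q ≤ (q - pp) * (81 * M ^ 2) := mul_le_mul_of_nonneg_left hqM h15
      _ = 81 * (q - pp) * M ^ 2 := by ring
  have h16 : (q - pp) / q ≤ (1 - ‖u‖ ^ 2) * (bk u z).re := by
    have h17 := bk_lower_right hu1 hz1
    have h18 : q - pp = (1 - ‖u‖ ^ 2) * (1 - ‖z‖ ^ 2) := by rw [hid1]; ring
    rw [h18, mul_div_assoc]
    apply mul_le_mul_of_nonneg_left h17
    have h171 : 1 - ‖u‖ ^ 2 = (1 - ‖u‖) * (1 + ‖u‖) := by ring
    rw [h171]
    exact mul_nonneg (by linarith) (by positivity)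
  have h19 : 0 ≤ (1 - ‖u‖ ^ 2) * (bk u z).re := by
    apply mul_nonneg _ (re_bk_nonneg hu1 hz1)
    have h171 : 1 - ‖u‖ ^ 2 = (1 - ‖u‖) * (1 + ‖u‖) := by ring
    rw [h171]
    exact mul_nonneg (by linarith) (by positivity)
  linarith

end Pool.Agent.Lib.P6e0919
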