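import Mathlib
import Pool.Agent.Lib.P6e0919.CircleLower

open Complex Metric Real Filter Topology MeromorphicOn MeasureTheory
open scoped ComplexConjugate

namespace Pool.Agent.Lib.P6e0919

lemma isConnected_ball1 : IsConnected (ball (0:ℂ) 1) :=
  ⟨⟨0, mem_ball_self one_pos⟩, (convex_ball _ _).isPreconnected⟩

lemma ne_zero_codiscrete {g : ℂ → ℂ} (hd : DifferentiableOn ℂ g (ball 0 1))
    (hne : ∃ z ∈ ball (0:ℂ) 1, g z ≠ 0) {s : Set ℂ} (hs : s ⊆ ball (0:ℂ) 1) :
    ∀ᶠ ζ in codiscreteWithin s, g ζ ≠ 0 := by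
  obtain ⟨z0, hz0, hgz0⟩ := hne
  exact Filter.codiscreteWithin_mono hs
    ((hd.analyticOnNhd isOpen_ball).preimage_zero_mem_codiscreteWithin hgz0 hz0 isConnected_ball1)

/-- Circle means of `log ‖g‖` over hyperbolic circles have a minorant of the form `-Re V`. -/
theorem circle_lower {g : ℂ → ℂ} (hg : IsNev g) (hne : ∃ z ∈ ball (0:ℂ) 1, g z ≠ 0) :
    ∃ V : ℂ → ℂ, PR V ∧ ∀ z ∈ ball (0:ℂ) 1,
      -(V z).re ≤ circleAverage (fun w => Real.log ‖g w‖) z ((1 - ‖z‖) / 4) := by
  obtain ⟨F, hF, hgF⟩ := hg.exists_majorant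
  have hd := hg.1
  have han : AnalyticOnNhd ℂ g (ball 0 1) := hd.analyticOnNhd isOpen_ball
  set φ : ℂ → ℝ := fun z => Real.log ‖g z‖ with hφ
  have hφF : ∀ z ∈ ball (0:ℂ) 1, φ z ≤ (F z).re := by
    intro z hz
    by_cases h0 : g z = 0
    · simp only [hφ, h0, norm_zero, Real.log_zero]; exact hF.2 z hz
    · simp only [hφ]
      rw [Real.log_le_iff_le_exp (norm_pos_iff.2 h0)]
      exact hgF z hz
  have hint : ∀ r ∈ Set.Ioo (0:ℝ) 1, CircleIntegrable φ 0 r := fun r hr => circleIntegrable_log hd hr
  have hmono : ∀ r ∈ Set.Ioo (0:ℝ) 1, ∀ s ∈ Set.Ioo (0:ℝ) r,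
      ∀ᶠ ζ in codiscreteWithin (sphere (0:ℂ) |s|), φ ζ ≤ (Hg φ r ζ).re := by
    intro r hr s hs
    rw [abs_of_pos hs.1]
    filter_upwards [ne_zero_codiscrete hd hne (sphere_subset_closedBall.trans
      (closedBall_subset_ball (hs.2.trans hr.2))), self_mem_codiscreteWithin _] with ζ h1 h2
    have hζ : ζ ∈ ball (0:ℂ) r := by
      rw [mem_sphere_zero_iff_norm] at h2
      rw [mem_ball_zero_iff, h2]; exact hs.2
    rw [re_Hg (hint r hr) hζ]
    exact log_norm_le_poisson hr.1 (analyticOnNhd_closedBall hd hr.2) hζ h1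
  have hM : ∀ r ∈ Set.Ioo (0:ℝ) 1, circleAverage φ 0 r ≤ (F 0).re := by
    intro r hr
    rw [← mean_re isOpen_ball hF.1 hr.1.le (closedBall_subset_ball hr.2)]
    apply circleAverage_mono (hint r hr) (circleIntegrable_re hF.1 hr)
    intro ζ hζ
    rw [abs_of_pos hr.1] at hζ
    exact hφF ζ (closedBall_subset_ball hr.2 (sphere_subset_closedBall hζ))
  obtain ⟨H, hH1, hH2, hH3⟩ := exists_limit hint hmono hM
  -- `Re H ≤ Re F`
  have hHF : ∀ z ∈ ball (0:ℂ) 1, (H z).re ≤ (F z).re := by
    intro z hz
    have h1 : Tendsto (fun n => (Hg φ (rad n) z).re) atTop (𝓝 (H z).re) :=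
      (Complex.continuous_re.tendsto _).comp (hH2 z hz)
    refine le_of_tendsto h1 ?_
    have hz1 : ‖z‖ < 1 := by simpa using hz
    obtain ⟨N, hN⟩ := exists_rad_gt hz1
    filter_upwards [Filter.eventually_ge_atTop N] with n hn
    have hzn : z ∈ ball (0:ℂ) (rad n) := by simpa using hN n hn
    have hr := rad_mem n
    rw [re_Hg (hint _ hr) hzn, ← poisson_re hF.1 hr.2 hzn]
    apply circleAverage_poisson_mono (hint _ hr) (circleIntegrable_re hF.1 hr) _ hzn
    filter_upwards [self_mem_codiscreteWithin _] with ζ hζ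
    rw [abs_of_pos hr.1] at hζ
    exact hφF ζ (closedBall_subset_ball hr.2 (sphere_subset_closedBall hζ))
  set D : ℂ → ℝ := fun u => (divisor g (ball 0 1) u : ℝ) with hD
  have hD0 : ∀ u, 0 ≤ D u := by
    intro u
    have : 0 ≤ divisor g (ball 0 1) u := (MeromorphicOn.AnalyticOnNhd.divisor_nonneg han) u
    simp only [hD]
    exact_mod_cast this
  have hDout : ∀ u ∉ ball (0:ℂ) 1, D u = 0 := by
    intro u hu
    simp only [hD]
    rw [Function.locallyFinsuppWithin.apply_eq_zero_of_notMem _ hu]; simp
  set m : ℂ → ℝ := fun u => D u * (1 - ‖u‖ ^ 2) with hm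
  have hms : Summable m := blaschke hg
  have hm0 : ∀ u, 0 ≤ m u := by
    intro u
    by_cases hu : u ∈ ball (0:ℂ) 1
    · have h1 : ‖u‖ < 1 := by simpa using hu
      apply mul_nonneg (hD0 u)
      nlinarith [norm_nonneg u]
    · simp only [hm, hDout u hu, zero_mul, le_refl]
  have hmp : ∀ u : ℂ, m u ≠ 0 → (id u) ∈ ball (0:ℂ) 1 := by
    intro u hu
    by_contra hcon
    exact hu (by simp only [hm, hDout u hcon, zero_mul])
  have hKS := PR_KS (p := id) hmp hm0 hms
  refine ⟨fun z => (F z - H z) + ((41:ℝ) : ℂ) * KS id m z, ?_, ?_⟩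
  · apply PR.add _ (hKS.const_mul (by norm_num))
    exact ⟨hF.1.sub hH1, fun z hz => by rw [sub_re]; linarith [hHF z hz]⟩
  · intro z hz
    have hz1 : ‖z‖ < 1 := by simpa using hz
    set ρ := (1 - ‖z‖) / 4 with hρ
    have hρ0 : 0 < ρ := by rw [hρ]; linarith
    have key : ∀ᶠ n in atTop, (Hg φ (rad n) z).re - 41 * (KS id m z).re ≤
        circleAverage φ z ρ := by
      obtain ⟨N, hN⟩ := exists_rad_gt (ρ := ‖z‖ + ρ) (by rw [hρ]; linarith)
      filter_upwards [Filter.eventually_ge_atTop N] with n hn
      have hr := rad_mem n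
      set R := rad n with hR
      have hcl : closedBall z ρ ⊆ ball (0:ℂ) R := by
        intro w hw
        rw [mem_closedBall, dist_eq_norm] at hw
        rw [mem_ball_zero_iff]
        calc ‖w‖ = ‖z + (w - z)‖ := by rw [add_sub_cancel]
          _ ≤ ‖z‖ + ‖w - z‖ := norm_add_le _ _
          _ ≤ ‖z‖ + ρ := by linarith
          _ < R := hN n hn
      have hdivR : ∀ u ∈ ball (0:ℂ) R, (divisor g (ball 0 R) u : ℝ) = D u := by
        intro u hu
        have hu1 : u ∈ ball (0:ℂ) 1 := ball_subset_ball hr.2.le hu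
        simp only [hD]
        rw [divisor_apply (han.mono (ball_subset_ball hr.2.le)).meromorphicOn hu,
          divisor_apply han.meromorphicOn hu1]
      have hfin : (Function.support (fun u => (divisor g (ball 0 R) u : ℝ))).Finite := by
        have : (divisor g (ball (0:ℂ) R)).support.Finite :=
          (analyticOnNhd_closedBall hd hr.2).meromorphicOn.divisor_ball_support_finite
        apply this.subset
        intro u hu
        simpa using hu
      set t := hfin.toFinset with ht
      have htR : ∀ u ∈ t, u ∈ ball (0:ℂ) R := by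
        intro u hu
        by_contra hcon
        rw [ht, Set.Finite.mem_toFinset, Function.mem_support] at hu
        apply hu
        rw [Function.locallyFinsuppWithin.apply_eq_zero_of_notMem _ hcon]; simp
      have hsum : ∀ f : ℂ → ℝ, ∑ᶠ u, (divisor g (ball 0 R) u : ℝ) * f u =
          ∑ u ∈ t, D u * f u := by
        intro f
        rw [finsum_eq_sum_of_support_subset (s := t)]
        · apply Finset.sum_congr rfl
          intro u hu
          rw [hdivR u (htR u hu)]
        · intro u hu
          rw [ht, Set.Finite.coe_toFinset, Function.mem_support]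
          intro h0
          exact hu (by simp only [h0, zero_mul])
      have hi1 : CircleIntegrable (fun w => (Hg φ R w).re) z ρ := by
        apply ContinuousOn.circleIntegrable hρ0.le
        apply Complex.continuous_re.comp_continuousOn
        exact (differentiableOn_Hg (hint R hr)).continuousOn.mono (sphere_subset_closedBall.trans hcl)
      have hi2 : ∀ u, CircleIntegrable (fun w => Real.log ‖canonicalFactor R u w‖) z ρ := by
        intro u
        apply MeromorphicOn.circleIntegrable_log_norm
        intro w _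
        exact meromorphic_canonicalFactor R u w
      have hi3 : ∀ u ∈ t, CircleIntegrable (D u • fun w => Real.log ‖canonicalFactor R u w‖) z ρ :=
        fun u _ => (hi2 u).const_smul
      have e1 : circleAverage φ z ρ = circleAverage ((fun w => (Hg φ R w).re) -
          ∑ u ∈ t, (D u • fun w => Real.log ‖canonicalFactor R u w‖)) z ρ := by
        apply circleAverage_congr_codiscreteWithin _ hρ0.ne'
        rw [abs_of_pos hρ0]
        filter_upwards [ne_zero_codiscrete hd hne (sphere_subset_closedBall.trans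
          (hcl.trans (ball_subset_ball hr.2.le))), self_mem_codiscreteWithin _] with w h1 h2
        have hwR : w ∈ ball (0:ℂ) R := hcl (sphere_subset_closedBall h2)
        simp only [hφ]
        rw [poisson_jensen hr.1 (analyticOnNhd_closedBall hd hr.2) hwR h1, hsum]
        simp only [Pi.sub_apply, Finset.sum_apply, Pi.smul_apply, smul_eq_mul]
        rw [re_Hg (hint R hr) hwR]
        rfl
      rw [e1, circleAverage_sub hi1 (CircleIntegrable.sum t hi3), circleAverage_sum hi3,
        mean_re isOpen_ball (differentiableOn_Hg (hint R hr)) hρ0.le hcl]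
      have e2 : ∑ u ∈ t, circleAverage (D u • fun w => Real.log ‖canonicalFactor R u w‖) z ρ ≤
          41 * (KS id m z).re := by
        have h3 : ∀ u ∈ t, circleAverage (D u • fun w => Real.log ‖canonicalFactor R u w‖) z ρ ≤
            41 * (m u * (bk (id u) z).re) := by
          intro u hu
          rw [circleAverage_smul, smul_eq_mul]
          have h4 := mean_estimate hr.2 (htR u hu) hcl hz
          calc D u * circleAverage (fun w => Real.log ‖canonicalFactor R u w‖) z ρ ≤
              D u * (41 * ((1 - ‖u‖ ^ 2) * (bk u z).re)) := mul_le_mul_of_nonneg_left h4 (hD0 u)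
            _ = 41 * (m u * (bk (id u) z).re) := by simp only [hm, id_eq]; ring
        refine (Finset.sum_le_sum h3).trans ?_
        rw [← Finset.mul_sum]
        exact mul_le_mul_of_nonneg_left (sum_le_re_KS hmp hm0 hms hz t) (by norm_num)
      linarith
    have h1 : Tendsto (fun n => (Hg φ (rad n) z).re - 41 * (KS id m z).re) atTop
        (𝓝 ((H z).re - 41 * (KS id m z).re)) :=
      ((Complex.continuous_re.tendsto _).comp (hH2 z hz)).sub_const _
    have h2 := le_of_tendsto h1 key
    have h3 : ((F z - H z) + ((41:ℝ) : ℂ) * KS id m z).re =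
        (F z).re - (H z).re + 41 * (KS id m z).re := by
      rw [add_re, sub_re, re_ofReal_mul]
    simp only [h3]
    linarith [hF.2 z hz]

end Pool.Agent.Lib.P6e0919
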