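import Mathlib
import Pool.Agent.Lib.P6e0919.CircleLower2

open Complex Metric Real Filter Topology MeasureTheory
open scoped ComplexConjugate ENNReal

namespace Pool.Agent.Lib.P6e0919

/-- a point on the circle where `g` is large -/
theorem exists_large {g : ℂ → ℂ} (hg : IsNev g) (hne : ∃ z ∈ ball (0:ℂ) 1, g z ≠ 0) :
    ∃ V : ℂ → ℂ, PR V ∧ ∀ z ∈ ball (0:ℂ) 1, ∃ w ∈ sphere z ((1 - ‖z‖) / 4),
      Real.exp (-(V z).re) ≤ ‖g w‖ := by
  obtain ⟨V, hV, hVz⟩ := circle_lower hg hne
  refine ⟨fun z => V z + ((1:ℝ) : ℂ), hV.add (PR_const zero_le_one), fun z hz => ?_⟩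
  have hz1 : ‖z‖ < 1 := by simpa using hz
  set ρ := (1 - ‖z‖) / 4 with hρ
  have hρ0 : 0 < ρ := by rw [hρ]; linarith
  by_contra hcon
  push Not at hcon
  have hsub : sphere z ρ ⊆ ball (0:ℂ) 1 := by
    intro w hw
    rw [mem_sphere, dist_eq_norm] at hw
    rw [mem_ball_zero_iff]
    calc ‖w‖ = ‖z + (w - z)‖ := by rw [add_sub_cancel]
      _ ≤ ‖z‖ + ‖w - z‖ := norm_add_le _ _
      _ < 1 := by rw [hw, hρ]; linarith
  have h1 : circleAverage (fun w => Real.log ‖g w‖) z ρ =
      circleAverage (fun w => min (Real.log ‖g w‖) (-((V z).re + 1))) z ρ := by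
    apply circleAverage_congr_codiscreteWithin _ hρ0.ne'
    rw [abs_of_pos hρ0]
    filter_upwards [ne_zero_codiscrete hg.1 hne hsub, self_mem_codiscreteWithin _] with w h1 h2
    rw [min_eq_left]
    have h3 := hcon w h2
    have h4 := Real.log_le_log (norm_pos_iff.2 h1) h3.le
    rw [Real.log_exp] at h4
    simpa using h4
  have hi : CircleIntegrable (fun w => Real.log ‖g w‖) z ρ := by
    apply MeromorphicOn.circleIntegrable_log_norm
    apply AnalyticOnNhd.meromorphicOn
    rw [abs_of_pos hρ0]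
    exact (hg.1.analyticOnNhd isOpen_ball).mono hsub
  have hi2 : CircleIntegrable (fun w => min (Real.log ‖g w‖) (-((V z).re + 1))) z ρ := by
    have hi3 : CircleIntegrable (fun _ : ℂ => (-((V z).re + 1))) z ρ := circleIntegrable_const _ _ _
    simp only [CircleIntegrable, intervalIntegrable_iff] at hi hi3 ⊢
    exact Integrable.inf hi hi3
  have h2 : circleAverage (fun w => min (Real.log ‖g w‖) (-((V z).re + 1))) z ρ ≤
      -((V z).re + 1) := by
    apply circleAverage_mono_on_of_le_circle hi2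
    intro w _
    exact min_le_right _ _
  have h3 := hVz z hz
  rw [h1] at h3
  linarith

/-- sub-mean value property over circles for `‖h‖²` -/
lemma sq_norm_le_circleAverage {h : ℂ → ℂ} {U : Set ℂ} (hU : IsOpen U)
    (hh : DifferentiableOn ℂ h U) {z : ℂ} {r : ℝ} (hr : 0 < r) (hsub : closedBall z r ⊆ U) :
    ‖h z‖ ^ 2 ≤ circleAverage (fun w => ‖h w‖ ^ 2) z r := by
  have hi : CircleIntegrable (fun w => ‖h w‖ ^ 2) z r := by
    apply ContinuousOn.circleIntegrable hr.le
    exact ((hh.continuousOn.mono (sphere_subset_closedBall.trans hsub)).norm.pow 2)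
  by_cases h0 : h z = 0
  · rw [h0]
    simp only [norm_zero, ne_eq, OfNat.ofNat_ne_zero, not_false_eq_true, zero_pow]
    apply circleAverage_nonneg_of_nonneg
    intro w _; positivity
  · have hpos : 0 < ‖h z‖ ^ 2 := by positivity
    have h1 := mean_re hU (F := fun w => (conj (h z)) ^ 2 * (h w) ^ 2)
      ((hh.pow 2).const_mul _) (c := z) hr.le hsub
    have h2 : ((conj (h z)) ^ 2 * (h z) ^ 2).re = ‖h z‖ ^ 2 * ‖h z‖ ^ 2 := by
      have : (conj (h z)) ^ 2 * (h z) ^ 2 = ((‖h z‖ ^ 2 * ‖h z‖ ^ 2 : ℝ) : ℂ) := by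
        have e : conj (h z) * h z = ((‖h z‖ ^ 2 : ℝ) : ℂ) := by
          rw [← Complex.normSq_eq_norm_sq, Complex.normSq_eq_conj_mul_self]
        calc (conj (h z)) ^ 2 * (h z) ^ 2 = (conj (h z) * h z) * (conj (h z) * h z) := by ring
          _ = _ := by rw [e]; push_cast; ring
      rw [this, Complex.ofReal_re]
    simp only [h2] at h1
    have h3 : circleAverage (fun ζ => ((conj (h z)) ^ 2 * (h ζ) ^ 2).re) z r ≤
        circleAverage (‖h z‖ ^ 2 • (fun w => ‖h w‖ ^ 2)) z r := by
      apply circleAverage_mono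
      · apply ContinuousOn.circleIntegrable hr.le
        apply Complex.continuous_re.comp_continuousOn
        exact continuousOn_const.mul
          ((hh.continuousOn.mono (sphere_subset_closedBall.trans hsub)).pow 2)
      · exact hi.const_smul
      · intro w _
        simp only [Pi.smul_apply, smul_eq_mul]
        refine (Complex.re_le_norm _).trans ?_
        rw [norm_mul, norm_pow, norm_pow, RCLike.norm_conj]
    rw [h1, circleAverage_smul, smul_eq_mul] at h3
    exact le_of_mul_le_mul_left h3 hpos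

lemma circle_lintegral {h : ℂ → ℂ} {U : Set ℂ} (hU : IsOpen U)
    (hh : DifferentiableOn ℂ h U) {z : ℂ} {r : ℝ} (hr : 0 < r) (hsub : closedBall z r ⊆ U) :
    ENNReal.ofReal (2 * π * ‖h z‖ ^ 2) ≤
      ∫⁻ θ in Set.Ioo (-π) π, ENNReal.ofReal (‖h (circleMap z r θ)‖ ^ 2) := by
  have h1 := sq_norm_le_circleAverage hU hh hr hsub
  have hc : Continuous (fun θ : ℝ => ‖h (circleMap z r θ)‖ ^ 2) := by
    have : Continuous (fun θ : ℝ => h (circleMap z r θ)) := by
      apply hh.continuousOn.comp_continuous (continuous_circleMap z r)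
      intro θ
      exact hsub (sphere_subset_closedBall (circleMap_mem_sphere z hr.le θ))
    exact this.norm.pow 2
  rw [circleAverage_eq_integral_add (-π), smul_eq_mul] at h1
  have h2 : ∫ θ in (0:ℝ)..2 * π, ‖h (circleMap z r (θ + -π))‖ ^ 2 =
      ∫ θ in Set.Ioo (-π) π, ‖h (circleMap z r θ)‖ ^ 2 := by
    rw [intervalIntegral.integral_comp_add_right (fun θ => ‖h (circleMap z r θ)‖ ^ 2) (-π),
      intervalIntegral.integral_of_le (by linarith [Real.pi_pos]),
      integral_Ioc_eq_integral_Ioo]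
    congr 3 <;> ring
  rw [h2] at h1
  rw [← ofReal_integral_eq_lintegral_ofReal]
  · apply ENNReal.ofReal_le_ofReal
    have hpi := Real.pi_pos
    have h3 : 2 * π * ‖h z‖ ^ 2 ≤ 2 * π * ((2 * π)⁻¹ *
        ∫ θ in Set.Ioo (-π) π, ‖h (circleMap z r θ)‖ ^ 2) := by gcongr
    rwa [← mul_assoc, mul_inv_cancel₀ (by positivity), one_mul] at h3
  · exact (hc.continuousOn.integrableOn_compact isCompact_Icc).mono_set Set.Ioo_subset_Icc_self
  · exact Eventually.of_forall (fun θ => by positivity)

/-- area version of the sub-mean value property -/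
theorem area_subMean {h : ℂ → ℂ} {z : ℂ} {ρ : ℝ} (hρ : 0 < ρ)
    (hh : DifferentiableOn ℂ h (ball z ρ)) :
    ENNReal.ofReal (π * ρ ^ 2 * ‖h z‖ ^ 2) ≤
      ∫⁻ w in ball z ρ, ENNReal.ofReal (‖h w‖ ^ 2) := by
  classical
  set G : ℂ → ℝ≥0∞ := (ball (0:ℂ) ρ).piecewise (fun u => ENNReal.ofReal (‖h (z + u)‖ ^ 2))
    (fun _ => 0) with hG
  have hGm : Measurable G := by
    apply ContinuousOn.measurable_piecewise _ continuousOn_const isOpen_ball.measurableSet
    apply ENNReal.continuous_ofReal.comp_continuousOn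
    apply ContinuousOn.pow
    apply ContinuousOn.norm
    apply hh.continuousOn.comp (by fun_prop)
    intro u hu
    rw [mem_ball_zero_iff] at hu
    rw [mem_ball, dist_eq_norm]
    simpa using hu
  have h1 : ∫⁻ w in ball z ρ, ENNReal.ofReal (‖h w‖ ^ 2) = ∫⁻ u, G u := by
    rw [← lintegral_indicator isOpen_ball.measurableSet,
      ← lintegral_add_left_eq_self ((ball z ρ).indicator _) z]
    apply lintegral_congr
    intro u
    by_cases hu : u ∈ ball (0:ℂ) ρ
    · have hu' : z + u ∈ ball z ρ := by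
        rw [mem_ball_zero_iff] at hu
        rw [mem_ball, dist_eq_norm]; simpa using hu
      rw [Set.indicator_of_mem hu', hG, Set.piecewise_eq_of_mem _ _ _ hu]
    · have hu' : z + u ∉ ball z ρ := by
        rw [mem_ball_zero_iff] at hu
        rw [mem_ball, dist_eq_norm]; simpa using hu
      rw [Set.indicator_of_notMem hu', hG, Set.piecewise_eq_of_notMem _ _ _ hu]
  rw [h1, ← Complex.lintegral_comp_polarCoord_symm]
  have hcp : Continuous (fun p : ℝ × ℝ => Complex.polarCoord.symm p) := by
    simp only [Complex.polarCoord_symm_apply]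
    fun_prop
  have hmeas : Measurable (fun p : ℝ × ℝ => ENNReal.ofReal p.1 • G (Complex.polarCoord.symm p)) := by
    simp only [smul_eq_mul]
    exact (ENNReal.measurable_ofReal.comp measurable_fst).mul (hGm.comp hcp.measurable)
  have h2 : ∫⁻ p in Set.Ioo (0:ℝ) ρ ×ˢ Set.Ioo (-π) π,
      ENNReal.ofReal p.1 • G (Complex.polarCoord.symm p) ≤
      ∫⁻ p in polarCoord.target, ENNReal.ofReal p.1 • G (Complex.polarCoord.symm p) := by
    apply lintegral_mono_set
    rw [polarCoord_target]
    intro p hp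
    exact ⟨hp.1.1, hp.2⟩
  refine le_trans ?_ h2
  rw [Measure.volume_eq_prod, ← Measure.prod_restrict, lintegral_prod _ hmeas.aemeasurable]
  have h3 : ∀ r ∈ Set.Ioo (0:ℝ) ρ, ENNReal.ofReal (r * (2 * π * ‖h z‖ ^ 2)) ≤
      ∫⁻ θ in Set.Ioo (-π) π, ENNReal.ofReal r • G (Complex.polarCoord.symm (r, θ)) := by
    intro r hr
    simp only [smul_eq_mul]
    rw [lintegral_const_mul' _ _ ENNReal.ofReal_ne_top, ENNReal.ofReal_mul hr.1.le]
    gcongr
    refine (circle_lintegral isOpen_ball hh hr.1 (closedBall_subset_ball hr.2)).trans ?_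
    apply lintegral_mono
    intro θ
    have h4 : Complex.polarCoord.symm (r, θ) ∈ ball (0:ℂ) ρ := by
      rw [mem_ball_zero_iff, Complex.norm_polarCoord_symm, abs_of_pos hr.1]; exact hr.2
    have h5 : z + Complex.polarCoord.symm (r, θ) = circleMap z r θ := by
      rw [Complex.polarCoord_symm_apply, circleMap, Complex.exp_mul_I]
      push_cast
      ring
    simp only [hG]
    rw [Set.piecewise_eq_of_mem _ _ _ h4, h5]
  refine le_trans ?_ (setLIntegral_mono' measurableSet_Ioo h3)
  rw [← ofReal_integral_eq_lintegral_ofReal]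
  · apply ENNReal.ofReal_le_ofReal
    rw [integral_mul_const, ← integral_Ioc_eq_integral_Ioo,
      ← intervalIntegral.integral_of_le hρ.le, integral_id]
    apply le_of_eq
    ring
  · apply ((continuous_id.mul continuous_const).continuousOn.integrableOn_compact
      isCompact_Icc).mono_set Set.Ioo_subset_Icc_self
  · filter_upwards [ae_restrict_mem measurableSet_Ioo] with r hr
    have := hr.1
    have := Real.pi_pos
    show (0:ℝ) ≤ _
    positivity

end Pool.Agent.Lib.P6e0919
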