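import Mathlib
import Pool.Agent.Lib.P6e0919.SubMean

open Complex Metric Real Filter Topology MeasureTheory
open scoped ComplexConjugate ENNReal

namespace Pool.Agent.Lib.P6e0919

/-- Wronskian -/
noncomputable def Wr (f g : ℂ → ℂ) (z : ℂ) : ℂ := deriv f z * g z - f z * deriv g z

/-- `|f|² + |g|²` -/
noncomputable def SS (f g : ℂ → ℂ) (z : ℂ) : ℝ := ‖f z‖ ^ 2 + ‖g z‖ ^ 2

lemma inner_eq' (z w : ℂ) : inner ℝ z w = (conj z * w).re := by
  rw [Complex.inner, mul_comm]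

/-- algebraic identity and bound for the derivative of the squared chordal distance -/
lemma chord_alg (u v u' v' c : ℂ) (hc : ‖c‖ ≤ 1) :
    |2 * (conj (u + c * v) * (u' + c * v')).re * (‖u‖ ^ 2 + ‖v‖ ^ 2) -
      ‖u + c * v‖ ^ 2 * (2 * (conj u * u').re + 2 * (conj v * v').re)| ≤
      4 * ‖u + c * v‖ * ‖u' * v - u * v'‖ * Real.sqrt (‖u‖ ^ 2 + ‖v‖ ^ 2) := by
  have h1 : 2 * (conj (u + c * v) * (u' + c * v')).re * (‖u‖ ^ 2 + ‖v‖ ^ 2) -
      ‖u + c * v‖ ^ 2 * (2 * (conj u * u').re + 2 * (conj v * v').re) =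
      2 * (conj (u + c * v) * ((u' * v - u * v') * (conj v - c * conj u))).re := by
    simp only [← Complex.normSq_eq_norm_sq, Complex.normSq_apply]
    simp
    ring
  rw [h1, abs_mul, abs_two]
  have h2 : |(conj (u + c * v) * ((u' * v - u * v') * (conj v - c * conj u))).re| ≤
      ‖u + c * v‖ * (‖u' * v - u * v'‖ * ‖conj v - c * conj u‖) := by
    refine (Complex.abs_re_le_norm _).trans ?_
    rw [norm_mul, norm_mul, RCLike.norm_conj]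
  have h3 : ‖conj v - c * conj u‖ ≤ 2 * Real.sqrt (‖u‖ ^ 2 + ‖v‖ ^ 2) := by
    have h4 : ‖u‖ ≤ Real.sqrt (‖u‖ ^ 2 + ‖v‖ ^ 2) := Real.le_sqrt_of_sq_le (by nlinarith [sq_nonneg ‖v‖])
    have h5 : ‖v‖ ≤ Real.sqrt (‖u‖ ^ 2 + ‖v‖ ^ 2) := Real.le_sqrt_of_sq_le (by nlinarith [sq_nonneg ‖u‖])
    calc ‖conj v - c * conj u‖ ≤ ‖conj v‖ + ‖c * conj u‖ := norm_sub_le _ _
      _ = ‖v‖ + ‖c‖ * ‖u‖ := by rw [norm_mul, RCLike.norm_conj, RCLike.norm_conj]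
      _ ≤ ‖v‖ + 1 * ‖u‖ := by gcongr
      _ ≤ _ := by linarith
  calc 2 * |(conj (u + c * v) * ((u' * v - u * v') * (conj v - c * conj u))).re| ≤
      2 * (‖u + c * v‖ * (‖u' * v - u * v'‖ * ‖conj v - c * conj u‖)) := by gcongr
    _ ≤ 2 * (‖u + c * v‖ * (‖u' * v - u * v'‖ * (2 * Real.sqrt (‖u‖ ^ 2 + ‖v‖ ^ 2)))) := by gcongr
    _ = _ := by ring

/-- The chordal distance estimate. -/
theorem chord {f g : ℂ → ℂ} {U : Set ℂ} (hU : IsOpen U) (hconv : Convex ℝ U)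
    (hf : DifferentiableOn ℂ f U) (hg : DifferentiableOn ℂ g U)
    {c : ℂ} (hc : ‖c‖ ≤ 1) {l w : ℂ} (hl : l ∈ U) (hw : w ∈ U) (h0 : f l + c * g l = 0)
    (hS : ∀ z ∈ U, 0 < SS f g z) {σ : ℝ} (hσ : ∀ z ∈ U, ‖Wr f g z‖ / SS f g z ≤ σ) :
    ‖f w + c * g w‖ ≤ 2 * Real.sqrt (SS f g w) * (σ * ‖w - l‖) := by
  set γ : ℝ → ℂ := fun t => l + t * (w - l) with hγ
  have hγU : ∀ t ∈ Set.Icc (0:ℝ) 1, γ t ∈ U := by
    intro t ht
    have := hconv.add_smul_sub_mem hl hw ht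
    simpa [hγ, Complex.real_smul] using this
  have hγd : ∀ t, HasDerivAt γ (w - l) t := by
    intro t
    have h1 : HasDerivAt (fun t : ℝ => (t : ℂ) * (w - l)) (1 * (w - l)) t :=
      (Complex.ofRealCLM.hasDerivAt).mul_const (w - l)
    rw [one_mul] at h1
    exact h1.const_add l
  set d := w - l with hd
  set u : ℝ → ℂ := fun t => f (γ t) with hu
  set v : ℝ → ℂ := fun t => g (γ t) with hv
  have hud : ∀ t ∈ Set.Icc (0:ℝ) 1, HasDerivAt u (deriv f (γ t) * d) t := by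
    intro t ht
    have h1 : HasDerivAt f (deriv f (γ t)) (γ t) :=
      ((hf (γ t) (hγU t ht)).differentiableAt (hU.mem_nhds (hγU t ht))).hasDerivAt
    exact h1.comp_of_eq t (hγd t) rfl
  have hvd : ∀ t ∈ Set.Icc (0:ℝ) 1, HasDerivAt v (deriv g (γ t) * d) t := by
    intro t ht
    have h1 : HasDerivAt g (deriv g (γ t)) (γ t) :=
      ((hg (γ t) (hγU t ht)).differentiableAt (hU.mem_nhds (hγU t ht))).hasDerivAt
    exact h1.comp_of_eq t (hγd t) rfl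
  set a : ℝ → ℝ := fun t => ‖u t + c * v t‖ ^ 2 / (‖u t‖ ^ 2 + ‖v t‖ ^ 2) with ha
  have hSpos : ∀ t ∈ Set.Icc (0:ℝ) 1, 0 < ‖u t‖ ^ 2 + ‖v t‖ ^ 2 := fun t ht => hS _ (hγU t ht)
  set a' : ℝ → ℝ := fun t =>
    (2 * (conj (u t + c * v t) * (deriv f (γ t) * d + c * (deriv g (γ t) * d))).re *
      (‖u t‖ ^ 2 + ‖v t‖ ^ 2) - ‖u t + c * v t‖ ^ 2 *
      (2 * (conj (u t) * (deriv f (γ t) * d)).re + 2 * (conj (v t) * (deriv g (γ t) * d)).re)) /
      (‖u t‖ ^ 2 + ‖v t‖ ^ 2) ^ 2 with ha'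
  have had : ∀ t ∈ Set.Icc (0:ℝ) 1, HasDerivAt a (a' t) t := by
    intro t ht
    have h1 := (hud t ht).norm_sq
    have h2 := (hvd t ht).norm_sq
    have h3 := ((hud t ht).add ((hvd t ht).const_mul c)).norm_sq
    rw [inner_eq'] at h1 h2 h3
    exact h3.div (h1.add h2) (hSpos t ht).ne'
  have ha0 : ∀ t ∈ Set.Icc (0:ℝ) 1, 0 ≤ a t := by
    intro t ht
    exact div_nonneg (by positivity) (hSpos t ht).le
  have hsq : ∀ t ∈ Set.Icc (0:ℝ) 1, Real.sqrt (a t) =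
      ‖u t + c * v t‖ / Real.sqrt (‖u t‖ ^ 2 + ‖v t‖ ^ 2) := by
    intro t ht
    rw [ha]
    simp only
    rw [Real.sqrt_div (by positivity), Real.sqrt_sq (norm_nonneg _)]
  have hab : ∀ t ∈ Set.Icc (0:ℝ) 1, |a' t| ≤ 4 * (σ * ‖d‖) * Real.sqrt (a t) := by
    intro t ht
    have hSt := hSpos t ht
    have h1 := chord_alg (u t) (v t) (deriv f (γ t) * d) (deriv g (γ t) * d) c hc
    have h2 : deriv f (γ t) * d * v t - u t * (deriv g (γ t) * d) = Wr f g (γ t) * d := by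
      simp only [Wr, hu, hv]; ring
    rw [h2, norm_mul] at h1
    have h3 : ‖Wr f g (γ t)‖ ≤ σ * (‖u t‖ ^ 2 + ‖v t‖ ^ 2) := by
      have := hσ _ (hγU t ht)
      rwa [div_le_iff₀ (hS _ (hγU t ht))] at this
    rw [ha']
    simp only
    rw [abs_div, abs_of_pos (by positivity : (0:ℝ) < (‖u t‖ ^ 2 + ‖v t‖ ^ 2) ^ 2), hsq t ht,
      div_le_iff₀ (by positivity)]
    refine h1.trans ?_
    set s := Real.sqrt (‖u t‖ ^ 2 + ‖v t‖ ^ 2) with hs
    have hs0 : 0 < s := Real.sqrt_pos.2 hSt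
    have hs2 : s ^ 2 = ‖u t‖ ^ 2 + ‖v t‖ ^ 2 := Real.sq_sqrt hSt.le
    rw [← hs2] at h3 ⊢
    calc 4 * ‖u t + c * v t‖ * (‖Wr f g (γ t)‖ * ‖d‖) * s ≤
        4 * ‖u t + c * v t‖ * ((σ * s ^ 2) * ‖d‖) * s := by gcongr
      _ = 4 * (σ * ‖d‖) * (‖u t + c * v t‖ / s) * (s ^ 2) ^ 2 := by
        field_simp
  have hσ0 : 0 ≤ σ := le_trans (div_nonneg (norm_nonneg _) (hS l hl).le) (hσ l hl)
  have key : ∀ ε > 0, Real.sqrt (a 1) ≤ ε + 2 * (σ * ‖d‖) := by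
    intro ε hε
    set b : ℝ → ℝ := fun t => Real.sqrt (a t + ε ^ 2) with hb
    have hbpos : ∀ t ∈ Set.Icc (0:ℝ) 1, 0 < a t + ε ^ 2 := fun t ht => by
      have := ha0 t ht
      positivity
    have hbd : ∀ t ∈ Set.Icc (0:ℝ) 1, HasDerivAt b (a' t / (2 * Real.sqrt (a t + ε ^ 2))) t := by
      intro t ht
      exact ((had t ht).add_const (ε ^ 2)).sqrt (hbpos t ht).ne'
    have h1 := norm_image_sub_le_of_norm_deriv_le_segment_01' (f := b)
      (f' := fun t => a' t / (2 * Real.sqrt (a t + ε ^ 2))) (C := 2 * (σ * ‖d‖))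
      (fun t ht => (hbd t ht).hasDerivWithinAt) (fun t ht => by
        have ht' : t ∈ Set.Icc (0:ℝ) 1 := Set.Ico_subset_Icc_self ht
        have h2 := hab t ht'
        have h3 : 0 < Real.sqrt (a t + ε ^ 2) := Real.sqrt_pos.2 (hbpos t ht')
        have h4 : Real.sqrt (a t) ≤ Real.sqrt (a t + ε ^ 2) :=
          Real.sqrt_le_sqrt (by nlinarith [sq_nonneg ε])
        rw [Real.norm_eq_abs, abs_div, abs_of_pos (by positivity : 0 < 2 * Real.sqrt (a t + ε ^ 2)),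
          div_le_iff₀ (by positivity)]
        refine h2.trans ?_
        calc 4 * (σ * ‖d‖) * Real.sqrt (a t) ≤ 4 * (σ * ‖d‖) * Real.sqrt (a t + ε ^ 2) := by gcongr
          _ = _ := by ring)
    have h5 : a 0 = 0 := by
      simp only [ha, hu, hv, hγ]
      simp [h0]
    have h6 : b 0 = ε := by
      simp only [hb]
      rw [h5, zero_add, Real.sqrt_sq hε.le]
    rw [h6, Real.norm_eq_abs] at h1
    have h7 := (abs_le.1 h1).2
    have h8 : Real.sqrt (a 1) ≤ b 1 := Real.sqrt_le_sqrt (by nlinarith [sq_nonneg ε])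
    linarith
  have h1 : Real.sqrt (a 1) ≤ 2 * (σ * ‖d‖) := by
    apply le_of_forall_pos_le_add
    intro ε hε
    have := key ε hε
    linarith
  have h1m : (1:ℝ) ∈ Set.Icc (0:ℝ) 1 := ⟨zero_le_one, le_rfl⟩
  rw [hsq 1 h1m, div_le_iff₀ (Real.sqrt_pos.2 (hSpos 1 h1m))] at h1
  have hγ1 : γ 1 = w := by simp [hγ, hd]
  simp only [hu, hv, hγ1] at h1
  calc ‖f w + c * g w‖ ≤ _ := h1
    _ = 2 * Real.sqrt (SS f g w) * (σ * ‖d‖) := by rw [SS]; ring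

end Pool.Agent.Lib.P6e0919
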