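import Mathlib
import Pool.Agent.Lib.P6e0919.Chord
import Pool.Agent.Lib.P6e0919.Area
import Pool.Agent.Lib.Pdbc030.Cauchy

open Complex Metric Real Filter Topology MeasureTheory MeromorphicOn
open scoped ComplexConjugate ENNReal

namespace Pool.Agent.Lib.P6e0919

/-- Jensen bound for the zeros of a holomorphic function not vanishing at the origin. -/
lemma jensen_zeros {g : ℂ → ℂ} (hd : DifferentiableOn ℂ g (ball 0 1)) {C : ℝ}
    (hC : ∀ r ∈ Set.Ioo (0:ℝ) 1, circleAverage (fun z => Real.log ‖g z‖) 0 r ≤ C)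
    (h0 : g 0 ≠ 0) (t : Finset ℂ) (ht : ∀ u ∈ t, u ∈ ball (0:ℂ) 1 ∧ g u = 0) :
    ∑ u ∈ t, (1 - ‖u‖) ≤ C - Real.log ‖g 0‖ := by
  have h1 := jensen_sum hd hC t
  have han : AnalyticOnNhd ℂ g (ball 0 1) := hd.analyticOnNhd isOpen_ball
  have h0m : (0:ℂ) ∈ ball (0:ℂ) 1 := mem_ball_self one_pos
  rw [(han 0 h0m).meromorphicTrailingCoeffAt_of_ne_zero h0] at h1
  refine (Finset.sum_le_sum (fun u hu => ?_)).trans h1
  obtain ⟨hu1, hu2⟩ := ht u hu
  have hu0 : u ≠ 0 := by rintro rfl; exact h0 hu2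
  have hpos : 0 < ‖u‖ := norm_pos_iff.2 hu0
  have hlt : ‖u‖ < 1 := by simpa using hu1
  have h2 : 1 - ‖u‖ ≤ Real.log ‖u‖⁻¹ := by
    have := Real.log_le_sub_one_of_pos hpos
    rw [Real.log_inv]; linarith
  have h3 : (1:ℝ) ≤ (divisor g (ball 0 1) u : ℝ) := by
    have hfin : meromorphicOrderAt g u ≠ ⊤ := by
      have hcon := (han.meromorphicOn.exists_meromorphicOrderAt_ne_top_iff_forall isConnected_ball1).1
        ⟨⟨0, h0m⟩, by
          rw [(han 0 h0m).meromorphicOrderAt_eq, (han 0 h0m).analyticOrderAt_eq_zero.2 h0]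
          simp⟩
      exact hcon ⟨u, hu1⟩
    have hne : meromorphicOrderAt g u ≠ 0 := by
      rw [(han u hu1).meromorphicOrderAt_eq]
      intro hcon
      have h4 : analyticOrderAt g u = 0 := by
        cases h5 : analyticOrderAt g u with
        | top => rw [h5] at hcon; simp at hcon
        | coe n =>
          rw [h5] at hcon
          simp at hcon
          rw [hcon]; rfl
      exact ((han u hu1).analyticOrderAt_eq_zero.1 h4) hu2
    have hnn : 0 ≤ divisor g (ball 0 1) u := (MeromorphicOn.AnalyticOnNhd.divisor_nonneg han) u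
    have hdne : divisor g (ball 0 1) u ≠ 0 := by
      rw [divisor_apply han.meromorphicOn hu1]
      intro h6
      rw [WithTop.untop₀_eq_zero] at h6
      rcases h6 with h6 | h6
      · exact hne h6
      · exact hfin h6
    have : 1 ≤ divisor g (ball 0 1) u := by omega
    exact_mod_cast this
  calc 1 - ‖u‖ ≤ 1 * Real.log ‖u‖⁻¹ := by rw [one_mul]; exact h2
    _ ≤ (divisor g (ball 0 1) u : ℝ) * Real.log ‖u‖⁻¹ := by
      apply mul_le_mul_of_nonneg_right h3
      linarith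

lemma SS_nonneg (f g : ℂ → ℂ) (z : ℂ) : 0 ≤ SS f g z := by unfold SS; positivity

lemma SS_symm (f g : ℂ → ℂ) (z : ℂ) : SS g f z = SS f g z := by unfold SS; ring

lemma norm_Wr_symm (f g : ℂ → ℂ) (z : ℂ) : ‖Wr g f z‖ = ‖Wr f g z‖ := by
  rw [← norm_neg]; unfold Wr; congr 1; ring

lemma continuousOn_Wr {f g : ℂ → ℂ} (hf : DifferentiableOn ℂ f (ball 0 1))
    (hg : DifferentiableOn ℂ g (ball 0 1)) : ContinuousOn (Wr f g) (ball 0 1) := by
  have h1 : ContinuousOn (deriv f) (ball 0 1) :=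
    (hf.analyticOnNhd isOpen_ball).deriv.continuousOn
  have h2 : ContinuousOn (deriv g) (ball 0 1) :=
    (hg.analyticOnNhd isOpen_ball).deriv.continuousOn
  exact (h1.mul hg.continuousOn).sub (hf.continuousOn.mul h2)

lemma differentiableOn_Wr {f g : ℂ → ℂ} (hf : DifferentiableOn ℂ f (ball 0 1))
    (hg : DifferentiableOn ℂ g (ball 0 1)) : DifferentiableOn ℂ (Wr f g) (ball 0 1) := by
  have h1 : DifferentiableOn ℂ (deriv f) (ball 0 1) :=
    (hf.analyticOnNhd isOpen_ball).deriv.differentiableOn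
  have h2 : DifferentiableOn ℂ (deriv g) (ball 0 1) :=
    (hg.analyticOnNhd isOpen_ball).deriv.differentiableOn
  exact (h1.mul hg).sub (hf.mul h2)

lemma continuousOn_SS {f g : ℂ → ℂ} (hf : DifferentiableOn ℂ f (ball 0 1))
    (hg : DifferentiableOn ℂ g (ball 0 1)) : ContinuousOn (SS f g) (ball 0 1) :=
  (hf.continuousOn.norm.pow 2).add (hg.continuousOn.norm.pow 2)

lemma lintegral_inv_norm (z : ℂ) :
    ∫⁻ w in closedBall (0:ℂ) 2, ENNReal.ofReal ‖z - w‖⁻¹ < ⊤ := by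
  have h := Pool.Agent.Lib.Pdbc030.lintegral_cauchy_le (F := (closedBall (0:ℂ) 2).indicator
    (fun _ => (1:ℂ))) (M := 1) (R := 2) zero_le_one (fun w => by
      by_cases hw : w ∈ closedBall (0:ℂ) 2
      · rw [Set.indicator_of_mem hw]; simp
      · rw [Set.indicator_of_notMem hw]; simp) (fun w hw => by
      rw [Set.indicator_of_notMem]
      simpa using hw) z
  refine lt_of_le_of_lt ?_ (lt_of_le_of_lt h ?_)
  · rw [← lintegral_indicator isClosed_closedBall.measurableSet]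
    apply lintegral_mono
    intro w
    by_cases hw : w ∈ closedBall (0:ℂ) 2
    · simp only [Set.indicator_of_mem hw, norm_one, one_mul, le_refl]
    · simp only [Set.indicator_of_notMem hw, zero_le]
  · apply ENNReal.add_lt_top.2
    exact ⟨ENNReal.ofReal_lt_top, ENNReal.mul_lt_top ENNReal.ofReal_lt_top
      (isCompact_closedBall _ _).measure_lt_top⟩

/-- Counting bound for a pencil. -/
lemma count_bound {f g : ℂ → ℂ} (hf : IsNev f) (hg : IsNev g) :
    ∃ M : ℝ, 0 ≤ M ∧ ∀ c : ℂ, ‖c‖ ≤ 2 → f 0 - c * g 0 ≠ 0 → ∀ U ⊆ ball (0:ℂ) 1,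
      ∑' z : ℂ, (U ∩ {z | f z - c * g z = 0}).indicator (fun z => ENNReal.ofReal (1 - ‖z‖)) z ≤
        ENNReal.ofReal (M + ‖f 0 - c * g 0‖⁻¹) := by
  obtain ⟨F1, hF1, hfF1⟩ := hf.exists_majorant
  obtain ⟨F2, hF2, hgF2⟩ := hg.exists_majorant
  have h0m : (0:ℂ) ∈ ball (0:ℂ) 1 := mem_ball_self one_pos
  refine ⟨(F1 0).re + (F2 0).re + Real.log 3, ?_, ?_⟩
  · have := hF1.2 0 h0m
    have := hF2.2 0 h0m
    have := Real.log_nonneg (by norm_num : (1:ℝ) ≤ 3)
    linarith
  intro c hc h0 U hU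
  set h : ℂ → ℂ := fun z => f z - c * g z with hh
  have hd : DifferentiableOn ℂ h (ball 0 1) := hf.1.sub (hg.1.const_mul c)
  have hF : PR (fun z => (F1 z + F2 z) + ((Real.log 3 : ℝ) : ℂ)) :=
    (hF1.add hF2).add (PR_const (Real.log_nonneg (by norm_num)))
  have hlog : ∀ z ∈ ball (0:ℂ) 1, Real.log ‖h z‖ ≤ (F1 z + F2 z + ((Real.log 3 : ℝ) : ℂ)).re := by
    intro z hz
    by_cases hz0 : h z = 0
    · rw [hz0, norm_zero, Real.log_zero]; exact hF.2 z hz
    · rw [Real.log_le_iff_le_exp (norm_pos_iff.2 hz0)]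
      have e1 : (F1 z + F2 z + ((Real.log 3 : ℝ) : ℂ)).re = (F1 z).re + (F2 z).re + Real.log 3 := by
        rw [add_re, add_re, Complex.ofReal_re]
      rw [e1, Real.exp_add, Real.exp_add, Real.exp_log (by norm_num)]
      have a1 : 1 ≤ Real.exp (F1 z).re := Real.one_le_exp (hF1.2 z hz)
      have a2 : 1 ≤ Real.exp (F2 z).re := Real.one_le_exp (hF2.2 z hz)
      calc ‖h z‖ ≤ ‖f z‖ + ‖c * g z‖ := norm_sub_le _ _
        _ ≤ Real.exp (F1 z).re + 2 * Real.exp (F2 z).re := by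
          rw [norm_mul]
          have := hfF1 z hz
          have := hgF2 z hz
          gcongr
        _ ≤ Real.exp (F1 z).re * Real.exp (F2 z).re * 3 := by nlinarith
  have hC : ∀ r ∈ Set.Ioo (0:ℝ) 1, circleAverage (fun z => Real.log ‖h z‖) 0 r ≤
      (F1 0).re + (F2 0).re + Real.log 3 := by
    intro r hr
    have e2 : (F1 0).re + (F2 0).re + Real.log 3 = (F1 0 + F2 0 + ((Real.log 3 : ℝ) : ℂ)).re := by
      rw [add_re, add_re, Complex.ofReal_re]
    rw [e2, ← mean_re isOpen_ball hF.1 hr.1.le (closedBall_subset_ball hr.2)]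
    apply circleAverage_mono (circleIntegrable_log hd hr) (circleIntegrable_re hF.1 hr)
    intro ζ hζ
    rw [abs_of_pos hr.1] at hζ
    exact hlog ζ (closedBall_subset_ball hr.2 (sphere_subset_closedBall hζ))
  rw [ENNReal.tsum_eq_iSup_sum]
  apply iSup_le
  intro s
  classical
  set t := s.filter (fun z => z ∈ U ∩ {z | f z - c * g z = 0}) with ht
  have e3 : ∑ z ∈ s, (U ∩ {z | f z - c * g z = 0}).indicator
      (fun z => ENNReal.ofReal (1 - ‖z‖)) z = ∑ z ∈ t, ENNReal.ofReal (1 - ‖z‖) := by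
    rw [ht, Finset.sum_filter]
    apply Finset.sum_congr rfl
    intro z _
    by_cases hz : z ∈ U ∩ {z | f z - c * g z = 0}
    · rw [Set.indicator_of_mem hz, if_pos hz]
    · rw [Set.indicator_of_notMem hz, if_neg hz]
  have htm : ∀ u ∈ t, u ∈ ball (0:ℂ) 1 ∧ h u = 0 := by
    intro u hu
    have := (Finset.mem_filter.1 hu).2
    exact ⟨hU this.1, this.2⟩
  rw [e3, ← ENNReal.ofReal_sum_of_nonneg]
  · apply ENNReal.ofReal_le_ofReal
    refine (jensen_zeros hd hC h0 t htm).trans ?_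
    have h1 : - Real.log ‖h 0‖ ≤ ‖h 0‖⁻¹ := by
      rw [← Real.log_inv]
      have := Real.log_le_sub_one_of_pos (inv_pos.2 (norm_pos_iff.2 h0))
      linarith
    have h2 : h 0 = f 0 - c * g 0 := rfl
    rw [h2] at h1 ⊢
    linarith
  · intro u hu
    have := (htm u hu).1
    rw [mem_ball_zero_iff] at this
    linarith

lemma isOpen_part {f g : ℂ → ℂ} (hf : DifferentiableOn ℂ f (ball 0 1))
    (hg : DifferentiableOn ℂ g (ball 0 1)) (k : ℝ) :
    IsOpen {z | z ∈ ball (0:ℂ) 1 ∧ ‖f z‖ < k * ‖g z‖ ∧ Wr f g z ≠ 0} := by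
  have h1 : ContinuousOn (fun z => (‖f z‖ - k * ‖g z‖, Wr f g z)) (ball 0 1) :=
    (hf.continuousOn.norm.sub (continuousOn_const.mul hg.continuousOn.norm)).prodMk
      (continuousOn_Wr hf hg)
  have h2 := h1.isOpen_inter_preimage isOpen_ball
    (isOpen_Iio.prod (isOpen_compl_singleton (x := (0:ℂ))) : IsOpen (Set.Iio (0:ℝ) ×ˢ {(0:ℂ)}ᶜ))
  convert h2 using 1
  ext z
  constructor
  · rintro ⟨hz1, hz2, hz3⟩
    exact ⟨hz1, by simpa using hz2, hz3⟩
  · rintro ⟨hz1, hz2, hz3⟩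
    exact ⟨hz1, by simpa using hz2, hz3⟩

lemma quot_strictDeriv {f g : ℂ → ℂ} (hf : DifferentiableOn ℂ f (ball 0 1))
    (hg : DifferentiableOn ℂ g (ball 0 1)) {z : ℂ} (hz : z ∈ ball (0:ℂ) 1) (hgz : g z ≠ 0) :
    HasStrictDerivAt (fun z => f z / g z) (Wr f g z / (g z) ^ 2) z := by
  have h1 := ((hf.analyticOnNhd isOpen_ball) z hz).hasStrictDerivAt
  have h2 := ((hg.analyticOnNhd isOpen_ball) z hz).hasStrictDerivAt
  exact h1.div h2 hgz

/-- One half of the energy estimate. -/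
lemma half_energy {f g : ℂ → ℂ} (hf : IsNev f) (hg : IsNev g) (h0 : f 0 ≠ 0 ∨ g 0 ≠ 0) :
    ∫⁻ z in {z | z ∈ ball (0:ℂ) 1 ∧ ‖f z‖ < 2 * ‖g z‖ ∧ Wr f g z ≠ 0},
      ENNReal.ofReal ((1 - ‖z‖) * (‖Wr f g z‖ ^ 2 / SS f g z ^ 2)) < ⊤ := by
  obtain ⟨M, hM0, hM⟩ := count_bound hf hg
  set U : Set ℂ := {z | z ∈ ball (0:ℂ) 1 ∧ ‖f z‖ < 2 * ‖g z‖ ∧ Wr f g z ≠ 0} with hU
  have hUo : IsOpen U := isOpen_part hf.1 hg.1 2
  have hgU : ∀ z ∈ U, g z ≠ 0 := by
    rintro z ⟨_, h2, _⟩ h3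
    rw [h3, norm_zero, mul_zero] at h2
    exact absurd h2 (not_lt.2 (norm_nonneg _))
  set F : ℂ → ℂ := fun z => f z / g z with hF
  set F' : ℂ → ℂ := fun z => Wr f g z / (g z) ^ 2 with hF'
  set T : ℂ → ℝ≥0∞ := fun z => ENNReal.ofReal (1 - ‖z‖) with hT
  have hTm : Measurable T := by
    apply ENNReal.measurable_ofReal.comp
    fun_prop
  obtain ⟨hmeas, heq⟩ := area_formula hUo.measurableSet (F := F) (F' := F')
    (fun z hz => quot_strictDeriv hf.1 hg.1 hz.1 (hgU z hz))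
    (fun z hz => div_ne_zero hz.2.2 (pow_ne_zero 2 (hgU z hz))) hTm
  set B : ℂ → ℝ≥0∞ := (closedBall (0:ℂ) 2).indicator
    (fun c => ENNReal.ofReal (M + ‖f 0 - c * g 0‖⁻¹)) with hB
  -- pointwise bound
  have hle : ∀ c : ℂ, f 0 - c * g 0 ≠ 0 → ∑' z : ℂ, (U ∩ F ⁻¹' {c}).indicator T z ≤ B c := by
    intro c hc0
    by_cases hc : c ∈ closedBall (0:ℂ) 2
    · rw [hB, Set.indicator_of_mem hc]
      have hc' : ‖c‖ ≤ 2 := by simpa using hc
      refine le_trans ?_ (hM c hc' hc0 U (fun z hz => hz.1))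
      have hset : U ∩ F ⁻¹' {c} = U ∩ {z | f z - c * g z = 0} := by
        ext w
        constructor
        · rintro ⟨hw1, hw2⟩
          refine ⟨hw1, ?_⟩
          have h3 : f w / g w = c := hw2
          rw [div_eq_iff (hgU w hw1)] at h3
          show f w - c * g w = 0
          rw [h3, sub_self]
        · rintro ⟨hw1, hw2⟩
          refine ⟨hw1, ?_⟩
          have h3 : f w - c * g w = 0 := hw2
          show f w / g w = c
          rw [div_eq_iff (hgU w hw1)]
          exact sub_eq_zero.1 h3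
      rw [hset]
    · rw [hB, Set.indicator_of_notMem hc]
      rw [nonpos_iff_eq_zero, ENNReal.tsum_eq_zero]
      intro z
      rw [Set.indicator_of_notMem]
      rintro ⟨hz1, hz2⟩
      apply hc
      have h3 : f z / g z = c := hz2
      rw [← h3, mem_closedBall_zero_iff, norm_div, div_le_iff₀ (norm_pos_iff.2 (hgU z hz1))]
      exact hz1.2.1.le
  have hae : ∀ᵐ c : ℂ, f 0 - c * g 0 ≠ 0 := by
    by_cases hg0 : g 0 = 0
    · apply Eventually.of_forall
      intro c
      rw [hg0, mul_zero, sub_zero]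
      rcases h0 with h | h
      · exact h
      · exact absurd hg0 h
    · have h1 : ∀ᵐ c : ℂ, c ≠ f 0 / g 0 := by
        rw [ae_iff]
        simp
      filter_upwards [h1] with c hc h2
      apply hc
      rw [eq_div_iff hg0]
      exact (sub_eq_zero.1 h2).symm
  have hBfin : ∫⁻ c, B c < ⊤ := by
    rw [hB, lintegral_indicator isClosed_closedBall.measurableSet]
    have h1 : ∫⁻ c in closedBall (0:ℂ) 2, ENNReal.ofReal (M + ‖f 0 - c * g 0‖⁻¹) ≤
        ∫⁻ c in closedBall (0:ℂ) 2, (ENNReal.ofReal M + ENNReal.ofReal (‖f 0 - c * g 0‖⁻¹)) := by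
      apply lintegral_mono
      intro c
      exact ENNReal.ofReal_add_le
    refine lt_of_le_of_lt h1 ?_
    rw [lintegral_add_left measurable_const]
    apply ENNReal.add_lt_top.2
    constructor
    · rw [setLIntegral_const]
      exact ENNReal.mul_lt_top ENNReal.ofReal_lt_top (isCompact_closedBall _ _).measure_lt_top
    · by_cases hg0 : g 0 = 0
      · simp only [hg0, mul_zero, sub_zero]
        rw [setLIntegral_const]
        exact ENNReal.mul_lt_top ENNReal.ofReal_lt_top (isCompact_closedBall _ _).measure_lt_top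
      · have h2 : ∀ c : ℂ, ENNReal.ofReal (‖f 0 - c * g 0‖⁻¹) =
            ENNReal.ofReal ‖g 0‖⁻¹ * ENNReal.ofReal ‖f 0 / g 0 - c‖⁻¹ := by
          intro c
          rw [← ENNReal.ofReal_mul (by positivity), ← mul_inv, ← norm_mul]
          congr 3
          field_simp
        simp_rw [h2]
        rw [lintegral_const_mul' _ _ ENNReal.ofReal_ne_top]
        exact ENNReal.mul_lt_top ENNReal.ofReal_lt_top (lintegral_inv_norm _)
  have h3 : ∫⁻ c, ∑' z : ℂ, (U ∩ F ⁻¹' {c}).indicator T z ≤ ∫⁻ c, B c := by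
    apply lintegral_mono_ae
    filter_upwards [hae] with c hc using hle c hc
  rw [heq] at h3
  refine lt_of_le_of_lt ?_ (lt_of_le_of_lt h3 hBfin)
  apply setLIntegral_mono' hUo.measurableSet
  intro z hz
  have hz1 : ‖z‖ < 1 := by simpa using hz.1
  simp only [hT, hF']
  rw [← ENNReal.ofReal_mul (by positivity)]
  apply ENNReal.ofReal_le_ofReal
  rw [mul_comm]
  apply mul_le_mul_of_nonneg_right _ (by linarith)
  rw [norm_div, div_pow, norm_pow]
  have hgz := norm_pos_iff.2 (hgU z hz)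
  have h4 : ‖g z‖ ^ 2 ≤ SS f g z := by unfold SS; nlinarith [sq_nonneg ‖f z‖]
  apply div_le_div_of_nonneg_left (by positivity) (by positivity)
  exact pow_le_pow_left₀ (by positivity) h4 2

end Pool.Agent.Lib.P6e0919
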