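import Mathlib
import Pool.Agent.Lib.P6e0919.Energy

open Complex Metric Real Filter Topology MeasureTheory
open scoped ComplexConjugate ENNReal

namespace Pool.Agent.Lib.P6e0919

/-- The energy estimate. -/
theorem energy {f g : ℂ → ℂ} (hf : IsNev f) (hg : IsNev g)
    (hS : ∀ z ∈ ball (0:ℂ) 1, 0 < SS f g z) :
    ∫⁻ z in ball (0:ℂ) 1, ENNReal.ofReal ((1 - ‖z‖) * (‖Wr f g z‖ ^ 2 / SS f g z ^ 2)) < ⊤ := by
  have h0m : (0:ℂ) ∈ ball (0:ℂ) 1 := mem_ball_self one_pos
  have h0 : f 0 ≠ 0 ∨ g 0 ≠ 0 := by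
    by_contra hcon
    push Not at hcon
    have := hS 0 h0m
    unfold SS at this
    rw [hcon.1, hcon.2] at this
    simp at this
  set e : ℂ → ℝ≥0∞ := fun z => ENNReal.ofReal ((1 - ‖z‖) * (‖Wr f g z‖ ^ 2 / SS f g z ^ 2)) with he
  set U1 : Set ℂ := {z | z ∈ ball (0:ℂ) 1 ∧ ‖f z‖ < 2 * ‖g z‖ ∧ Wr f g z ≠ 0} with hU1
  set U2 : Set ℂ := {z | z ∈ ball (0:ℂ) 1 ∧ ‖g z‖ < 2 * ‖f z‖ ∧ Wr g f z ≠ 0} with hU2
  set U3 : Set ℂ := ball (0:ℂ) 1 ∩ {z | e z = 0} with hU3
  have h1 : ∫⁻ z in U1, e z < ⊤ := half_energy hf hg h0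
  have h2 : ∫⁻ z in U2, e z < ⊤ := by
    have := half_energy hg hf h0.symm
    refine lt_of_le_of_lt (le_of_eq ?_) this
    apply lintegral_congr
    intro z
    simp only [he]
    rw [norm_Wr_symm, SS_symm]
  have hsub : ball (0:ℂ) 1 ⊆ U1 ∪ (U2 ∪ U3) := by
    intro z hz
    by_cases hW : Wr f g z = 0
    · right; right
      refine ⟨hz, ?_⟩
      show e z = 0
      simp [he, hW]
    · have hW' : Wr g f z ≠ 0 := by
        rw [← norm_pos_iff, norm_Wr_symm, norm_pos_iff]; exact hW
      rcases le_total ‖f z‖ ‖g z‖ with h | h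
      · left
        refine ⟨hz, ?_, hW⟩
        have hg0 : 0 < ‖g z‖ := by
          rcases (norm_nonneg (g z)).eq_or_lt with h3 | h3
          · exfalso
            have h4 : ‖f z‖ = 0 := le_antisymm (by rw [← h3] at h; exact h) (norm_nonneg _)
            have := hS z hz
            unfold SS at this
            rw [h4, ← h3] at this
            simp at this
          · exact h3
        linarith
      · right; left
        refine ⟨hz, ?_, hW'⟩
        have hf0 : 0 < ‖f z‖ := by
          rcases (norm_nonneg (f z)).eq_or_lt with h3 | h3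
          · exfalso
            have h4 : ‖g z‖ = 0 := le_antisymm (by rw [← h3] at h; exact h) (norm_nonneg _)
            have := hS z hz
            unfold SS at this
            rw [h4, ← h3] at this
            simp at this
          · exact h3
        linarith
  have h3 : ∫⁻ z in U3, e z = 0 := by
    have hm : MeasurableSet (ball (0:ℂ) 1) := isOpen_ball.measurableSet
    refine le_antisymm ?_ zero_le
    have : ∀ᵐ z ∂(volume.restrict U3), e z = 0 := by
      have hcont : ContinuousOn e (ball 0 1) := by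
        apply ENNReal.continuous_ofReal.comp_continuousOn
        apply ContinuousOn.mul (by fun_prop)
        apply ContinuousOn.div
        · exact (continuousOn_Wr hf.1 hg.1).norm.pow 2
        · exact (continuousOn_SS hf.1 hg.1).pow 2
        · intro z hz
          have := hS z hz
          positivity
      have hU3m : MeasurableSet U3 := by
        classical
        have he' : Measurable ((ball (0:ℂ) 1).piecewise e (fun _ => 0)) :=
          hcont.measurable_piecewise continuousOn_const hm
        have h5 : U3 = ball (0:ℂ) 1 ∩ ((ball (0:ℂ) 1).piecewise e (fun _ => 0)) ⁻¹' {0} := by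
          ext z
          constructor
          · rintro ⟨hz1, hz2⟩
            refine ⟨hz1, ?_⟩
            rw [Set.mem_preimage, Set.piecewise_eq_of_mem _ _ _ hz1]
            exact hz2
          · rintro ⟨hz1, hz2⟩
            refine ⟨hz1, ?_⟩
            rw [Set.mem_preimage, Set.piecewise_eq_of_mem _ _ _ hz1] at hz2
            exact hz2
        rw [h5]
        exact hm.inter (he' (MeasurableSet.singleton 0))
      filter_upwards [ae_restrict_mem hU3m] with z hz using hz.2
    rw [lintegral_congr_ae this]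
    simp
  calc ∫⁻ z in ball (0:ℂ) 1, e z ≤ ∫⁻ z in U1 ∪ (U2 ∪ U3), e z := lintegral_mono_set hsub
    _ ≤ (∫⁻ z in U1, e z) + (∫⁻ z in U2 ∪ U3, e z) := lintegral_union_le _ _ _
    _ ≤ (∫⁻ z in U1, e z) + ((∫⁻ z in U2, e z) + (∫⁻ z in U3, e z)) :=
      add_le_add_right (lintegral_union_le _ _ _) _
    _ < ⊤ := by
      rw [h3, add_zero]
      exact ENNReal.add_lt_top.2 ⟨h1, h2⟩

/-- local mass -/
noncomputable def II (J : ℂ → ℝ≥0∞) (z : ℂ) : ℝ≥0∞ := ∫⁻ w in ball z ((1 - ‖z‖) / 2), J w

lemma measurable_II {J : ℂ → ℝ≥0∞} (hJ : Measurable J) : Measurable (II J) := by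
  set S : Set (ℂ × ℂ) := {p | ‖p.2 - p.1‖ < (1 - ‖p.1‖) / 2} with hS
  have hSm : MeasurableSet S := by
    apply IsOpen.measurableSet
    exact isOpen_lt (by fun_prop) (by fun_prop)
  have h1 : II J = fun z => ∫⁻ w, S.indicator (fun p : ℂ × ℂ => J p.2) (z, w) := by
    funext z
    unfold II
    rw [← lintegral_indicator isOpen_ball.measurableSet]
    apply lintegral_congr
    intro w
    by_cases hw : w ∈ ball z ((1 - ‖z‖) / 2)
    · have hw' : (z, w) ∈ S := by
        rw [mem_ball, dist_eq_norm] at hw; exact hw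
      rw [Set.indicator_of_mem hw, Set.indicator_of_mem hw']
    · have hw' : (z, w) ∉ S := by
        rw [mem_ball, dist_eq_norm] at hw; exact hw
      rw [Set.indicator_of_notMem hw, Set.indicator_of_notMem hw']
  rw [h1]
  exact Measurable.lintegral_prod_right' ((hJ.comp measurable_snd).indicator hSm)

/-- Whitney type Tonelli argument. -/
theorem whitney_tonelli {J : ℂ → ℝ≥0∞} (hJ : Measurable J) :
    ∫⁻ z in ball (0:ℂ) 1, ENNReal.ofReal (1 - ‖z‖)⁻¹ * II J z ≤
      ENNReal.ofReal (3 / 2 * π) * ∫⁻ w in ball (0:ℂ) 1, ENNReal.ofReal (1 - ‖w‖) * J w := by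
  set S : Set (ℂ × ℂ) := {p | ‖p.1‖ < 1 ∧ ‖p.2 - p.1‖ < (1 - ‖p.1‖) / 2} with hS
  have hSm : MeasurableSet S := by
    apply IsOpen.measurableSet
    have o1 : IsOpen {p : ℂ × ℂ | ‖p.1‖ < 1} := isOpen_lt (by fun_prop) (by fun_prop)
    have o2 : IsOpen {p : ℂ × ℂ | ‖p.2 - p.1‖ < (1 - ‖p.1‖) / 2} :=
      isOpen_lt (by fun_prop) (by fun_prop)
    exact o1.inter o2
  set G : ℂ × ℂ → ℝ≥0∞ := S.indicator (fun p => ENNReal.ofReal (1 - ‖p.1‖)⁻¹ * J p.2) with hG
  have hGm : Measurable G := by
    apply Measurable.indicator _ hSm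
    apply Measurable.mul
    · apply ENNReal.measurable_ofReal.comp
      fun_prop
    · exact hJ.comp measurable_snd
  have h1 : ∫⁻ z in ball (0:ℂ) 1, ENNReal.ofReal (1 - ‖z‖)⁻¹ * II J z = ∫⁻ z, ∫⁻ w, G (z, w) := by
    rw [← lintegral_indicator isOpen_ball.measurableSet]
    apply lintegral_congr
    intro z
    by_cases hz : z ∈ ball (0:ℂ) 1
    · rw [Set.indicator_of_mem hz]
      unfold II
      rw [← lintegral_const_mul' _ _ ENNReal.ofReal_ne_top,
        ← lintegral_indicator isOpen_ball.measurableSet]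
      apply lintegral_congr
      intro w
      have hz' : ‖z‖ < 1 := by simpa using hz
      by_cases hw : w ∈ ball z ((1 - ‖z‖) / 2)
      · have hw' : (z, w) ∈ S := by
          rw [mem_ball, dist_eq_norm] at hw; exact ⟨hz', hw⟩
        rw [Set.indicator_of_mem hw, hG, Set.indicator_of_mem hw']
      · have hw' : (z, w) ∉ S := by
          rw [mem_ball, dist_eq_norm] at hw
          rintro ⟨-, h⟩; exact hw h
        rw [Set.indicator_of_notMem hw, hG, Set.indicator_of_notMem hw']
    · rw [Set.indicator_of_notMem hz]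
      have : ∀ w, G (z, w) = 0 := by
        intro w
        rw [hG, Set.indicator_of_notMem]
        rintro ⟨h, -⟩
        exact hz (by simpa using h)
      simp [this]
  have hsw := lintegral_lintegral_swap (μ := (volume : Measure ℂ)) (ν := (volume : Measure ℂ))
    (f := fun z w => G (z, w)) hGm.aemeasurable
  rw [h1, hsw, ← lintegral_const_mul' _ _ ENNReal.ofReal_ne_top,
    ← lintegral_indicator isOpen_ball.measurableSet]
  apply lintegral_mono
  intro w
  by_cases hw : w ∈ ball (0:ℂ) 1
  · rw [Set.indicator_of_mem hw]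
    have hw1 : ‖w‖ < 1 := by simpa using hw
    have h2 : ∀ z, G (z, w) ≤ (ball w (1 - ‖w‖)).indicator
        (fun _ => ENNReal.ofReal (3 / 2 * (1 - ‖w‖)⁻¹) * J w) z := by
      intro z
      by_cases hzS : (z, w) ∈ S
      · obtain ⟨hz1, hz2⟩ := hzS
        simp only at hz1 hz2
        have h3 : ‖w‖ ≤ ‖z‖ + ‖w - z‖ := by
          calc ‖w‖ = ‖z + (w - z)‖ := by rw [add_sub_cancel]
            _ ≤ _ := norm_add_le _ _
        have h4 : ‖z‖ ≤ ‖w‖ + ‖w - z‖ := by
          calc ‖z‖ = ‖w - (w - z)‖ := by rw [sub_sub_cancel]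
            _ ≤ _ := norm_sub_le _ _
        have hzm : z ∈ ball w (1 - ‖w‖) := by
          rw [mem_ball, dist_eq_norm, norm_sub_rev]
          linarith
        have hzS' : (z, w) ∈ S := ⟨hz1, hz2⟩
        rw [Set.indicator_of_mem hzm, hG, Set.indicator_of_mem hzS']
        simp only
        gcongr
        rw [inv_eq_one_div, inv_eq_one_div, ← mul_div_assoc, mul_one,
          div_le_div_iff₀ (by linarith) (by linarith)]
        linarith
      · rw [hG, Set.indicator_of_notMem hzS]; exact zero_le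
    refine (lintegral_mono h2).trans ?_
    rw [lintegral_indicator isOpen_ball.measurableSet, setLIntegral_const, Complex.volume_ball]
    have hpos : 0 < 1 - ‖w‖ := by linarith
    have hpi : ((NNReal.pi : NNReal) : ℝ≥0∞) = ENNReal.ofReal π := by
      rw [ENNReal.ofReal, Real.toNNReal_of_nonneg Real.pi_pos.le]; rfl
    rw [hpi, ← ENNReal.ofReal_pow hpos.le, ← ENNReal.ofReal_mul (by positivity)]
    apply le_of_eq
    rw [mul_comm (ENNReal.ofReal _ * J w), ← mul_assoc, ← mul_assoc, ← ENNReal.ofReal_mul (by positivity),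
      ← ENNReal.ofReal_mul (by positivity)]
    congr 2
    field_simp
  · have : ∀ z, G (z, w) = 0 := by
      intro z
      rw [hG, Set.indicator_of_notMem]
      rintro ⟨hz1, hz2⟩
      apply hw
      simp only at hz1 hz2
      rw [mem_ball_zero_iff]
      calc ‖w‖ = ‖z + (w - z)‖ := by rw [add_sub_cancel]
        _ ≤ ‖z‖ + ‖w - z‖ := norm_add_le _ _
        _ < 1 := by linarith
    simp [this]

end Pool.Agent.Lib.P6e0919
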