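import Mathlib
import Pool.Agent.Lib.P6e0919.Tonelli

open Complex Metric Real Filter Topology MeasureTheory
open scoped ComplexConjugate ENNReal

namespace Pool.Agent.Lib.P6e0919

lemma measurable_indicator_ball {F : ℂ → ℝ} (hF : ContinuousOn F (ball 0 1)) :
    Measurable ((ball (0:ℂ) 1).indicator F) := by
  classical
  rw [← Set.piecewise_eq_indicator]
  exact hF.measurable_piecewise continuousOn_const isOpen_ball.measurableSet

lemma measurable_indicator_ball' {F : ℂ → ℝ≥0∞} (hF : ContinuousOn F (ball 0 1)) :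
    Measurable ((ball (0:ℂ) 1).indicator F) := by
  classical
  rw [← Set.piecewise_eq_indicator]
  exact hF.measurable_piecewise continuousOn_const isOpen_ball.measurableSet

/-- spherical energy density -/
noncomputable def JJ (f g : ℂ → ℂ) : ℂ → ℝ≥0∞ :=
  (ball (0:ℂ) 1).indicator (fun z => ENNReal.ofReal (‖Wr f g z‖ ^ 2 / SS f g z ^ 2))

/-- scaled spherical derivative -/
noncomputable def XX (f g : ℂ → ℂ) : ℂ → ℝ :=
  (ball (0:ℂ) 1).indicator (fun z => (1 - ‖z‖) * ‖Wr f g z‖ / SS f g z)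

/-- the logarithmic defect -/
noncomputable def TT (f g : ℂ → ℂ) (z : ℂ) : ℝ :=
  (1 / 2) * Real.log ((II (JJ f g) z).toReal / XX f g z ^ 2)

lemma measurable_JJ {f g : ℂ → ℂ} (hf : IsNev f) (hg : IsNev g)
    (hS : ∀ z ∈ ball (0:ℂ) 1, 0 < SS f g z) : Measurable (JJ f g) := by
  apply measurable_indicator_ball'
  apply ENNReal.continuous_ofReal.comp_continuousOn
  apply ContinuousOn.div
  · exact (continuousOn_Wr hf.1 hg.1).norm.pow 2
  · exact (continuousOn_SS hf.1 hg.1).pow 2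
  · intro z hz
    have := hS z hz
    positivity

lemma measurable_XX {f g : ℂ → ℂ} (hf : IsNev f) (hg : IsNev g)
    (hS : ∀ z ∈ ball (0:ℂ) 1, 0 < SS f g z) : Measurable (XX f g) := by
  apply measurable_indicator_ball
  apply ContinuousOn.div
  · exact ContinuousOn.mul (by fun_prop) (continuousOn_Wr hf.1 hg.1).norm
  · exact continuousOn_SS hf.1 hg.1
  · intro z hz
    exact (hS z hz).ne'

lemma measurable_TT {f g : ℂ → ℂ} (hf : IsNev f) (hg : IsNev g)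
    (hS : ∀ z ∈ ball (0:ℂ) 1, 0 < SS f g z) : Measurable (TT f g) := by
  unfold TT
  apply Measurable.const_mul
  apply Real.measurable_log.comp
  exact (measurable_II (measurable_JJ hf hg hS)).ennreal_toReal.div
    ((measurable_XX hf hg hS).pow_const 2)

lemma ae_ne {a b : ℂ} (h0 : a ≠ 0 ∨ b ≠ 0) : ∀ᵐ c : ℂ, a - c * b ≠ 0 := by
  by_cases hg0 : b = 0
  · apply Eventually.of_forall
    intro c
    rw [hg0, mul_zero, sub_zero]
    rcases h0 with h | h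
    · exact h
    · exact absurd hg0 h
  · have h1 : ∀ᵐ c : ℂ, c ≠ a / b := by
      rw [ae_iff]
      simp
    filter_upwards [h1] with c hc h2
    apply hc
    rw [eq_div_iff hg0]
    exact (sub_eq_zero.1 h2).symm

lemma TT_bound {f g : ℂ → ℂ} (hS : ∀ z ∈ ball (0:ℂ) 1, 0 < SS f g z) {z : ℂ}
    (hz : z ∈ ball (0:ℂ) 1) (hfg : ‖f z‖ < ‖g z‖) (hW : Wr f g z ≠ 0) :
    ENNReal.ofReal (‖Wr f g z / (g z) ^ 2‖ ^ 2) *
      (ENNReal.ofReal (1 - ‖z‖) * ENNReal.ofReal (TT f g z)) ≤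
      ENNReal.ofReal 2 * (ENNReal.ofReal (1 - ‖z‖)⁻¹ * II (JJ f g) z) := by
  have hz1 : ‖z‖ < 1 := by simpa using hz
  have hr : 0 < 1 - ‖z‖ := by linarith
  by_cases hI : II (JJ f g) z = ⊤
  · rw [hI, ENNReal.mul_top (by simp; linarith), ENNReal.mul_top (by simp)]
    exact le_top
  set i := (II (JJ f g) z).toReal with hi
  have hi0 : 0 ≤ i := ENNReal.toReal_nonneg
  have hIi : II (JJ f g) z = ENNReal.ofReal i := (ENNReal.ofReal_toReal hI).symm
  rw [hIi, ← ENNReal.ofReal_mul (by positivity), ← ENNReal.ofReal_mul (by positivity),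
    ← ENNReal.ofReal_mul (by positivity), ← ENNReal.ofReal_mul (by positivity)]
  apply ENNReal.ofReal_le_ofReal
  have hg0 : 0 < ‖g z‖ := (norm_nonneg _).trans_lt hfg
  have hSz := hS z hz
  have hX : XX f g z = (1 - ‖z‖) * ‖Wr f g z‖ / SS f g z := by
    unfold XX; rw [Set.indicator_of_mem hz]
  have hW0 : 0 < ‖Wr f g z‖ := norm_pos_iff.2 hW
  have hX0 : 0 < XX f g z := by rw [hX]; positivity
  have hlog : TT f g z ≤ (1 / 2) * (i / XX f g z ^ 2) := by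
    unfold TT
    rw [← hi]
    apply mul_le_mul_of_nonneg_left _ (by norm_num)
    exact Real.log_le_self (by positivity)
  have hSg : SS f g z ≤ 2 * ‖g z‖ ^ 2 := by
    unfold SS
    nlinarith [norm_nonneg (f z)]
  have hS4 : SS f g z ^ 2 ≤ 4 * ‖g z‖ ^ 4 := by
    calc SS f g z ^ 2 ≤ (2 * ‖g z‖ ^ 2) ^ 2 := pow_le_pow_left₀ hSz.le hSg 2
      _ = 4 * ‖g z‖ ^ 4 := by ring
  have hF : ‖Wr f g z / (g z) ^ 2‖ ^ 2 ≤ 4 * (‖Wr f g z‖ ^ 2 / SS f g z ^ 2) := by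
    rw [norm_div, norm_pow, div_pow, ← pow_mul, ← mul_div_assoc,
      div_le_div_iff₀ (by positivity) (by positivity)]
    calc ‖Wr f g z‖ ^ 2 * SS f g z ^ 2 ≤ ‖Wr f g z‖ ^ 2 * (4 * ‖g z‖ ^ 4) := by gcongr
      _ = 4 * ‖Wr f g z‖ ^ 2 * ‖g z‖ ^ (2 * 2) := by ring
  calc ‖Wr f g z / (g z) ^ 2‖ ^ 2 * ((1 - ‖z‖) * TT f g z) ≤
      ‖Wr f g z / (g z) ^ 2‖ ^ 2 * ((1 - ‖z‖) * ((1 / 2) * (i / XX f g z ^ 2))) := by gcongr
    _ ≤ (4 * (‖Wr f g z‖ ^ 2 / SS f g z ^ 2)) * ((1 - ‖z‖) * ((1 / 2) * (i / XX f g z ^ 2))) := by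
      gcongr
    _ = 2 * ((1 - ‖z‖)⁻¹ * i) := by
      rw [hX]
      field_simp
      ring

/-- Selection of a good member of the pencil. -/
theorem exists_good_c {f g : ℂ → ℂ} (hf : IsNev f) (hg : IsNev g)
    (hS : ∀ z ∈ ball (0:ℂ) 1, 0 < SS f g z) :
    ∃ c : ℂ, ‖c‖ < 1 ∧ f 0 + c * g 0 ≠ 0 ∧
      (∀ z ∈ ball (0:ℂ) 1, f z + c * g z = 0 → Wr f g z ≠ 0) ∧
      ∑' z : ℂ, ({z | z ∈ ball (0:ℂ) 1 ∧ f z + c * g z = 0}).indicator
        (fun z => ENNReal.ofReal (1 - ‖z‖) * ENNReal.ofReal (TT f g z)) z < ⊤ := by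
  have h0m : (0:ℂ) ∈ ball (0:ℂ) 1 := mem_ball_self one_pos
  have hSne : ∀ z ∈ ball (0:ℂ) 1, f z ≠ 0 ∨ g z ≠ 0 := by
    intro z hz
    by_contra hcon
    push Not at hcon
    have := hS z hz
    unfold SS at this
    rw [hcon.1, hcon.2] at this
    simp at this
  set U : Set ℂ := {z | z ∈ ball (0:ℂ) 1 ∧ ‖f z‖ < 1 * ‖g z‖ ∧ Wr f g z ≠ 0} with hU
  have hUo : IsOpen U := isOpen_part hf.1 hg.1 1
  have hUg : ∀ z ∈ U, ‖f z‖ < ‖g z‖ := fun z hz => by simpa using hz.2.1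
  have hgU : ∀ z ∈ U, g z ≠ 0 := by
    intro z hz h3
    have := hUg z hz
    rw [h3, norm_zero] at this
    exact absurd this (not_lt.2 (norm_nonneg _))
  set F : ℂ → ℂ := fun z => f z / g z with hF
  set F' : ℂ → ℂ := fun z => Wr f g z / (g z) ^ 2 with hF'
  set T : ℂ → ℝ≥0∞ := fun z => ENNReal.ofReal (1 - ‖z‖) * ENNReal.ofReal (TT f g z) with hT
  have hTm : Measurable T := by
    have m1 : Measurable (fun z : ℂ => ENNReal.ofReal (1 - ‖z‖)) := by
      apply ENNReal.measurable_ofReal.comp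
      fun_prop
    exact m1.mul (ENNReal.measurable_ofReal.comp (measurable_TT hf hg hS))
  obtain ⟨hmeas, heq⟩ := area_formula hUo.measurableSet (F := F) (F' := F')
    (fun z hz => quot_strictDeriv hf.1 hg.1 hz.1 (hgU z hz))
    (fun z hz => div_ne_zero hz.2.2 (pow_ne_zero 2 (hgU z hz))) hTm
  have hfin : ∫⁻ c, ∑' z : ℂ, (U ∩ F ⁻¹' {c}).indicator T z < ⊤ := by
    rw [heq]
    have h1 : ∫⁻ z in U, ENNReal.ofReal (‖F' z‖ ^ 2) * T z ≤
        ∫⁻ z in U, ENNReal.ofReal 2 * (ENNReal.ofReal (1 - ‖z‖)⁻¹ * II (JJ f g) z) := by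
      apply setLIntegral_mono' hUo.measurableSet
      intro z hz
      exact TT_bound hS hz.1 (hUg z hz) hz.2.2
    refine lt_of_le_of_lt h1 ?_
    rw [lintegral_const_mul' _ _ ENNReal.ofReal_ne_top]
    apply ENNReal.mul_lt_top ENNReal.ofReal_lt_top
    refine lt_of_le_of_lt (lintegral_mono_set (fun z hz => hz.1) :
      _ ≤ ∫⁻ z in ball (0:ℂ) 1, ENNReal.ofReal (1 - ‖z‖)⁻¹ * II (JJ f g) z) ?_
    refine lt_of_le_of_lt (whitney_tonelli (measurable_JJ hf hg hS)) ?_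
    apply ENNReal.mul_lt_top ENNReal.ofReal_lt_top
    refine lt_of_le_of_lt (le_of_eq ?_) (energy hf hg hS)
    apply setLIntegral_congr_fun isOpen_ball.measurableSet
    intro z hz
    have hz1 : ‖z‖ < 1 := by simpa using hz
    simp only [JJ]
    rw [Set.indicator_of_mem hz, ENNReal.ofReal_mul (by linarith)]
  have hae1 := ae_lt_top hmeas hfin.ne
  have hae2 : ∀ᵐ c : ℂ, f 0 - c * g 0 ≠ 0 := ae_ne (hSne 0 h0m)
  -- Sard
  set Cr : Set ℂ := {z | z ∈ ball (0:ℂ) 1 ∧ g z ≠ 0 ∧ Wr f g z = 0} with hCr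
  have hae3 : volume (F '' Cr) = 0 := by
    apply addHaar_image_eq_zero_of_det_fderivWithin_eq_zero volume (f' := fun z =>
      ((ContinuousLinearMap.toSpanSingleton ℂ (F' z) : ℂ →L[ℂ] ℂ).restrictScalars ℝ : ℂ →L[ℝ] ℂ))
    · intro z hz
      exact ((quot_strictDeriv hf.1 hg.1 hz.1 hz.2.1).hasDerivAt.hasFDerivAt.restrictScalars
        ℝ).hasFDerivWithinAt
    · intro z hz
      rw [det_mul]
      simp only [hF', hz.2.2, zero_div, norm_zero]
      norm_num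
  have hae3' : ∀ᵐ c : ℂ, c ∉ F '' Cr := by
    rw [ae_iff]
    have : {a | ¬ a ∉ F '' Cr} = F '' Cr := by
      ext a
      exact not_not
    rw [this]
    exact hae3
  have hfreq : ∃ᶠ c in ae (volume : Measure ℂ), c ∈ ball (0:ℂ) 1 := by
    rw [frequently_ae_mem_iff]
    exact (measure_ball_pos volume 0 one_pos).ne'
  obtain ⟨c, hc, hc1, hc2, hc3⟩ := (hfreq.and_eventually (hae1.and (hae2.and hae3'))).exists
  have hcn : ‖c‖ < 1 := by simpa using hc
  have hzero : ∀ z ∈ ball (0:ℂ) 1, f z + -c * g z = 0 → g z ≠ 0 ∧ f z / g z = c := by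
    intro z hz h1
    have hg0 : g z ≠ 0 := by
      intro h2
      rw [h2, mul_zero, add_zero] at h1
      rcases hSne z hz with h3 | h3
      · exact h3 h1
      · exact h3 h2
    refine ⟨hg0, ?_⟩
    rw [div_eq_iff hg0]
    linear_combination h1
  have hWne : ∀ z ∈ ball (0:ℂ) 1, f z + -c * g z = 0 → Wr f g z ≠ 0 := by
    intro z hz h1 h2
    obtain ⟨h3, h4⟩ := hzero z hz h1
    exact hc3 ⟨z, ⟨hz, h3, h2⟩, h4⟩
  refine ⟨-c, by simpa using hcn, ?_, hWne, ?_⟩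
  · rw [neg_mul, ← sub_eq_add_neg]; exact hc2
  · refine lt_of_le_of_lt (le_of_eq ?_) hc1
    have hset : {z | z ∈ ball (0:ℂ) 1 ∧ f z + -c * g z = 0} = U ∩ F ⁻¹' {c} := by
      ext z
      constructor
      · rintro ⟨hz1, hz2⟩
        obtain ⟨h3, h4⟩ := hzero z hz1 hz2
        refine ⟨⟨hz1, ?_, hWne z hz1 hz2⟩, h4⟩
        rw [div_eq_iff h3] at h4
        rw [h4, norm_mul]
        exact mul_lt_mul_of_pos_right hcn (norm_pos_iff.2 h3)
      · rintro ⟨hz1, hz2⟩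
        refine ⟨hz1.1, ?_⟩
        have h4 : f z / g z = c := hz2
        rw [div_eq_iff (hgU z hz1)] at h4
        rw [h4]; ring
    rw [hset]

end Pool.Agent.Lib.P6e0919
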