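import Mathlib
import Pool.Agent.Lib.P6e0919.Select

open Complex Metric Real Filter Topology MeasureTheory
open scoped ComplexConjugate ENNReal

namespace Pool.Agent.Lib.P6e0919

lemma IsNev.add_const_mul {f g : ℂ → ℂ} (hf : IsNev f) (hg : IsNev g) (c : ℂ) :
    IsNev (fun z => f z + c * g z) := by
  obtain ⟨F1, hF1, hfF1⟩ := hf.exists_majorant
  obtain ⟨F2, hF2, hgF2⟩ := hg.exists_majorant
  have hl : 0 ≤ Real.log (1 + ‖c‖) := Real.log_nonneg (by linarith [norm_nonneg c])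
  refine isNev_of_majorant (hf.1.add (hg.1.const_mul c))
    ((hF1.add hF2).add (PR_const hl)) ?_
  intro z hz
  rw [add_re, add_re, Complex.ofReal_re, Real.exp_add, Real.exp_add, Real.exp_log (by positivity)]
  have a1 : 1 ≤ Real.exp (F1 z).re := Real.one_le_exp (hF1.2 z hz)
  have a2 : 1 ≤ Real.exp (F2 z).re := Real.one_le_exp (hF2.2 z hz)
  set A := Real.exp (F1 z).re
  set B := Real.exp (F2 z).re
  have hc := norm_nonneg c
  calc ‖f z + c * g z‖ ≤ ‖f z‖ + ‖c‖ * ‖g z‖ := by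
        rw [← norm_mul]; exact norm_add_le _ _
    _ ≤ A + ‖c‖ * B := by
        have := hfF1 z hz
        have := hgF2 z hz
        gcongr
    _ ≤ A * B + ‖c‖ * (A * B) := by
        have h1 : A ≤ A * B := le_mul_of_one_le_right (by linarith) a2
        have h2 : B ≤ A * B := le_mul_of_one_le_left (by linarith) a1
        have := mul_le_mul_of_nonneg_left h2 hc
        linarith
    _ = A * B * (1 + ‖c‖) := by ring

lemma PR.real_mul {F : ℂ → ℂ} (hF : PR F) {c : ℝ} (hc : 0 ≤ c) : PR (fun z => (c : ℂ) * F z) :=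
  hF.const_mul hc

/-- bound of the Wronskian by the local energy -/
lemma Wr_bound {f g : ℂ → ℂ} (hf : IsNev f) (hg : IsNev g)
    (hS : ∀ z ∈ ball (0:ℂ) 1, 0 < SS f g z)
    {Θ : ℂ → ℂ} (hΘ : PR Θ) (hup : ∀ z ∈ ball (0:ℂ) 1, SS f g z ≤ Real.exp (Θ z).re)
    {l : ℂ} (hl : l ∈ ball (0:ℂ) 1) {z : ℂ} (hz : ‖z - l‖ < 3 / 8 * (1 - ‖l‖)) :
    ‖Wr f g z‖ ≤ (8 / (1 - ‖l‖)) * Real.exp (3 * (Θ l).re) *
      Real.sqrt (II (JJ f g) l).toReal := by
  have hl1 : ‖l‖ < 1 := by simpa using hl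
  set r := 1 - ‖l‖ with hr
  have hr0 : 0 < r := by rw [hr]; linarith
  set J := JJ f g with hJ
  -- finiteness of the local energy
  have hballsub : ball l (r / 2) ⊆ ball (0:ℂ) 1 := by
    intro w hw
    rw [mem_ball, dist_eq_norm] at hw
    rw [mem_ball_zero_iff]
    calc ‖w‖ = ‖l + (w - l)‖ := by rw [add_sub_cancel]
      _ ≤ ‖l‖ + ‖w - l‖ := norm_add_le _ _
      _ < 1 := by linarith
  have hfin : II J l < ⊤ := by
    have h1 : II J l ≤ ENNReal.ofReal (2 / r) *
        ∫⁻ z in ball (0:ℂ) 1, ENNReal.ofReal ((1 - ‖z‖) * (‖Wr f g z‖ ^ 2 / SS f g z ^ 2)) := by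
      unfold II
      rw [← hr, ← lintegral_const_mul' _ _ ENNReal.ofReal_ne_top]
      refine le_trans ?_ (lintegral_mono_set hballsub)
      apply setLIntegral_mono' isOpen_ball.measurableSet
      intro w hw
      have hw1 := hballsub hw
      rw [hJ, JJ, Set.indicator_of_mem hw1, ← ENNReal.ofReal_mul (by positivity)]
      apply ENNReal.ofReal_le_ofReal
      rw [mem_ball, dist_eq_norm] at hw
      have h2 : ‖w‖ ≤ ‖l‖ + ‖w - l‖ := by
        calc ‖w‖ = ‖l + (w - l)‖ := by rw [add_sub_cancel]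
          _ ≤ _ := norm_add_le _ _
      have h3 : 1 ≤ 2 / r * (1 - ‖w‖) := by
        rw [div_mul_eq_mul_div, le_div_iff₀ hr0]
        linarith
      have h4 : 0 ≤ ‖Wr f g w‖ ^ 2 / SS f g w ^ 2 := by positivity
      calc ‖Wr f g w‖ ^ 2 / SS f g w ^ 2 ≤ (2 / r * (1 - ‖w‖)) * (‖Wr f g w‖ ^ 2 / SS f g w ^ 2) :=
            le_mul_of_one_le_left h4 h3
        _ = _ := by ring
    exact lt_of_le_of_lt h1 (ENNReal.mul_lt_top ENNReal.ofReal_lt_top (energy hf hg hS))
  set i := (II J l).toReal with hi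
  have hi0 : 0 ≤ i := ENNReal.toReal_nonneg
  have hIi : II J l = ENNReal.ofReal i := (ENNReal.ofReal_toReal hfin.ne).symm
  set E := Real.exp (3 * (Θ l).re) with hE
  have hE0 : 0 < E := Real.exp_pos _
  have hsub2 : ball z (r / 8) ⊆ ball l (r / 2) := by
    intro w hw
    rw [mem_ball, dist_eq_norm] at hw ⊢
    calc ‖w - l‖ = ‖(w - z) + (z - l)‖ := by rw [sub_add_sub_cancel]
      _ ≤ ‖w - z‖ + ‖z - l‖ := norm_add_le _ _
      _ < r / 2 := by linarith
  have h1 := area_subMean (h := Wr f g) (z := z) (ρ := r / 8) (by positivity)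
    ((differentiableOn_Wr hf.1 hg.1).mono (hsub2.trans hballsub))
  have h2 : ∫⁻ w in ball z (r / 8), ENNReal.ofReal (‖Wr f g w‖ ^ 2) ≤ ENNReal.ofReal (E ^ 2 * i) := by
    have h3 : ∫⁻ w in ball z (r / 8), ENNReal.ofReal (‖Wr f g w‖ ^ 2) ≤
        ∫⁻ w in ball l (r / 2), ENNReal.ofReal (E ^ 2) * J w := by
      refine (lintegral_mono_set hsub2).trans ?_
      apply setLIntegral_mono' isOpen_ball.measurableSet
      intro w hw
      have hw1 := hballsub hw
      rw [hJ, JJ, Set.indicator_of_mem hw1, ← ENNReal.ofReal_mul (by positivity)]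
      apply ENNReal.ofReal_le_ofReal
      have hSw := hS w hw1
      have hSE : SS f g w ≤ E := by
        refine (hup w hw1).trans ?_
        apply Real.exp_le_exp.2
        apply harnack hΘ hl
        rw [mem_ball, dist_eq_norm] at hw
        exact hw.le
      rw [← mul_div_assoc, le_div_iff₀ (by positivity), mul_comm (E ^ 2)]
      gcongr
    refine h3.trans ?_
    rw [lintegral_const_mul' _ _ ENNReal.ofReal_ne_top, ENNReal.ofReal_mul (by positivity), ← hIi]
    exact le_rfl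
  have h3 := h1.trans h2
  rw [ENNReal.ofReal_le_ofReal_iff (by positivity)] at h3
  have hpi : 1 ≤ π := by linarith [Real.pi_gt_three]
  have h4 : ‖Wr f g z‖ ^ 2 ≤ (8 / r * E * Real.sqrt i) ^ 2 := by
    have h5 : (8 / r * E * Real.sqrt i) ^ 2 = (8 / r) ^ 2 * (E ^ 2 * i) := by
      rw [mul_pow, mul_pow, Real.sq_sqrt hi0]; ring
    rw [h5]
    have h6 : 1 * (r / 8) ^ 2 * ‖Wr f g z‖ ^ 2 ≤ E ^ 2 * i := by
      refine le_trans ?_ h3
      gcongr
    calc ‖Wr f g z‖ ^ 2 = (8 / r) ^ 2 * (1 * (r / 8) ^ 2 * ‖Wr f g z‖ ^ 2) := by field_simp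
      _ ≤ (8 / r) ^ 2 * (E ^ 2 * i) := by gcongr
  exact le_of_sq_le_sq h4 (by positivity)

/-- lower bound for the local energy at a zero of the pencil -/
lemma energy_lower {f g : ℂ → ℂ} (hf : IsNev f) (hg : IsNev g)
    {Φ Θ : ℂ → ℂ} (hΦ : PR Φ) (hlow : ∀ z ∈ ball (0:ℂ) 1, Real.exp (-(Φ z).re) ≤ SS f g z)
    (hΘ : PR Θ) (hup : ∀ z ∈ ball (0:ℂ) 1, SS f g z ≤ Real.exp (Θ z).re)
    {c : ℂ} (hc : ‖c‖ < 1) {l : ℂ} (hl : l ∈ ball (0:ℂ) 1) (hl0 : f l + c * g l = 0)
    {w : ℂ} (hw : w ∈ sphere l ((1 - ‖l‖) / 4)) :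
    ‖f w + c * g w‖ ≤ 16 * Real.exp (6 * (Θ l).re + 3 * (Φ l).re) *
      Real.sqrt (II (JJ f g) l).toReal := by
  have hS : ∀ z ∈ ball (0:ℂ) 1, 0 < SS f g z := fun z hz => (Real.exp_pos _).trans_le (hlow z hz)
  have hl1 : ‖l‖ < 1 := by simpa using hl
  set r := 1 - ‖l‖ with hr
  have hr0 : 0 < r := by rw [hr]; linarith
  set q := Real.sqrt (II (JJ f g) l).toReal with hq
  have hq0 : 0 ≤ q := Real.sqrt_nonneg _
  set E := Real.exp (3 * (Θ l).re) with hE
  have hE1 : 1 ≤ E := Real.one_le_exp (by have := hΘ.2 l hl; positivity)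
  set G := Real.exp (3 * (Φ l).re) with hG
  have hG0 : 0 < G := Real.exp_pos _
  have hUsub : ball l (3 / 8 * r) ⊆ ball (0:ℂ) 1 := by
    intro w hw
    rw [mem_ball, dist_eq_norm] at hw
    rw [mem_ball_zero_iff]
    calc ‖w‖ = ‖l + (w - l)‖ := by rw [add_sub_cancel]
      _ ≤ ‖l‖ + ‖w - l‖ := norm_add_le _ _
      _ < 1 := by linarith
  have hwn : ‖w - l‖ = r / 4 := by
    rw [mem_sphere, dist_eq_norm] at hw; exact hw
  have hwU : w ∈ ball l (3 / 8 * r) := by
    rw [mem_ball, dist_eq_norm, hwn]; linarith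
  have hch := chord isOpen_ball (convex_ball l (3 / 8 * r)) (hf.1.mono hUsub) (hg.1.mono hUsub)
    hc.le (mem_ball_self (by positivity)) hwU hl0 (fun z hz => hS z (hUsub hz))
    (σ := (8 / r * E * q) * G) (fun z hz => by
      have hz1 := hUsub hz
      have hSz := hS z hz1
      rw [mem_ball, dist_eq_norm] at hz
      have h1 := Wr_bound hf hg hS hΘ hup hl hz
      have h2 : (SS f g z)⁻¹ ≤ G := by
        have h3 : G⁻¹ ≤ SS f g z := by
          refine le_trans ?_ (hlow z hz1)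
          rw [hG, ← Real.exp_neg]
          apply Real.exp_le_exp.2
          have := harnack hΦ hl (w := z) (by linarith)
          linarith
        rw [inv_le_comm₀ hSz hG0]
        exact h3
      rw [div_eq_mul_inv]
      have hinv : 0 ≤ (SS f g z)⁻¹ := by positivity
      exact mul_le_mul h1 h2 hinv (by positivity))
  rw [hwn] at hch
  have hSw : Real.sqrt (SS f g w) ≤ E := by
    have h1 : SS f g w ≤ E := by
      refine (hup w (hUsub hwU)).trans ?_
      apply Real.exp_le_exp.2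
      apply harnack hΘ hl
      rw [hwn]; linarith
    rw [Real.sqrt_le_left (by linarith)]
    nlinarith
  have hexp : Real.exp (6 * (Θ l).re + 3 * (Φ l).re) = E * E * G := by
    rw [hE, hG, ← Real.exp_add, ← Real.exp_add]; ring_nf
  rw [hexp]
  calc ‖f w + c * g w‖ ≤ 2 * Real.sqrt (SS f g w) * ((8 / r * E * q) * G * (r / 4)) := hch
    _ ≤ 2 * E * ((8 / r * E * q) * G * (r / 4)) := by gcongr
    _ = 4 * (E * E * G) * q := by field_simp; ring
    _ ≤ 16 * (E * E * G) * q := by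
      apply mul_le_mul_of_nonneg_right _ hq0
      have : 0 ≤ E * E * G := by positivity
      linarith

end Pool.Agent.Lib.P6e0919
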