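import Mathlib
import Pool.Agent.Lib.P6e0919.Good

open Complex Metric Real Filter Topology MeasureTheory
open scoped ComplexConjugate ENNReal

namespace Pool.Agent.Lib.P6e0919

/-- Discrete majorants: weights on a subset of the disc. -/
lemma discrete_majorant {m : ℂ → ℝ} (hm : ∀ z, 0 ≤ m z) (hout : ∀ z ∉ ball (0:ℂ) 1, m z = 0)
    (hs : Summable (fun z => m z * (1 - ‖z‖ ^ 2))) :
    ∃ K : ℂ → ℂ, PR K ∧ ∀ z ∈ ball (0:ℂ) 1, m z ≤ (K z).re := by
  set M : ℂ → ℝ := fun z => m z * (1 - ‖z‖ ^ 2) with hM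
  have hM0 : ∀ z, 0 ≤ M z := by
    intro z
    by_cases hz : z ∈ ball (0:ℂ) 1
    · have h1 : ‖z‖ < 1 := by simpa using hz
      apply mul_nonneg (hm z)
      nlinarith [norm_nonneg z]
    · simp only [hM, hout z hz, zero_mul, le_refl]
  have hMp : ∀ z : ℂ, M z ≠ 0 → (id z) ∈ ball (0:ℂ) 1 := by
    intro z hz
    by_contra hcon
    exact hz (by simp only [hM, hout z hcon, zero_mul])
  refine ⟨KS id M, PR_KS hMp hM0 hs, fun z hz => ?_⟩
  have h1 := sum_le_re_KS hMp hM0 hs hz {z}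
  rw [Finset.sum_singleton] at h1
  refine le_trans ?_ h1
  have hz1 : ‖z‖ < 1 := by simpa using hz
  have hpos : 0 < 1 - ‖z‖ ^ 2 := by nlinarith [norm_nonneg z]
  have h2 := bk_lower_left hz hz
  have h3 : ‖1 - conj z * z‖ = 1 - ‖z‖ ^ 2 := by
    rw [← Complex.normSq_eq_conj_mul_self, Complex.normSq_eq_norm_sq, ← Complex.ofReal_one,
      ← Complex.ofReal_sub, Complex.norm_real, Real.norm_eq_abs, abs_of_pos hpos]
  rw [h3] at h2
  calc m z = M z * ((1 - ‖z‖ ^ 2) / (1 - ‖z‖ ^ 2) ^ 2) := by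
        simp only [hM]; field_simp
    _ ≤ M z * (bk (id z) z).re := mul_le_mul_of_nonneg_left h2 (hM0 z)

/-- Main selection theorem: zeros of a suitable member of the pencil are well separated. -/
theorem zeros_good {f g : ℂ → ℂ} (hf : IsNev f) (hg : IsNev g)
    {Φ : ℂ → ℂ} (hΦ : PR Φ) (hlow : ∀ z ∈ ball (0:ℂ) 1, Real.exp (-(Φ z).re) ≤ SS f g z) :
    ∃ c : ℂ, f 0 + c * g 0 ≠ 0 ∧ ∃ Ψ : ℂ → ℂ, PR Ψ ∧ ∀ z ∈ ball (0:ℂ) 1, f z + c * g z = 0 →
      Real.exp (-(Ψ z).re) ≤ (1 - ‖z‖) * ‖deriv (fun z => f z + c * g z) z‖ := by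
  have hS : ∀ z ∈ ball (0:ℂ) 1, 0 < SS f g z := fun z hz => (Real.exp_pos _).trans_le (hlow z hz)
  obtain ⟨F1, hF1, hfF1⟩ := hf.exists_majorant
  obtain ⟨F2, hF2, hgF2⟩ := hg.exists_majorant
  have hl2 : 0 ≤ Real.log 2 := Real.log_nonneg (by norm_num)
  set Θ : ℂ → ℂ := fun z => ((2:ℝ) : ℂ) * (F1 z + F2 z) + ((Real.log 2 : ℝ) : ℂ) with hΘdef
  have hΘ : PR Θ := ((hF1.add hF2).const_mul (by norm_num)).add (PR_const hl2)
  have hup : ∀ z ∈ ball (0:ℂ) 1, SS f g z ≤ Real.exp (Θ z).re := by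
    intro z hz
    have e1 : (Θ z).re = ((F1 z).re + (F1 z).re) + ((F2 z).re + (F2 z).re) + Real.log 2 := by
      simp only [hΘdef]
      rw [add_re, re_ofReal_mul, add_re, Complex.ofReal_re]; ring
    rw [e1, Real.exp_add, Real.exp_add, Real.exp_add, Real.exp_add, Real.exp_log (by norm_num)]
    have a1 : 1 ≤ Real.exp (F1 z).re := Real.one_le_exp (hF1.2 z hz)
    have a2 : 1 ≤ Real.exp (F2 z).re := Real.one_le_exp (hF2.2 z hz)
    have b1 := hfF1 z hz
    have b2 := hgF2 z hz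
    set A := Real.exp (F1 z).re
    set B := Real.exp (F2 z).re
    have c1 : ‖f z‖ ^ 2 ≤ A * A := by nlinarith [norm_nonneg (f z)]
    have c2 : ‖g z‖ ^ 2 ≤ B * B := by nlinarith [norm_nonneg (g z)]
    have d1 : 1 ≤ A * A := by nlinarith
    have d2 : 1 ≤ B * B := by nlinarith
    unfold SS
    nlinarith
  obtain ⟨c, hc, hc0, hcW, hcsum⟩ := exists_good_c hf hg hS
  refine ⟨c, hc0, ?_⟩
  have hh := hf.add_const_mul hg c
  obtain ⟨V, hV, hVl⟩ := exists_large hh ⟨0, mem_ball_self one_pos, hc0⟩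
  -- discrete majorant of the defect
  set Z : Set ℂ := {z | z ∈ ball (0:ℂ) 1 ∧ f z + c * g z = 0} with hZ
  set m : ℂ → ℝ := Z.indicator (fun z => max 0 (TT f g z)) with hm
  obtain ⟨K, hK, hmK⟩ := discrete_majorant (m := m)
    (fun z => by
      by_cases hz : z ∈ Z
      · rw [hm, Set.indicator_of_mem hz]; exact le_max_left _ _
      · rw [hm, Set.indicator_of_notMem hz])
    (fun z hz => by
      rw [hm, Set.indicator_of_notMem]
      intro hzZ; exact hz hzZ.1)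
    (by
      have h1 := ENNReal.summable_toReal hcsum.ne
      refine Summable.of_nonneg_of_le (fun z => ?_) (fun z => ?_) (h1.mul_left 2)
      · by_cases hz : z ∈ Z
        · have hz1 : ‖z‖ < 1 := by simpa using hz.1
          rw [hm, Set.indicator_of_mem hz]
          apply mul_nonneg (le_max_left _ _)
          nlinarith [norm_nonneg z]
        · rw [hm, Set.indicator_of_notMem hz, zero_mul]
      · by_cases hz : z ∈ Z
        · have hz1 : ‖z‖ < 1 := by simpa using hz.1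
          rw [hm, Set.indicator_of_mem hz, Set.indicator_of_mem hz, ENNReal.toReal_mul,
            ENNReal.toReal_ofReal (by linarith), ENNReal.toReal_ofReal']
          rw [max_comm]
          have h2 : 1 - ‖z‖ ^ 2 ≤ 2 * (1 - ‖z‖) := by nlinarith [norm_nonneg z]
          have h3 : 0 ≤ max (TT f g z) 0 := le_max_right _ _
          calc max (TT f g z) 0 * (1 - ‖z‖ ^ 2) ≤ max (TT f g z) 0 * (2 * (1 - ‖z‖)) := by gcongr
            _ = _ := by ring
        · rw [hm, Set.indicator_of_notMem hz, Set.indicator_of_notMem hz]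
          simp)
  have hl32 : 0 ≤ Real.log 32 := Real.log_nonneg (by norm_num)
  set Ψ : ℂ → ℂ := fun z => (V z + ((6:ℝ) : ℂ) * Θ z) + (((4:ℝ) : ℂ) * Φ z + K z) +
    ((Real.log 32 : ℝ) : ℂ) with hΨ
  have hΨPR : PR Ψ := ((hV.add (hΘ.const_mul (by norm_num))).add
    ((hΦ.const_mul (by norm_num)).add hK)).add (PR_const hl32)
  refine ⟨Ψ, hΨPR, fun l hl hl0 => ?_⟩
  have hl1 : ‖l‖ < 1 := by simpa using hl
  have hlZ : l ∈ Z := ⟨hl, hl0⟩
  have hSl := hS l hl
  obtain ⟨w, hw, hwV⟩ := hVl l hl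
  have h1 := energy_lower hf hg hΦ hlow hΘ hup hc hl hl0 hw
  set i := (II (JJ f g) l).toReal with hi
  set q := Real.sqrt i with hq
  have h2 : Real.exp (-(V l).re) ≤ 16 * Real.exp (6 * (Θ l).re + 3 * (Φ l).re) * q := hwV.trans h1
  have hq0 : 0 < q := by
    have h3 : 0 < 16 * Real.exp (6 * (Θ l).re + 3 * (Φ l).re) * q := (Real.exp_pos _).trans_le h2
    have h4 : 0 < 16 * Real.exp (6 * (Θ l).re + 3 * (Φ l).re) := by positivity
    exact (pos_iff_pos_of_mul_pos h3).1 h4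
  have hi0 : 0 < i := Real.sqrt_pos.1 hq0
  -- the scaled derivative
  have hW := hcW l hl hl0
  have hW0 : 0 < ‖Wr f g l‖ := norm_pos_iff.2 hW
  set x := XX f g l with hx
  have hxval : x = (1 - ‖l‖) * ‖Wr f g l‖ / SS f g l := by
    rw [hx]; unfold XX; rw [Set.indicator_of_mem hl]
  have hr0 : 0 < 1 - ‖l‖ := by linarith
  have hx0 : 0 < x := by rw [hxval]; positivity
  have h3 : TT f g l ≤ (K l).re := by
    refine le_trans ?_ (hmK l hl)
    rw [hm, Set.indicator_of_mem hlZ]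
    exact le_max_right _ _
  have h4 : Real.log (q / x) ≤ (K l).re := by
    refine le_trans (le_of_eq ?_) h3
    unfold TT
    rw [← hi, ← hx]
    have e1 : i / x ^ 2 = (q / x) ^ 2 := by
      rw [div_pow, hq, Real.sq_sqrt hi0.le]
    rw [e1, Real.log_pow]
    push_cast
    ring
  have h5 : q ≤ x * Real.exp (K l).re := by
    rw [Real.log_le_iff_le_exp (by positivity), div_le_iff₀ hx0] at h4
    linarith
  -- relation with the derivative
  have hder : deriv (fun z => f z + c * g z) l = deriv f l + c * deriv g l := by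
    have hfd : DifferentiableAt ℂ f l := (hf.1 l hl).differentiableAt (isOpen_ball.mem_nhds hl)
    have hgd : DifferentiableAt ℂ g l := (hg.1 l hl).differentiableAt (isOpen_ball.mem_nhds hl)
    rw [deriv_fun_add hfd (hgd.const_mul c), deriv_const_mul c hgd]
  have hfl : f l = -(c * g l) := eq_neg_of_add_eq_zero_left hl0
  have hWr : Wr f g l = g l * (deriv f l + c * deriv g l) := by
    unfold Wr
    rw [hfl]; ring
  rw [hder]
  set D := ‖deriv f l + c * deriv g l‖ with hD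
  have hWn : ‖Wr f g l‖ = ‖g l‖ * D := by rw [hWr, norm_mul]
  have hg0 : 0 < ‖g l‖ := by
    rcases (norm_nonneg (g l)).eq_or_lt with h6 | h6
    · rw [hWn, ← h6, zero_mul] at hW0
      exact absurd hW0 (lt_irrefl _)
    · exact h6
  have hfg : ‖f l‖ ≤ ‖g l‖ := by
    rw [hfl, norm_neg, norm_mul]
    nlinarith [norm_nonneg c]
  have hSg : SS f g l ≤ 2 * ‖g l‖ ^ 2 := by
    unfold SS
    nlinarith [norm_nonneg (f l)]
  have hgS : ‖g l‖ ^ 2 ≤ SS f g l := by
    unfold SS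
    nlinarith [sq_nonneg ‖f l‖]
  set P := Real.exp (-(Φ l).re) with hP
  have hP0 : 0 < P := Real.exp_pos _
  have hP1 : P ≤ 1 := by
    rw [hP, Real.exp_le_one_iff]
    linarith [hΦ.2 l hl]
  have hgP : P / 2 ≤ ‖g l‖ := by
    have h7 : (P / 2) ^ 2 ≤ ‖g l‖ ^ 2 := by
      have h8 := hlow l hl
      rw [← hP] at h8
      nlinarith
    exact le_of_sq_le_sq h7 (norm_nonneg _)
  have hD0 : 0 ≤ D := norm_nonneg _
  have h9 : x * ‖g l‖ ≤ (1 - ‖l‖) * D := by
    rw [hxval, hWn, div_mul_eq_mul_div, div_le_iff₀ hSl]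
    calc (1 - ‖l‖) * (‖g l‖ * D) * ‖g l‖ = (1 - ‖l‖) * D * ‖g l‖ ^ 2 := by ring
      _ ≤ (1 - ‖l‖) * D * SS f g l := by gcongr
  -- conclusion
  have hΨre : (Ψ l).re = (V l).re + 6 * (Θ l).re + (4 * (Φ l).re + (K l).re) + Real.log 32 := by
    simp only [hΨ]
    simp only [add_re, re_ofReal_mul, Complex.ofReal_re]
  rw [hΨre]
  have hexp : Real.exp (-((V l).re + 6 * (Θ l).re + (4 * (Φ l).re + (K l).re) + Real.log 32)) =
      Real.exp (-(V l).re) * (Real.exp (6 * (Θ l).re + 3 * (Φ l).re))⁻¹ * P *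
        (Real.exp (K l).re)⁻¹ / 32 := by
    rw [hP, ← Real.exp_neg, ← Real.exp_neg, ← Real.exp_add, ← Real.exp_add, ← Real.exp_add,
      div_eq_mul_inv, ← Real.exp_log (by norm_num : (0:ℝ) < 32), ← Real.exp_neg,
      Real.exp_log (by norm_num : (0:ℝ) < 32), ← Real.exp_add]
    congr 1
    ring
  rw [hexp]
  set Q := Real.exp (6 * (Θ l).re + 3 * (Φ l).re) with hQ
  have hQ0 : 0 < Q := Real.exp_pos _
  set k := Real.exp (K l).re with hk
  have hk0 : 0 < k := Real.exp_pos _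
  calc Real.exp (-(V l).re) * Q⁻¹ * P * k⁻¹ / 32 ≤ (16 * Q * q) * Q⁻¹ * P * k⁻¹ / 32 := by gcongr
    _ = (q * k⁻¹) * (P / 2) := by field_simp; ring
    _ ≤ x * ‖g l‖ := by
      have h10 : q * k⁻¹ ≤ x := by
        rw [← div_eq_mul_inv, div_le_iff₀ hk0]; exact h5
      gcongr
    _ ≤ (1 - ‖l‖) * D := h9

end Pool.Agent.Lib.P6e0919
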