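import Mathlib
import Pool.Agent.Lib.P6e0919.Good2

open Complex Metric Real Filter Topology MeasureTheory
open scoped ComplexConjugate ENNReal

namespace Pool.Agent.Lib.P6e0919

lemma one_sub_conj_le {u z : ℂ} (hz : z ∈ ball (0:ℂ) 1) :
    ‖1 - conj u * z‖ ≤ 2 * (1 - ‖z‖) + ‖z - u‖ := by
  have hz1 : ‖z‖ < 1 := by simpa using hz
  have h1 : 1 - conj u * z = (1 - conj z * z) + conj (z - u) * z := by
    rw [map_sub]; ring
  have h2 : ‖1 - conj z * z‖ = 1 - ‖z‖ ^ 2 := by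
    rw [← Complex.normSq_eq_conj_mul_self, Complex.normSq_eq_norm_sq, ← Complex.ofReal_one,
      ← Complex.ofReal_sub, Complex.norm_real, Real.norm_eq_abs, abs_of_nonneg]
    nlinarith [norm_nonneg z]
  rw [h1]
  calc ‖(1 - conj z * z) + conj (z - u) * z‖ ≤ ‖1 - conj z * z‖ + ‖conj (z - u) * z‖ :=
        norm_add_le _ _
    _ = (1 - ‖z‖ ^ 2) + ‖z - u‖ * ‖z‖ := by rw [h2, norm_mul, RCLike.norm_conj]
    _ ≤ 2 * (1 - ‖z‖) + ‖z - u‖ := by
      have h3 : ‖z - u‖ * ‖z‖ ≤ ‖z - u‖ := by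
        nlinarith [norm_nonneg (z - u)]
      nlinarith [norm_nonneg z]

lemma differentiableOn_dslope_ball {h : ℂ → ℂ} (hd : DifferentiableOn ℂ h (ball 0 1)) {u : ℂ}
    (hu : u ∈ ball (0:ℂ) 1) : DifferentiableOn ℂ (dslope h u) (ball 0 1) :=
  (Complex.differentiableOn_dslope (isOpen_ball.mem_nhds hu)).2 hd

/-- dividing out a zero costs a constant after changing the majorant -/
lemma dslope_bound {h : ℂ → ℂ} (hd : DifferentiableOn ℂ h (ball 0 1)) {F : ℂ → ℂ} (hF : PR F)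
    (hF' : ∀ z ∈ ball (0:ℂ) 1, ‖h z‖ ≤ Real.exp (F z).re) {u : ℂ} (hu : u ∈ ball (0:ℂ) 1)
    (hu0 : h u = 0) {z : ℂ} (hz : z ∈ ball (0:ℂ) 1) :
    ‖dslope h u z‖ * ‖1 - conj u * z‖ ≤ 9 * Real.exp (3 * (F z).re) := by
  have hz1 : ‖z‖ < 1 := by simpa using hz
  set ρ := (1 - ‖z‖) / 2 with hρ
  have hρ0 : 0 < ρ := by rw [hρ]; linarith
  have hk := one_sub_conj_le (u := u) hz
  have h2ρ : 2 * (1 - ‖z‖) = 4 * ρ := by rw [hρ]; ring
  rw [h2ρ] at hk
  have hval : ∀ v, v ≠ u → ‖dslope h u v‖ = ‖h v‖ / ‖v - u‖ := by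
    intro v hv
    rw [dslope_of_ne _ hv, slope_def_field, hu0, sub_zero, norm_div]
  by_cases hcase : ρ / 2 ≤ ‖z - u‖
  · have hne : z ≠ u := by
      rintro rfl
      rw [sub_self, norm_zero] at hcase
      linarith
    have hpos : 0 < ‖z - u‖ := norm_pos_iff.2 (sub_ne_zero.2 hne)
    rw [hval z hne]
    have h1 : ‖h z‖ ≤ Real.exp (3 * (F z).re) := by
      refine (hF' z hz).trans (Real.exp_le_exp.2 ?_)
      linarith [hF.2 z hz]
    have h2 : ‖1 - conj u * z‖ ≤ 9 * ‖z - u‖ := by linarith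
    calc ‖h z‖ / ‖z - u‖ * ‖1 - conj u * z‖ ≤ ‖h z‖ / ‖z - u‖ * (9 * ‖z - u‖) := by gcongr
      _ = 9 * ‖h z‖ := by field_simp
      _ ≤ _ := by linarith
  · push Not at hcase
    have hcl : closedBall z ρ ⊆ ball (0:ℂ) 1 := by
      intro v hv
      rw [mem_closedBall, dist_eq_norm] at hv
      rw [mem_ball_zero_iff]
      calc ‖v‖ = ‖z + (v - z)‖ := by rw [add_sub_cancel]
        _ ≤ ‖z‖ + ‖v - z‖ := norm_add_le _ _
        _ < 1 := by linarith
    have hdd := differentiableOn_dslope_ball hd hu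
    have hmax : ‖dslope h u z‖ ≤ 2 / ρ * Real.exp (3 * (F z).re) := by
      apply Complex.norm_le_of_forall_mem_frontier_norm_le (U := ball z ρ) isBounded_ball
      · apply DifferentiableOn.diffContOnCl
        rw [closure_ball z hρ0.ne']
        exact hdd.mono hcl
      · intro v hv
        rw [frontier_ball z hρ0.ne', mem_sphere, dist_eq_norm] at hv
        have hv1 : v ∈ ball (0:ℂ) 1 := hcl (by rw [mem_closedBall, dist_eq_norm, hv])
        have h3 : ρ / 2 ≤ ‖v - u‖ := by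
          have : ‖v - z‖ ≤ ‖v - u‖ + ‖z - u‖ := by
            calc ‖v - z‖ = ‖(v - u) - (z - u)‖ := by rw [sub_sub_sub_cancel_right]
              _ ≤ _ := norm_sub_le _ _
          linarith
        have hne : v ≠ u := by
          rintro rfl
          rw [sub_self, norm_zero] at h3
          linarith
        have hpos : 0 < ‖v - u‖ := norm_pos_iff.2 (sub_ne_zero.2 hne)
        rw [hval v hne]
        have h4 : ‖h v‖ ≤ Real.exp (3 * (F z).re) := by
          refine (hF' v hv1).trans (Real.exp_le_exp.2 ?_)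
          apply harnack hF hz
          rw [hv]
        rw [div_le_iff₀ hpos]
        calc ‖h v‖ ≤ Real.exp (3 * (F z).re) := h4
          _ = 2 / ρ * Real.exp (3 * (F z).re) * (ρ / 2) := by field_simp
          _ ≤ 2 / ρ * Real.exp (3 * (F z).re) * ‖v - u‖ := by gcongr
      · exact subset_closure (mem_ball_self hρ0)
    have h5 : ‖1 - conj u * z‖ ≤ 9 / 2 * ρ := by linarith
    calc ‖dslope h u z‖ * ‖1 - conj u * z‖ ≤
        (2 / ρ * Real.exp (3 * (F z).re)) * (9 / 2 * ρ) := by gcongr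
      _ = 9 * Real.exp (3 * (F z).re) := by field_simp

/-- zeros of a Nevanlinna function satisfy the Blaschke condition -/
lemma summable_zeros {h : ℂ → ℂ} (hh : IsNev h) (h0 : h 0 ≠ 0) :
    Summable (fun i : {z : ℂ // z ∈ ball (0:ℂ) 1 ∧ h z = 0} => 1 - ‖(i : ℂ)‖ ^ 2) := by
  obtain ⟨hd, C, hC⟩ := hh
  have hC' : ∀ r ∈ Set.Ioo (0:ℝ) 1, circleAverage (fun z => Real.log ‖h z‖) 0 r ≤ C := by
    intro r hr
    refine le_trans ?_ (hC _ hr)
    apply circleAverage_mono (circleIntegrable_log hd hr) (circleIntegrable_posLog hd hr)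
    intro ζ _
    rw [Real.posLog_apply]
    exact le_max_right _ _
  apply summable_of_sum_le (c := 2 * (C - Real.log ‖h 0‖))
  · intro i
    have hi : ‖(i:ℂ)‖ < 1 := by simpa using i.2.1
    have hi2 : ‖(i:ℂ)‖ ^ 2 ≤ 1 := by nlinarith [norm_nonneg (i:ℂ)]
    show (0:ℝ) ≤ 1 - ‖(i:ℂ)‖ ^ 2
    linarith
  · intro s
    have h1 := jensen_zeros hd hC' h0 (s.map (Function.Embedding.subtype _)) (fun u hu => by
      rw [Finset.mem_map] at hu
      obtain ⟨i, _, rfl⟩ := hu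
      exact i.2)
    rw [Finset.sum_map] at h1
    have h2 : ∑ i ∈ s, (1 - ‖(i:ℂ)‖ ^ 2) ≤ ∑ i ∈ s, 2 * (1 - ‖(i:ℂ)‖) := by
      apply Finset.sum_le_sum
      intro i _
      nlinarith [norm_nonneg (i:ℂ), sq_nonneg (1 - ‖(i:ℂ)‖)]
    rw [← Finset.mul_sum] at h2
    refine h2.trans ?_
    apply mul_le_mul_of_nonneg_left _ (by norm_num)
    exact h1

/-- Interpolation on the zeros of `h`. -/
theorem interpolate {h : ℂ → ℂ} (hh : IsNev h) (h0 : h 0 ≠ 0) {Ψ : ℂ → ℂ} (hΨ : PR Ψ)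
    (hlow : ∀ z ∈ ball (0:ℂ) 1, h z = 0 → Real.exp (-(Ψ z).re) ≤ (1 - ‖z‖) * ‖deriv h z‖)
    {w : ℂ → ℂ} {Ω : ℂ → ℂ} (hΩ : PR Ω)
    (hw : ∀ z ∈ ball (0:ℂ) 1, h z = 0 → ‖w z‖ ≤ Real.exp (Ω z).re) :
    ∃ k : ℂ → ℂ, IsNev k ∧ ∀ z ∈ ball (0:ℂ) 1, h z = 0 → k z = w z := by
  obtain ⟨F, hF, hhF⟩ := hh.exists_majorant
  have hd := hh.1
  set ι := {z : ℂ // z ∈ ball (0:ℂ) 1 ∧ h z = 0} with hι
  have hsum : Summable (fun i : ι => 1 - ‖(i : ℂ)‖ ^ 2) := summable_zeros hh h0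
  have hi1 : ∀ i : ι, ‖(i:ℂ)‖ < 1 := fun i => by simpa using i.2.1
  have hpos : ∀ i : ι, 0 < 1 - ‖(i : ℂ)‖ ^ 2 := fun i => by
    nlinarith [norm_nonneg (i:ℂ), hi1 i]
  have hderiv : ∀ i : ι, deriv h i ≠ 0 := by
    intro i hcon
    have := hlow i i.2.1 i.2.2
    rw [hcon, norm_zero, mul_zero] at this
    exact absurd this (not_le.2 (Real.exp_pos _))
  set a : ι → ℂ := fun i => w i / (Complex.exp (Ψ i + Ω i) * deriv h i *
    ((1 - ‖(i : ℂ)‖ ^ 2 : ℝ) : ℂ)) with ha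
  have ha1 : ∀ i, ‖a i‖ ≤ 1 := by
    intro i
    simp only [ha]
    rw [norm_div, norm_mul, norm_mul, Complex.norm_real, Real.norm_eq_abs, abs_of_pos (hpos i),
      Complex.norm_exp, add_re, Real.exp_add]
    have h1 := hw i i.2.1 i.2.2
    have h2 := hlow i i.2.1 i.2.2
    have hdp : 0 < ‖deriv h i‖ := norm_pos_iff.2 (hderiv i)
    rw [div_le_one (mul_pos (by positivity) (hpos i))]
    have h3 : 1 ≤ Real.exp (Ψ i).re * ((1 - ‖(i:ℂ)‖ ^ 2) * ‖deriv h i‖) := by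
      have h4 : (1 - ‖(i:ℂ)‖) * ‖deriv h i‖ ≤ (1 - ‖(i:ℂ)‖ ^ 2) * ‖deriv h i‖ := by
        apply mul_le_mul_of_nonneg_right _ hdp.le
        nlinarith [norm_nonneg (i:ℂ), hi1 i]
      have h5 := h2.trans h4
      calc (1:ℝ) = Real.exp (Ψ i).re * Real.exp (-(Ψ i).re) := by
            rw [← Real.exp_add, add_neg_cancel, Real.exp_zero]
        _ ≤ _ := by gcongr
    calc ‖w i‖ ≤ Real.exp (Ω i).re * 1 := by rw [mul_one]; exact h1
      _ ≤ Real.exp (Ω i).re * (Real.exp (Ψ i).re * ((1 - ‖(i:ℂ)‖ ^ 2) * ‖deriv h i‖)) := by gcongr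
      _ = _ := by ring
  set term : ι → ℂ → ℂ := fun i z => a i * (dslope h i z *
    ((((1 - ‖(i : ℂ)‖ ^ 2) ^ 2 : ℝ) : ℂ) / (1 - conj (i:ℂ) * z))) with hterm
  have hnorm : ∀ i, ∀ z ∈ ball (0:ℂ) 1, ‖term i z‖ ≤
      9 * Real.exp (3 * (F z).re) * ((1 - ‖(i : ℂ)‖ ^ 2) ^ 2 / ‖1 - conj (i:ℂ) * z‖ ^ 2) := by
    intro i z hz
    have hne := one_sub_conj_mul_ne i.2.1 hz
    have hnp : 0 < ‖1 - conj (i:ℂ) * z‖ := norm_pos_iff.2 hne
    have h1 := dslope_bound hd hF hhF i.2.1 i.2.2 hz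
    have hn1 : ‖(((1 - ‖(i : ℂ)‖ ^ 2) ^ 2 : ℝ) : ℂ)‖ = (1 - ‖(i : ℂ)‖ ^ 2) ^ 2 := by
      rw [Complex.norm_real, Real.norm_eq_abs, abs_of_pos (pow_pos (hpos i) 2)]
    have hn2 : ‖term i z‖ = ‖a i‖ * (‖dslope h i z‖ *
        ((1 - ‖(i:ℂ)‖ ^ 2) ^ 2 / ‖1 - conj (i:ℂ) * z‖)) := by
      simp only [hterm]
      rw [norm_mul, norm_mul, norm_div (((1 - ‖(i : ℂ)‖ ^ 2) ^ 2 : ℝ) : ℂ), hn1]
    rw [hn2]
    calc ‖a i‖ * (‖dslope h i z‖ * ((1 - ‖(i:ℂ)‖ ^ 2) ^ 2 / ‖1 - conj (i:ℂ) * z‖)) ≤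
        1 * (‖dslope h i z‖ * ((1 - ‖(i:ℂ)‖ ^ 2) ^ 2 / ‖1 - conj (i:ℂ) * z‖)) := by
          have := ha1 i
          gcongr
      _ = (‖dslope h i z‖ * ‖1 - conj (i:ℂ) * z‖) *
          ((1 - ‖(i:ℂ)‖ ^ 2) ^ 2 / ‖1 - conj (i:ℂ) * z‖ ^ 2) := by
        field_simp
      _ ≤ _ := by
        apply mul_le_mul_of_nonneg_right h1 (by positivity)
  -- sum of the bounds
  have hKp : ∀ i : ι, (1 - ‖(i:ℂ)‖ ^ 2) ≠ 0 → (i:ℂ) ∈ ball (0:ℂ) 1 := fun i _ => i.2.1
  have hK0 : ∀ i : ι, 0 ≤ (1 - ‖(i:ℂ)‖ ^ 2) := fun i => (hpos i).le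
  set K : ℂ → ℂ := KS (fun i : ι => (i:ℂ)) (fun i : ι => 1 - ‖(i:ℂ)‖ ^ 2) with hK
  have hKPR : PR K := PR_KS hKp hK0 hsum
  have hbk : ∀ i : ι, ∀ z ∈ ball (0:ℂ) 1, (1 - ‖(i : ℂ)‖ ^ 2) ^ 2 / ‖1 - conj (i:ℂ) * z‖ ^ 2 ≤
      (1 - ‖(i:ℂ)‖ ^ 2) * (bk i z).re := by
    intro i z hz
    have h1 := bk_lower_left i.2.1 hz
    calc (1 - ‖(i : ℂ)‖ ^ 2) ^ 2 / ‖1 - conj (i:ℂ) * z‖ ^ 2 =
        (1 - ‖(i : ℂ)‖ ^ 2) * ((1 - ‖(i : ℂ)‖ ^ 2) / ‖1 - conj (i:ℂ) * z‖ ^ 2) := by ring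
      _ ≤ _ := mul_le_mul_of_nonneg_left h1 (hK0 i)
  set k0 : ℂ → ℂ := fun z => ∑' i, term i z with hk0
  -- bound for the sum
  have hk0b : ∀ z ∈ ball (0:ℂ) 1, ‖k0 z‖ ≤ 9 * Real.exp (3 * (F z).re) * (K z).re := by
    intro z hz
    obtain ⟨h1, h2⟩ := re_KS hKp hK0 hsum hz
    have h3 : ∀ i, ‖term i z‖ ≤ 9 * Real.exp (3 * (F z).re) * ((1 - ‖(i:ℂ)‖ ^ 2) * (bk i z).re) :=
      fun i => (hnorm i z hz).trans (mul_le_mul_of_nonneg_left (hbk i z hz) (by positivity))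
    have h4 := tsum_of_norm_bounded (h2.hasSum.mul_left (9 * Real.exp (3 * (F z).re))) h3
    rw [← h1] at h4
    exact h4
  -- differentiability
  have hk0d : DifferentiableOn ℂ k0 (ball 0 1) := by
    intro z hz
    have hz1 : ‖z‖ < 1 := by simpa using hz
    set ρ := (1 + ‖z‖) / 2 with hρ
    have hρ1 : ρ < 1 := by rw [hρ]; linarith
    have hcont : ContinuousOn (fun z => 9 * Real.exp (3 * (F z).re)) (closedBall 0 ρ) := by
      apply ContinuousOn.mul continuousOn_const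
      apply Real.continuous_exp.comp_continuousOn
      apply ContinuousOn.mul continuousOn_const
      apply Complex.continuous_re.comp_continuousOn
      exact hF.1.continuousOn.mono (closedBall_subset_ball hρ1)
    obtain ⟨M, hM⟩ := (isCompact_closedBall (0:ℂ) ρ).exists_bound_of_continuousOn hcont
    have h1 : DifferentiableOn ℂ k0 (ball 0 ρ) := by
      apply differentiableOn_tsum_of_summable_norm
        (u := fun i : ι => M * ((1 - ‖(i:ℂ)‖ ^ 2) / (1 - ρ) ^ 2)) _ _ isOpen_ball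
      · intro i v hv
        have hv1 : v ∈ ball (0:ℂ) 1 := ball_subset_ball hρ1.le hv
        have hvρ : ‖v‖ < ρ := by simpa using hv
        refine (hnorm i v hv1).trans ?_
        have h2 := hM v (ball_subset_closedBall hv)
        rw [Real.norm_eq_abs, abs_of_pos (by positivity)] at h2
        have h3 : 1 - ρ ≤ ‖1 - conj (i:ℂ) * v‖ := by
          have := one_sub_norm_le (z := v) i.2.1
          linarith
        have h4 : (1 - ‖(i:ℂ)‖ ^ 2) ^ 2 ≤ (1 - ‖(i:ℂ)‖ ^ 2) := by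
          have := hpos i
          nlinarith [sq_nonneg ‖(i:ℂ)‖]
        have h5 : 0 < 1 - ρ := by linarith
        have h6 : (0:ℝ) ≤ M := le_trans (by positivity) h2
        have h7 := hK0 i
        gcongr
      · exact (hsum.div_const _).mul_left M
      · intro i
        simp only [hterm]
        apply DifferentiableOn.const_mul
        apply DifferentiableOn.mul
        · exact (differentiableOn_dslope_ball hd i.2.1).mono (ball_subset_ball hρ1.le)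
        · intro v hv
          have hv1 : v ∈ ball (0:ℂ) 1 := ball_subset_ball hρ1.le hv
          apply DifferentiableAt.differentiableWithinAt
          apply DifferentiableAt.div
          · fun_prop
          · fun_prop
          · exact one_sub_conj_mul_ne i.2.1 hv1
    have h2 : z ∈ ball (0:ℂ) ρ := by rw [mem_ball_zero_iff, hρ]; linarith
    exact ((h1 z h2).differentiableAt (isOpen_ball.mem_nhds h2)).differentiableWithinAt
  refine ⟨fun z => Complex.exp (Ψ z + Ω z) * k0 z, ?_, ?_⟩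
  · have hl9 : 0 ≤ Real.log 9 := Real.log_nonneg (by norm_num)
    refine isNev_of_majorant (((hΨ.1.add hΩ.1).cexp).mul hk0d)
      (((hΨ.add hΩ).add ((hF.const_mul (c := 3) (by norm_num)).add hKPR)).add (PR_const hl9)) ?_
    intro z hz
    have e1 : ((Ψ z + Ω z) + (((3:ℝ) : ℂ) * F z + K z) + ((Real.log 9 : ℝ) : ℂ)).re =
        (Ψ z + Ω z).re + (3 * (F z).re + (K z).re) + Real.log 9 := by
      simp only [add_re, re_ofReal_mul, Complex.ofReal_re]
    rw [e1, Real.exp_add, Real.exp_add, Real.exp_add, Real.exp_log (by norm_num), norm_mul,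
      Complex.norm_exp]
    have h1 := hk0b z hz
    have h2 : (K z).re ≤ Real.exp (K z).re := by
      have := Real.add_one_le_exp (K z).re
      linarith
    calc Real.exp (Ψ z + Ω z).re * ‖k0 z‖ ≤
        Real.exp (Ψ z + Ω z).re * (9 * Real.exp (3 * (F z).re) * Real.exp (K z).re) := by
          gcongr
          exact h1.trans (mul_le_mul_of_nonneg_left h2 (by positivity))
      _ = _ := by ring
  · intro z hz hz0
    set j : ι := ⟨z, hz, hz0⟩ with hj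
    have h1 : k0 z = term j z := by
      simp only [hk0]
      apply tsum_eq_single
      intro i hij
      have hne : z ≠ (i:ℂ) := by
        intro h2
        apply hij
        apply Subtype.ext
        exact h2.symm
      simp only [hterm]
      rw [dslope_of_ne _ hne, slope_def_field, hz0, i.2.2, sub_zero, zero_div, zero_mul, mul_zero]
    simp only [h1, hterm]
    have hjz : (j : ℂ) = z := rfl
    rw [hjz, dslope_same]
    have hzz : conj z * z = ((‖z‖ ^ 2 : ℝ) : ℂ) := by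
      rw [← Complex.normSq_eq_conj_mul_self, Complex.normSq_eq_norm_sq]
    rw [hzz]
    have hp := hpos j
    rw [hjz] at hp
    have hpc : ((1 - ‖z‖ ^ 2 : ℝ) : ℂ) ≠ 0 := by exact_mod_cast hp.ne'
    have hdj : deriv h z ≠ 0 := hderiv j
    have e2 : (1 : ℂ) - ((‖z‖ ^ 2 : ℝ) : ℂ) = ((1 - ‖z‖ ^ 2 : ℝ) : ℂ) := by push_cast; ring
    rw [e2]
    have e3 : (((1 - ‖z‖ ^ 2) ^ 2 : ℝ) : ℂ) = ((1 - ‖z‖ ^ 2 : ℝ) : ℂ) ^ 2 := by push_cast; ring
    rw [e3]
    simp only [ha, hjz]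
    have hexp := Complex.exp_ne_zero (Ψ z + Ω z)
    field_simp

end Pool.Agent.Lib.P6e0919
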