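import Mathlib
import Pool.Agent.Lib.P6e0919.Interp

open Complex Metric Real Filter Topology MeasureTheory MeromorphicOn
open scoped ComplexConjugate ENNReal

namespace Pool.Agent.Lib.P6e0919

/-- Jensen's inequality for circle averages centred at `z`. -/
lemma log_norm_le_circleAverage {q : ℂ → ℂ} {z : ℂ} {ρ : ℝ} (hρ : 0 < ρ)
    (hq : AnalyticOnNhd ℂ q (closedBall z ρ)) (hz : q z ≠ 0) :
    Real.log ‖q z‖ ≤ circleAverage (fun w => Real.log ‖q w‖) z ρ := by
  have hq' : AnalyticOnNhd ℂ q (closedBall z |ρ|) := by rw [abs_of_pos hρ]; exact hq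
  have h1 := hq'.circleAverage_log_norm hρ.ne' hz
  rw [h1]
  have h2 : 0 ≤ ∑ᶠ u, (divisor q (closedBall z |ρ|) u : ℝ) * Real.log (ρ * ‖z - u‖⁻¹) := by
    apply finsum_nonneg
    intro u
    by_cases hu : u ∈ closedBall z |ρ|
    · apply mul_nonneg
      · have : 0 ≤ divisor q (closedBall z |ρ|) u :=
          (MeromorphicOn.AnalyticOnNhd.divisor_nonneg hq') u
        exact_mod_cast this
      · by_cases hzu : z = u
        · rw [hzu, sub_self, norm_zero, inv_zero, mul_zero, Real.log_zero]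
        · apply Real.log_nonneg
          have h3 : 0 < ‖z - u‖ := norm_pos_iff.2 (sub_ne_zero.2 hzu)
          rw [← div_eq_mul_inv, le_div_iff₀ h3, one_mul, norm_sub_rev, ← dist_eq_norm]
          rw [abs_of_pos hρ] at hu
          exact hu
    · rw [Function.locallyFinsuppWithin.apply_eq_zero_of_notMem _ hu]; simp
  linarith

/-- Division property of the Nevanlinna class. -/
theorem isNev_div {p h q : ℂ → ℂ} (hp : IsNev p) (hh : IsNev h)
    (hne : ∃ z ∈ ball (0:ℂ) 1, h z ≠ 0) (hq : DifferentiableOn ℂ q (ball 0 1))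
    (heq : ∀ z ∈ ball (0:ℂ) 1, p z = h z * q z) : IsNev q := by
  obtain ⟨F, hF, hpF⟩ := hp.exists_majorant
  obtain ⟨V, hV, hVz⟩ := circle_lower hh hne
  refine isNev_of_majorant hq (hF.add hV) (fun z hz => ?_)
  by_cases hqz : q z = 0
  · rw [hqz, norm_zero]; positivity
  have hz1 : ‖z‖ < 1 := by simpa using hz
  set ρ := (1 - ‖z‖) / 4 with hρ
  have hρ0 : 0 < ρ := by rw [hρ]; linarith
  have hcl : closedBall z ρ ⊆ ball (0:ℂ) 1 := by
    intro v hv
    rw [mem_closedBall, dist_eq_norm] at hv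
    rw [mem_ball_zero_iff]
    calc ‖v‖ = ‖z + (v - z)‖ := by rw [add_sub_cancel]
      _ ≤ ‖z‖ + ‖v - z‖ := norm_add_le _ _
      _ < 1 := by linarith
  have hsub : sphere z ρ ⊆ ball (0:ℂ) 1 := sphere_subset_closedBall.trans hcl
  have hint : ∀ g : ℂ → ℂ, DifferentiableOn ℂ g (ball 0 1) →
      CircleIntegrable (fun w => Real.log ‖g w‖) z ρ := by
    intro g hg
    apply MeromorphicOn.circleIntegrable_log_norm
    apply AnalyticOnNhd.meromorphicOn
    rw [abs_of_pos hρ0]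
    exact (hg.analyticOnNhd isOpen_ball).mono hsub
  have h1 := log_norm_le_circleAverage hρ0 ((hq.analyticOnNhd isOpen_ball).mono hcl) hqz
  have h2 : circleAverage (fun w => Real.log ‖q w‖) z ρ =
      circleAverage ((fun w => Real.log ‖p w‖) - (fun w => Real.log ‖h w‖)) z ρ := by
    apply circleAverage_congr_codiscreteWithin _ hρ0.ne'
    rw [abs_of_pos hρ0]
    filter_upwards [ne_zero_codiscrete hh.1 hne hsub, ne_zero_codiscrete hq ⟨z, hz, hqz⟩ hsub,
      self_mem_codiscreteWithin _] with w hw1 hw2 hw3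
    simp only [Pi.sub_apply]
    rw [heq w (hsub hw3), norm_mul, Real.log_mul (norm_ne_zero_iff.2 hw1) (norm_ne_zero_iff.2 hw2)]
    ring
  rw [h2, circleAverage_sub (hint p hp.1) (hint h hh.1)] at h1
  have h3 : circleAverage (fun w => Real.log ‖p w‖) z ρ ≤ (F z).re := by
    rw [← mean_re isOpen_ball hF.1 hρ0.le hcl]
    apply circleAverage_mono (hint p hp.1)
    · apply ContinuousOn.circleIntegrable hρ0.le
      exact Complex.continuous_re.comp_continuousOn (hF.1.continuousOn.mono hsub)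
    · intro w hw
      rw [abs_of_pos hρ0] at hw
      have hw1 := hsub hw
      by_cases h0 : p w = 0
      · simp only [h0, norm_zero, Real.log_zero]; exact hF.2 w hw1
      · rw [Real.log_le_iff_le_exp (norm_pos_iff.2 h0)]
        exact hpF w hw1
  have h4 := hVz z hz
  have h5 : Real.log ‖q z‖ ≤ (F z + V z).re := by
    rw [add_re]
    linarith
  rwa [Real.log_le_iff_le_exp (norm_pos_iff.2 hqz)] at h5

lemma IsNev.mul {f g : ℂ → ℂ} (hf : IsNev f) (hg : IsNev g) : IsNev (fun z => f z * g z) := by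
  obtain ⟨F1, hF1, hfF1⟩ := hf.exists_majorant
  obtain ⟨F2, hF2, hgF2⟩ := hg.exists_majorant
  refine isNev_of_majorant (hf.1.mul hg.1) (hF1.add hF2) (fun z hz => ?_)
  rw [norm_mul, add_re, Real.exp_add]
  have := hfF1 z hz
  have := hgF2 z hz
  gcongr

lemma IsNev.add {f g : ℂ → ℂ} (hf : IsNev f) (hg : IsNev g) : IsNev (fun z => f z + g z) := by
  have := hf.add_const_mul hg 1
  simpa using this

lemma isNev_const (c : ℂ) : IsNev (fun _ => c) := by
  have hl : 0 ≤ Real.log (1 + ‖c‖) := Real.log_nonneg (by linarith [norm_nonneg c])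
  refine isNev_of_majorant (differentiableOn_const _) (PR_const hl) (fun z hz => ?_)
  rw [Complex.ofReal_re, Real.exp_log (by positivity)]
  linarith [norm_nonneg c]

lemma IsNev.congr {f g : ℂ → ℂ} (hf : IsNev f) (h : ∀ z ∈ ball (0:ℂ) 1, g z = f z) : IsNev g := by
  obtain ⟨F, hF, hfF⟩ := hf.exists_majorant
  exact isNev_of_majorant (hf.1.congr h) hF (fun z hz => by rw [h z hz]; exact hfF z hz)

/-- quotient with simple zeros -/
lemma exists_quotient {p h : ℂ → ℂ} (hp : DifferentiableOn ℂ p (ball 0 1))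
    (hh : DifferentiableOn ℂ h (ball 0 1))
    (hsimple : ∀ z ∈ ball (0:ℂ) 1, h z = 0 → deriv h z ≠ 0)
    (hz : ∀ z ∈ ball (0:ℂ) 1, h z = 0 → p z = 0) :
    ∃ q : ℂ → ℂ, DifferentiableOn ℂ q (ball 0 1) ∧ ∀ z ∈ ball (0:ℂ) 1, p z = h z * q z := by
  classical
  refine ⟨fun z => if h z = 0 then deriv p z / deriv h z else p z / h z, ?_, ?_⟩
  · intro l hl
    apply DifferentiableAt.differentiableWithinAt
    have hlnhds := isOpen_ball.mem_nhds hl
    have hhc : ContinuousAt h l := (hh.continuousOn l hl).continuousAt hlnhds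
    by_cases h0 : h l = 0
    · have hd1 : DifferentiableAt ℂ (dslope p l) l :=
        (differentiableOn_dslope_ball hp hl l hl).differentiableAt hlnhds
      have hd2 : DifferentiableAt ℂ (dslope h l) l :=
        (differentiableOn_dslope_ball hh hl l hl).differentiableAt hlnhds
      have hne : dslope h l l ≠ 0 := by rw [dslope_same]; exact hsimple l hl h0
      have hev : ∀ᶠ z in 𝓝 l, dslope h l z ≠ 0 := hd2.continuousAt.eventually_ne hne
      apply (hd1.div hd2 hne).congr_of_eventuallyEq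
      filter_upwards [hev] with z hz1
      show _ = dslope p l z / dslope h l z
      by_cases hzl : z = l
      · subst hzl
        rw [if_pos h0, dslope_same, dslope_same]
      · have hsub : z - l ≠ 0 := sub_ne_zero.2 hzl
        rw [dslope_of_ne _ hzl, slope_def_field, h0, sub_zero] at hz1
        have hhz : h z ≠ 0 := by
          intro hcon
          rw [hcon, zero_div] at hz1
          exact hz1 rfl
        rw [if_neg hhz, dslope_of_ne _ hzl, dslope_of_ne _ hzl, slope_def_field, slope_def_field,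
          h0, hz l hl h0, sub_zero, sub_zero]
        field_simp
    · have hpd : DifferentiableAt ℂ p l := (hp l hl).differentiableAt hlnhds
      have hhd : DifferentiableAt ℂ h l := (hh l hl).differentiableAt hlnhds
      apply (hpd.div hhd h0).congr_of_eventuallyEq
      filter_upwards [hhc.eventually_ne h0] with z hz1
      show _ = p z / h z
      rw [if_neg hz1]
  · intro z hzb
    by_cases h0 : h z = 0
    · simp only [h0, if_true, zero_mul]; exact hz z hzb h0
    · simp only [h0, if_false]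
      field_simp

/-- Every unimodular triple in the Nevanlinna class is reducible. -/
theorem upper {f1 f2 f3 x1 x2 x3 : ℂ → ℂ} (hf1 : IsNev f1) (hf2 : IsNev f2) (hf3 : IsNev f3)
    (hx1 : IsNev x1) (hx2 : IsNev x2) (hx3 : IsNev x3)
    (hx : ∀ z ∈ ball (0:ℂ) 1, x1 z * f1 z + x2 z * f2 z + x3 z * f3 z = 1) :
    ∃ h1 h2 a b : ℂ → ℂ, IsNev h1 ∧ IsNev h2 ∧ IsNev a ∧ IsNev b ∧
      ∀ z ∈ ball (0:ℂ) 1, a z * (f1 z + h1 z * f3 z) + b z * (f2 z + h2 z * f3 z) = 1 := by
  set g : ℂ → ℂ := fun z => x2 z * f2 z + x3 z * f3 z with hg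
  have hgN : IsNev g := (hx2.mul hf2).add (hx3.mul hf3)
  obtain ⟨X1, hX1, hxX1⟩ := hx1.exists_majorant
  obtain ⟨X2, hX2, hxX2⟩ := hx2.exists_majorant
  obtain ⟨X3, hX3, hxX3⟩ := hx3.exists_majorant
  have hl2 : 0 ≤ Real.log 2 := Real.log_nonneg (by norm_num)
  have hrel : ∀ z ∈ ball (0:ℂ) 1, x1 z * f1 z + g z = 1 := by
    intro z hz
    have := hx z hz
    simp only [hg]
    linear_combination this
  -- the lower bound for `|f1|² + |g|²`
  have hlow : ∀ z ∈ ball (0:ℂ) 1,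
      Real.exp (-(((2:ℝ) : ℂ) * X1 z + ((Real.log 2 : ℝ) : ℂ)).re) ≤ SS f1 g z := by
    intro z hz
    have h1 := hrel z hz
    set A := Real.exp (X1 z).re with hA
    have hA0 : 0 < A := Real.exp_pos _
    have hA1 : 1 ≤ A := Real.one_le_exp (hX1.2 z hz)
    have h2 : 1 ≤ A * (‖f1 z‖ + ‖g z‖) := by
      calc (1:ℝ) = ‖x1 z * f1 z + g z‖ := by rw [h1, norm_one]
        _ ≤ ‖x1 z‖ * ‖f1 z‖ + ‖g z‖ := by rw [← norm_mul]; exact norm_add_le _ _
        _ ≤ A * ‖f1 z‖ + A * ‖g z‖ := by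
          have := hxX1 z hz
          have h3 : ‖g z‖ ≤ A * ‖g z‖ := le_mul_of_one_le_left (norm_nonneg _) hA1
          gcongr
        _ = _ := by ring
    have e1 : -(((2:ℝ) : ℂ) * X1 z + ((Real.log 2 : ℝ) : ℂ)).re =
        -(X1 z).re + -(X1 z).re + -Real.log 2 := by
      rw [add_re, re_ofReal_mul, Complex.ofReal_re]; ring
    rw [e1, Real.exp_add, Real.exp_add, Real.exp_neg, Real.exp_neg, Real.exp_log (by norm_num),
      ← hA]
    have h4 : A⁻¹ ≤ ‖f1 z‖ + ‖g z‖ := by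
      rw [inv_le_iff_one_le_mul₀ hA0, mul_comm]; exact h2
    have h5 : A⁻¹ * A⁻¹ ≤ (‖f1 z‖ + ‖g z‖) * (‖f1 z‖ + ‖g z‖) := by gcongr
    unfold SS
    have h6 := sq_nonneg (‖f1 z‖ - ‖g z‖)
    have h7 : A⁻¹ * A⁻¹ * 2⁻¹ ≤ (‖f1 z‖ + ‖g z‖) * (‖f1 z‖ + ‖g z‖) * 2⁻¹ := by gcongr
    nlinarith
  have hΦ : PR (fun z => ((2:ℝ) : ℂ) * X1 z + ((Real.log 2 : ℝ) : ℂ)) :=
    (hX1.const_mul (by norm_num)).add (PR_const hl2)
  obtain ⟨c, hc0, Ψ, hΨ, hΨl⟩ := zeros_good hf1 hgN hΦ hlow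
  set h : ℂ → ℂ := fun z => f1 z + c * g z with hh
  have hhN : IsNev h := hf1.add_const_mul hgN c
  -- lower bound for `|f2| + |f3|` on the zeros
  have hcl : 0 ≤ Real.log (1 + ‖c‖) := Real.log_nonneg (by linarith [norm_nonneg c])
  have hl3 : 0 ≤ Real.log 3 := Real.log_nonneg (by norm_num)
  set Ω : ℂ → ℂ := fun z => (X1 z + (X2 z + X3 z)) +
    (((Real.log (1 + ‖c‖) : ℝ) : ℂ) + ((Real.log 3 : ℝ) : ℂ)) with hΩdef
  have hΩ : PR Ω := (hX1.add (hX2.add hX3)).add ((PR_const hcl).add (PR_const hl3))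
  have hΩe : ∀ z, Real.exp (Ω z).re = Real.exp (X1 z).re *
      (Real.exp (X2 z).re * Real.exp (X3 z).re) * ((1 + ‖c‖) * 3) := by
    intro z
    simp only [hΩdef]
    rw [add_re, add_re, add_re, add_re, Complex.ofReal_re, Complex.ofReal_re, Real.exp_add,
      Real.exp_add, Real.exp_add, Real.exp_add, Real.exp_log (by positivity),
      Real.exp_log (by norm_num)]
  have hzero : ∀ z ∈ ball (0:ℂ) 1, h z = 0 →
      3 ≤ Real.exp (Ω z).re * (‖f2 z‖ + ‖f3 z‖) := by
    intro z hz h0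
    have h1 : (1 - c * x1 z) * (x2 z * f2 z + x3 z * f3 z) = 1 := by
      have e1 := hrel z hz
      have e2 : f1 z + c * g z = 0 := h0
      have e3 : g z = x2 z * f2 z + x3 z * f3 z := rfl
      rw [← e3]
      linear_combination e1 - x1 z * e2
    have b1 := hxX1 z hz
    have b2 := hxX2 z hz
    have b3 := hxX3 z hz
    have a1 : 1 ≤ Real.exp (X1 z).re := Real.one_le_exp (hX1.2 z hz)
    have a2 : 1 ≤ Real.exp (X2 z).re := Real.one_le_exp (hX2.2 z hz)
    have a3 : 1 ≤ Real.exp (X3 z).re := Real.one_le_exp (hX3.2 z hz)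
    rw [hΩe]
    set A := Real.exp (X1 z).re
    set B := Real.exp (X2 z).re
    set D := Real.exp (X3 z).re
    have hcn := norm_nonneg c
    have h2 : ‖1 - c * x1 z‖ ≤ (1 + ‖c‖) * A := by
      calc ‖1 - c * x1 z‖ ≤ ‖(1:ℂ)‖ + ‖c * x1 z‖ := norm_sub_le _ _
        _ = 1 + ‖c‖ * ‖x1 z‖ := by rw [norm_one, norm_mul]
        _ ≤ A + ‖c‖ * A := by gcongr
        _ = _ := by ring
    have h3 : ‖x2 z * f2 z + x3 z * f3 z‖ ≤ (B * D) * (‖f2 z‖ + ‖f3 z‖) := by
      calc ‖x2 z * f2 z + x3 z * f3 z‖ ≤ ‖x2 z‖ * ‖f2 z‖ + ‖x3 z‖ * ‖f3 z‖ := by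
            rw [← norm_mul, ← norm_mul]; exact norm_add_le _ _
        _ ≤ (B * D) * ‖f2 z‖ + (B * D) * ‖f3 z‖ := by
          have h4 : ‖x2 z‖ ≤ B * D := b2.trans (le_mul_of_one_le_right (by linarith) a3)
          have h5 : ‖x3 z‖ ≤ B * D := b3.trans (le_mul_of_one_le_left (by linarith) a2)
          gcongr
        _ = _ := by ring
    have h6 : (1:ℝ) ≤ ((1 + ‖c‖) * A) * ((B * D) * (‖f2 z‖ + ‖f3 z‖)) := by
      calc (1:ℝ) = ‖(1 - c * x1 z) * (x2 z * f2 z + x3 z * f3 z)‖ := by rw [h1, norm_one]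
        _ = ‖1 - c * x1 z‖ * ‖x2 z * f2 z + x3 z * f3 z‖ := norm_mul _ _
        _ ≤ _ := by gcongr
    calc (3:ℝ) = 3 * 1 := by norm_num
      _ ≤ 3 * (((1 + ‖c‖) * A) * ((B * D) * (‖f2 z‖ + ‖f3 z‖))) := by gcongr
      _ = _ := by ring
  -- first interpolation
  classical
  obtain ⟨h2, hh2, hh2v⟩ := interpolate hhN hc0 hΨ hΨl
    (w := fun z => if ‖f3 z‖ ≤ 2 * ‖f2 z‖ then 0 else 1) (Ω := fun _ => ((0:ℝ) : ℂ))
    (PR_const le_rfl) (fun z _ _ => by
      rw [Complex.ofReal_re, Real.exp_zero]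
      split_ifs <;> simp)
  set k : ℂ → ℂ := fun z => f2 z + h2 z * f3 z with hk
  have hkN : IsNev k := hf2.add (hh2.mul hf3)
  have hkl : ∀ z ∈ ball (0:ℂ) 1, h z = 0 → 1 ≤ Real.exp (Ω z).re * ‖k z‖ := by
    intro z hz h0
    have h1 := hzero z hz h0
    have h3 : ‖f2 z‖ + ‖f3 z‖ ≤ 3 * ‖k z‖ := by
      have h4 := hh2v z hz h0
      simp only [hk]
      rw [h4]
      split_ifs with hcase
      · rw [zero_mul, add_zero]; linarith
      · push Not at hcase
        rw [one_mul]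
        have h5 : ‖f3 z‖ - ‖f2 z‖ ≤ ‖f2 z + f3 z‖ := by
          have := norm_sub_le_norm_add (f3 z) (f2 z)
          rwa [add_comm] at this
        linarith
    have h6 : Real.exp (Ω z).re * (‖f2 z‖ + ‖f3 z‖) ≤ Real.exp (Ω z).re * (3 * ‖k z‖) := by gcongr
    linarith
  have hkne : ∀ z ∈ ball (0:ℂ) 1, h z = 0 → k z ≠ 0 := by
    intro z hz h0 hcon
    have := hkl z hz h0
    rw [hcon, norm_zero, mul_zero] at this
    linarith
  -- second interpolation
  obtain ⟨b, hb, hbv⟩ := interpolate hhN hc0 hΨ hΨl (w := fun z => (k z)⁻¹) hΩ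
    (fun z hz h0 => by
      have h1 := hkl z hz h0
      have h3 : 0 < ‖k z‖ := norm_pos_iff.2 (hkne z hz h0)
      rw [norm_inv, inv_le_iff_one_le_mul₀ h3]
      exact h1)
  set p : ℂ → ℂ := fun z => 1 + (-1) * (b z * k z) with hp
  have hpN : IsNev p := (isNev_const 1).add_const_mul (hb.mul hkN) (-1)
  have hsimple : ∀ z ∈ ball (0:ℂ) 1, h z = 0 → deriv h z ≠ 0 := by
    intro z hz h0 hcon
    have := hΨl z hz h0
    rw [hcon, norm_zero, mul_zero] at this
    exact absurd this (not_le.2 (Real.exp_pos _))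
  obtain ⟨a, had, ha⟩ := exists_quotient hpN.1 hhN.1 hsimple (fun z hz h0 => by
    simp only [hp]
    rw [hbv z hz h0, inv_mul_cancel₀ (hkne z hz h0)]
    ring)
  have haN : IsNev a := isNev_div hpN hhN ⟨0, mem_ball_self one_pos, hc0⟩ had ha
  refine ⟨fun z => c * (x3 z + (-1) * (x2 z * h2 z)), h2, a, fun z => b z + c * (a z * x2 z),
    ?_, hh2, haN, ?_, ?_⟩
  · exact (isNev_const c).mul (hx3.add_const_mul (hx2.mul hh2) (-1))
  · exact hb.add_const_mul (haN.mul hx2) c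
  · intro z hz
    have h1 := ha z hz
    simp only [hp, hh, hk, hg] at h1
    linear_combination -h1

end Pool.Agent.Lib.P6e0919
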