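import Mathlib
import Pool.Agent.Lib.P6e0919.Upper

open Complex Metric Real Filter Topology MeasureTheory

namespace Pool.Agent.Lib.P6e0919

/-- The conformal map of the disc onto the right half plane. -/
noncomputable def cay (z : ℂ) : ℂ := (1 + z) / (1 - z)

lemma one_sub_ne {z : ℂ} (hz : z ∈ ball (0:ℂ) 1) : 1 - z ≠ 0 := by
  intro h
  have : z = 1 := (sub_eq_zero.1 h).symm
  rw [mem_ball_zero_iff, this, norm_one] at hz
  exact lt_irrefl _ hz

lemma cay_re_pos {z : ℂ} (hz : z ∈ ball (0:ℂ) 1) : 0 < (cay z).re := by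
  have h1 := one_sub_ne hz
  have hz1 : ‖z‖ < 1 := by simpa using hz
  have h2 : (cay z).re = (1 - ‖z‖ ^ 2) / Complex.normSq (1 - z) := by
    rw [cay, Complex.div_re, ← Complex.normSq_eq_norm_sq]
    simp only [Complex.normSq_apply, add_re, one_re, sub_re, add_im, one_im, sub_im]
    rw [← add_div]
    congr 1
    ring
  rw [h2]
  apply div_pos
  · nlinarith [norm_nonneg z]
  · exact Complex.normSq_pos.2 h1

lemma cay_differentiableOn : DifferentiableOn ℂ cay (ball 0 1) := by
  intro z hz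
  have := one_sub_ne hz
  apply DifferentiableAt.differentiableWithinAt
  unfold cay
  fun_prop (disch := assumption)

lemma PR_cay : PR cay := ⟨cay_differentiableOn, fun _ hz => (cay_re_pos hz).le⟩

lemma norm_sin_le (w : ℂ) : ‖Complex.sin w‖ ≤ Real.exp |w.im| := by
  have h1 : ‖Complex.exp (-w * I)‖ ≤ Real.exp |w.im| := by
    rw [Complex.norm_exp]
    apply Real.exp_le_exp.2
    simp [le_abs_self]
  have h2 : ‖Complex.exp (w * I)‖ ≤ Real.exp |w.im| := by
    rw [Complex.norm_exp]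
    apply Real.exp_le_exp.2
    simp [neg_le_abs]
  calc ‖Complex.sin w‖ = ‖Complex.exp (-w * I) - Complex.exp (w * I)‖ / 2 := by
        rw [Complex.sin, norm_div, norm_mul, norm_I, mul_one]; simp
    _ ≤ (‖Complex.exp (-w * I)‖ + ‖Complex.exp (w * I)‖) / 2 := by
        gcongr; exact norm_sub_le _ _
    _ ≤ (Real.exp |w.im| + Real.exp |w.im|) / 2 := by gcongr
    _ = _ := by ring

/-- The example function. -/
noncomputable def lf (z : ℂ) : ℂ := Complex.exp (cay z) * Complex.sin (Complex.log (cay z))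

lemma isNev_lf : IsNev lf := by
  apply isNev_of_majorant (F := fun z => cay z + ((Real.pi : ℝ) : ℂ))
  · intro z hz
    have h1 := (cay_differentiableOn z hz)
    have h2 : cay z ∈ slitPlane := Or.inl (cay_re_pos hz)
    exact h1.cexp.mul (h1.clog h2).csin
  · exact PR_cay.add (PR_const Real.pi_pos.le)
  · intro z hz
    rw [lf, norm_mul, Complex.norm_exp, add_re, ofReal_re, Real.exp_add]
    apply mul_le_mul_of_nonneg_left _ (Real.exp_pos _).le
    refine (norm_sin_le _).trans (Real.exp_le_exp.2 ?_)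
    rw [Complex.log_im]
    exact Complex.abs_arg_le_pi _

/-- Borel–Carathéodory for positive real part, difference version. -/
lemma diff_le {G : ℂ → ℂ} {R M : ℝ} {z w : ℂ} (hG : DifferentiableOn ℂ G (ball z R))
    (hre : ∀ v ∈ ball z R, 0 ≤ (G v).re) (hM : 0 < M) (hGz : (G z).re ≤ M)
    (hw : w ∈ ball z R) : ‖G w - G z‖ ≤ 2 * M * ‖w - z‖ / (R - ‖w - z‖) := by
  have hR : 0 < R := pos_of_mem_ball hw
  have hmaps : ∀ v ∈ ball (0:ℂ) R, z + v ∈ ball z R := by
    intro v hv
    rw [mem_ball, dist_eq_norm, add_sub_cancel_left]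
    simpa using hv
  have h1 := borelCaratheodory_zero (f := fun v => G z - G (z + v)) (M := M) (R := R) (z := w - z)
    hM ((differentiableOn_const _).sub (hG.comp ((differentiableOn_const _).add
      differentiableOn_id) (fun v hv => hmaps v hv))) (fun v hv => by
        rw [Set.mem_ofPred_eq, sub_re]
        linarith [hre _ (hmaps v hv)]) hR (by
        rw [mem_ball_zero_iff, ← dist_eq_norm]; exact hw) (by simp)
  simp only [add_sub_cancel] at h1
  rw [norm_sub_rev]
  exact h1

/-- The point of the disc over the real point `s`. -/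
noncomputable def pt (s : ℝ) : ℂ := (((s - 1) / (s + 1) : ℝ) : ℂ)

lemma norm_pt {s : ℝ} (hs : 1 ≤ s) : ‖pt s‖ = (s - 1) / (s + 1) := by
  rw [pt, Complex.norm_real, Real.norm_eq_abs, abs_of_nonneg]
  apply div_nonneg <;> linarith

lemma one_sub_norm_pt {s : ℝ} (hs : 1 ≤ s) : 1 - ‖pt s‖ = 2 / (s + 1) := by
  rw [norm_pt hs]
  have : s + 1 ≠ 0 := by linarith
  field_simp
  ring

lemma pt_mem {s : ℝ} (hs : 1 ≤ s) : pt s ∈ ball (0:ℂ) 1 := by
  rw [mem_ball_zero_iff]
  have h1 := one_sub_norm_pt hs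
  have h2 : 0 < 2 / (s + 1) := by
    apply div_pos two_pos; linarith
  linarith

lemma cay_pt {s : ℝ} (hs : 1 ≤ s) : cay (pt s) = (s : ℂ) := by
  rw [cay, pt, ← ofReal_one, ← ofReal_add, ← ofReal_sub, ← ofReal_div]
  congr 1
  have h1 : s + 1 ≠ 0 := by linarith
  have h2 : 1 - (s - 1) / (s + 1) = 2 / (s + 1) := by field_simp; ring
  have h3 : 1 + (s - 1) / (s + 1) = 2 * s / (s + 1) := by field_simp; ring
  rw [h2, h3]
  field_simp

lemma norm_pt_sub {s t : ℝ} (hs : 1 ≤ s) (ht : 1 ≤ t) :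
    ‖pt t - pt s‖ = 2 * |t - s| / ((s + 1) * (t + 1)) := by
  rw [pt, pt, ← ofReal_sub, Complex.norm_real, Real.norm_eq_abs]
  have h1 : s + 1 ≠ 0 := by linarith
  have h2 : t + 1 ≠ 0 := by linarith
  have h3 : (t - 1) / (t + 1) - (s - 1) / (s + 1) = 2 * (t - s) / ((s + 1) * (t + 1)) := by
    field_simp
    ring
  rw [h3, abs_div, abs_mul, abs_two, abs_of_nonneg (a := (s + 1) * (t + 1))]
  apply mul_nonneg <;> linarith

lemma PR_pt_le {P : ℂ → ℂ} (hP : PR P) {s : ℝ} (hs : 1 ≤ s) : (P (pt s)).re ≤ (P 0).re * s := by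
  have h1 := harnack_ball hP.1 hP.2 (pt_mem hs)
  refine h1.trans (le_of_eq ?_)
  congr 1
  rw [one_sub_norm_pt hs, norm_pt hs]
  have h1 : s + 1 ≠ 0 := by linarith
  field_simp
  ring

/-- Lipschitz estimate along the real axis for functions with positive real part with at most
linear growth. -/
lemma lip_pt {G : ℂ → ℂ} (hG : PR G) {C s t : ℝ} (hC : 0 < C) (hs : 1 ≤ s) (ht : 1 ≤ t)
    (hGs : (G (pt s)).re ≤ C * s) (hst : |t - s| ≤ 1 / 2) :
    ‖G (pt t) - G (pt s)‖ ≤ 2 * C * |t - s| := by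
  have hs1 : 0 < s + 1 := by linarith
  have ht1 : 0 < t + 1 := by linarith
  have hR : 1 - ‖pt s‖ = 2 / (s + 1) := one_sub_norm_pt hs
  have habs : 0 ≤ |t - s| := abs_nonneg _
  have hsub : ball (pt s) (2 / (s + 1)) ⊆ ball (0:ℂ) 1 := by
    apply ball_subset_ball'
    rw [dist_zero_right, ← hR]
    linarith
  have hcmp : s ≤ t + 1 - |t - s| := by
    rcases abs_cases (t - s) with h | h <;> linarith [h.1, h.2]
  have hpos : 0 < t + 1 - |t - s| := by linarith
  have hw : ‖pt t - pt s‖ = 2 * |t - s| / ((s + 1) * (t + 1)) := norm_pt_sub hs ht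
  have hRsub : 2 / (s + 1) - ‖pt t - pt s‖ = 2 * (t + 1 - |t - s|) / ((s + 1) * (t + 1)) := by
    rw [hw]
    field_simp
  have hmem : pt t ∈ ball (pt s) (2 / (s + 1)) := by
    rw [mem_ball, dist_eq_norm]
    have : 0 < 2 / (s + 1) - ‖pt t - pt s‖ := by rw [hRsub]; positivity
    linarith
  have h1 := diff_le (hG.1.mono hsub) (fun v hv => hG.2 v (hsub hv))
    (M := C * s) (by positivity) hGs hmem
  refine h1.trans ?_
  rw [hRsub, hw]
  have h2 : 2 * (C * s) * (2 * |t - s| / ((s + 1) * (t + 1))) /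
      (2 * (t + 1 - |t - s|) / ((s + 1) * (t + 1))) = 2 * C * |t - s| * (s / (t + 1 - |t - s|)) := by
    field_simp
  rw [h2]
  apply mul_le_of_le_one_right (by positivity)
  rw [div_le_one hpos]
  exact hcmp

/-- Holomorphic logarithm on the disc. -/
lemma exists_log {v : ℂ → ℂ} (hv : DifferentiableOn ℂ v (ball 0 1))
    (hne : ∀ z ∈ ball (0:ℂ) 1, v z ≠ 0) :
    ∃ U : ℂ → ℂ, DifferentiableOn ℂ U (ball 0 1) ∧ ∀ z ∈ ball (0:ℂ) 1, v z = Complex.exp (U z) := by
  have h1 : DifferentiableOn ℂ (fun z => deriv v z / v z) (ball 0 1) :=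
    (hv.deriv isOpen_ball).div hv hne
  obtain ⟨U, hU0, hU⟩ := h1.isExactOn_ball.with_val_at 0 (Complex.log (v 0))
  have hUd : DifferentiableOn ℂ U (ball 0 1) :=
    fun z hz => (hU z hz).differentiableAt.differentiableWithinAt
  refine ⟨U, hUd, ?_⟩
  have h0 : (0:ℂ) ∈ ball (0:ℂ) 1 := mem_ball_self one_pos
  have hder : ∀ z ∈ ball (0:ℂ) 1, HasDerivAt (fun z => v z * Complex.exp (-U z)) 0 z := by
    intro z hz
    have hvz : HasDerivAt v (deriv v z) z :=
      (hv.differentiableAt (isOpen_ball.mem_nhds hz)).hasDerivAt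
    have h2 : HasDerivAt (fun z => v z * Complex.exp (-U z))
        (deriv v z * Complex.exp (-U z) + v z * (Complex.exp (-U z) * -(deriv v z / v z))) z :=
      hvz.mul (hU z hz).neg.cexp
    have hvz0 := hne z hz
    have h3 : deriv v z * Complex.exp (-U z) + v z * (Complex.exp (-U z) * -(deriv v z / v z)) = 0 := by
      field_simp
      ring
    rw [h3] at h2
    exact h2
  have hconst : ∀ z ∈ ball (0:ℂ) 1, v z * Complex.exp (-U z) = v 0 * Complex.exp (-U 0) := by
    intro z hz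
    have := (convex_ball (0:ℂ) 1).norm_image_sub_le_of_norm_hasDerivWithin_le (𝕜 := ℂ)
      (f := fun z => v z * Complex.exp (-U z)) (f' := fun _ => 0) (C := 0)
      (fun x hx => (hder x hx).hasDerivWithinAt) (fun x hx => by simp) h0 hz
    simp only [zero_mul, norm_le_zero_iff, sub_eq_zero] at this
    exact this
  intro z hz
  have h3 := hconst z hz
  rw [hU0, Complex.exp_neg, Complex.exp_neg, Complex.exp_log (hne 0 h0),
    mul_inv_cancel₀ (hne 0 h0)] at h3
  have h4 := Complex.exp_ne_zero (U z)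
  field_simp at h3
  exact h3

/-- The values of the example on the real axis oscillate fast. -/
lemma osc {δ : ℝ} (hδ : 0 < δ) (hδ1 : δ ≤ 1 / 4) : ∃ s t : ℝ, 1 ≤ s ∧ 1 ≤ t ∧ |t - s| ≤ 2 * δ ∧
    Real.exp s * Real.sin (Real.log s) = 1 ∧ Real.exp t * Real.sin (Real.log t) = -1 := by
  obtain ⟨k, hk⟩ : ∃ k : ℕ, 4 * Real.pi / δ + 4 ≤ Real.exp (k * (2 * Real.pi)) := by
    have h1 : Tendsto (fun k : ℕ => Real.exp (k * (2 * Real.pi))) atTop atTop := by
      apply Real.tendsto_exp_atTop.comp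
      exact tendsto_natCast_atTop_atTop.atTop_mul_const (by positivity)
    exact (h1.eventually_ge_atTop _).exists
  set x := Real.exp (k * (2 * Real.pi)) with hx
  have hpi := Real.pi_gt_three
  have hx4 : 4 ≤ x := by
    have : 0 < 4 * Real.pi / δ := by positivity
    linarith
  have hx0 : 0 < x := by linarith
  have hxδ : 4 * Real.pi ≤ δ * x := by
    have h2 : 4 * Real.pi / δ ≤ x := by linarith
    rw [div_le_iff₀ hδ] at h2
    linarith
  set φ : ℝ → ℝ := fun s => Real.exp s * Real.sin (Real.log s) with hφ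
  have hcont : ContinuousOn φ (Set.Ioi 0) := by
    apply Real.continuous_exp.continuousOn.mul
    apply Real.continuous_sin.comp_continuousOn
    exact Real.continuousOn_log.mono (fun y hy => (ne_of_gt hy))
  have hlogx : Real.log x = k * (2 * Real.pi) := by rw [hx, Real.log_exp]
  have hφx : φ x = 0 := by
    have h1 := Real.sin_add_nat_mul_two_pi 0 k
    rw [zero_add, Real.sin_zero] at h1
    simp only [hφ]
    rw [hlogx, h1, mul_zero]
  have hexp : ∀ y : ℝ, 0 ≤ y → y ^ 2 / 2 ≤ Real.exp y := by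
    intro y hy
    have := Real.quadratic_le_exp_of_nonneg hy
    linarith
  -- right side
  have hR : 1 ≤ φ (x + δ) := by
    have hxd0 : 0 < x + δ := by linarith
    set θ := Real.log (1 + δ / x) with hθ
    have h1 : Real.log (x + δ) = θ + k * (2 * Real.pi) := by
      rw [← hlogx, hθ, ← Real.log_mul (by positivity) (by positivity)]
      congr 1
      field_simp
    have h2 : δ / (x + δ) ≤ θ := by
      have := Real.one_sub_inv_le_log_of_pos (x := 1 + δ / x) (by positivity)
      refine le_trans (le_of_eq ?_) this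
      field_simp
      ring
    have h3 : θ ≤ Real.pi / 2 := by
      have := Real.log_le_sub_one_of_pos (x := 1 + δ / x) (by positivity)
      have h4 : δ / x ≤ 1 := by rw [div_le_one hx0]; linarith
      linarith
    have hθ0 : 0 ≤ θ := le_trans (by positivity) h2
    have h4 : 2 / Real.pi * θ ≤ Real.sin θ := Real.mul_le_sin hθ0 h3
    simp only [hφ]
    rw [h1, Real.sin_add_nat_mul_two_pi]
    calc (1:ℝ) ≤ (x + δ) ^ 2 / 2 * (2 / Real.pi * (δ / (x + δ))) := by
          have : (x + δ) ^ 2 / 2 * (2 / Real.pi * (δ / (x + δ))) = (x + δ) * δ / Real.pi := by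
            field_simp
          rw [this, le_div_iff₀ Real.pi_pos]
          nlinarith
      _ ≤ Real.exp (x + δ) * Real.sin θ := by
          apply mul_le_mul (hexp _ hxd0.le) _ (by positivity) (Real.exp_pos _).le
          refine le_trans ?_ h4
          gcongr
  -- left side
  have hL : φ (x - δ) ≤ -1 := by
    have hxd0 : 0 < x - δ := by linarith
    have hq : 0 < 1 - δ / x := by
      have : δ / x < 1 := by rw [div_lt_one hx0]; linarith
      linarith
    set θ := -Real.log (1 - δ / x) with hθ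
    have h1 : Real.log (x - δ) = -θ + k * (2 * Real.pi) := by
      rw [← hlogx, hθ, neg_neg, ← Real.log_mul (by positivity) (by positivity)]
      congr 1
      field_simp
    have h2 : δ / x ≤ θ := by
      have := Real.log_le_sub_one_of_pos (x := 1 - δ / x) (by positivity)
      rw [hθ]
      linarith
    have h3 : θ ≤ Real.pi / 2 := by
      have := Real.one_sub_inv_le_log_of_pos (x := 1 - δ / x) (by positivity)
      have h4 : 1 / 2 ≤ 1 - δ / x := by
        have : δ / x ≤ 1 / 2 := by rw [div_le_iff₀ hx0]; linarith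
        linarith
      have h5 : (1 - δ / x)⁻¹ ≤ 2 := by
        rw [inv_le_comm₀ hq two_pos]; linarith
      rw [hθ]
      linarith
    have hθ0 : 0 ≤ θ := le_trans (by positivity) h2
    have h4 : 2 / Real.pi * θ ≤ Real.sin θ := Real.mul_le_sin hθ0 h3
    simp only [hφ]
    rw [h1, Real.sin_add_nat_mul_two_pi, Real.sin_neg, mul_neg]
    apply neg_le_neg
    calc (1:ℝ) ≤ (x - δ) ^ 2 / 2 * (2 / Real.pi * (δ / x)) := by
          have : (x - δ) ^ 2 / 2 * (2 / Real.pi * (δ / x)) = (x - δ) ^ 2 * δ / (Real.pi * x) := by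
            field_simp
          rw [this, le_div_iff₀ (by positivity)]
          have h6 : x / 2 ≤ x - δ := by linarith
          have h7 : x ^ 2 / 4 ≤ (x - δ) ^ 2 := by nlinarith
          calc 1 * (Real.pi * x) ≤ (x ^ 2 / 4) * δ := by nlinarith
            _ ≤ (x - δ) ^ 2 * δ := by gcongr
      _ ≤ Real.exp (x - δ) * Real.sin θ := by
          apply mul_le_mul (hexp _ hxd0.le) _ (by positivity) (Real.exp_pos _).le
          refine le_trans ?_ h4
          gcongr
  obtain ⟨s, hs, hs1⟩ := intermediate_value_Icc (by linarith : x ≤ x + δ)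
    (hcont.mono (fun y hy => lt_of_lt_of_le hx0 hy.1)) (show (1:ℝ) ∈ Set.Icc (φ x) (φ (x + δ)) from
      ⟨by rw [hφx]; norm_num, hR⟩)
  obtain ⟨t, ht, ht1⟩ := intermediate_value_Icc (by linarith : x - δ ≤ x)
    (hcont.mono (fun y hy => lt_of_lt_of_le (by linarith) hy.1))
    (show (-1:ℝ) ∈ Set.Icc (φ (x - δ)) (φ x) from ⟨hL, by rw [hφx]; norm_num⟩)
  refine ⟨s, t, by linarith [hs.1], by linarith [ht.1], ?_, hs1, ht1⟩
  rw [abs_le]
  constructor <;> linarith [hs.1, hs.2, ht.1, ht.2]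

lemma lf_pt {s : ℝ} (hs : 1 ≤ s) :
    lf (pt s) = ((Real.exp s * Real.sin (Real.log s) : ℝ) : ℂ) := by
  rw [lf, cay_pt hs]
  push_cast
  rw [Complex.ofReal_log (by linarith)]

/-- The pair `(lf, lf ^ 2 - 1)` is not reducible in the Nevanlinna class. -/
theorem lower {a b : ℂ → ℂ} (ha : IsNev a) (hb : IsNev b)
    (h : ∀ z ∈ ball (0:ℂ) 1, b z * (lf z + a z * (lf z * lf z - 1)) = 1) : False := by
  set v : ℂ → ℂ := fun z => lf z + a z * (lf z * lf z - 1) with hv
  have hvN : IsNev v := isNev_lf.add (ha.mul ((isNev_lf.mul isNev_lf).add_const_mul (isNev_const 1) (-1)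
    |>.congr (fun z _ => by ring)))
  have hvne : ∀ z ∈ ball (0:ℂ) 1, v z ≠ 0 := by
    intro z hz h0
    have := h z hz
    rw [show lf z + a z * (lf z * lf z - 1) = v z from rfl, h0, mul_zero] at this
    exact zero_ne_one this
  obtain ⟨P1, hP1, hvP⟩ := hvN.exists_majorant
  obtain ⟨P2, hP2, hbP⟩ := hb.exists_majorant
  obtain ⟨U, hU, hvU⟩ := exists_log hvN.1 hvne
  have hreU : ∀ z ∈ ball (0:ℂ) 1, (U z).re ≤ (P1 z).re ∧ -(U z).re ≤ (P2 z).re := by
    intro z hz
    constructor
    · have h1 := hvP z hz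
      rw [hvU z hz, Complex.norm_exp] at h1
      exact Real.exp_le_exp.1 h1
    · have h1 := hbP z hz
      have h2 : b z = Complex.exp (-U z) := by
        have := h z hz
        rw [show lf z + a z * (lf z * lf z - 1) = v z from rfl, hvU z hz] at this
        rw [Complex.exp_neg]
        exact eq_inv_of_mul_eq_one_left this
      rw [h2, Complex.norm_exp, neg_re] at h1
      exact Real.exp_le_exp.1 h1
  have h0 : (0:ℂ) ∈ ball (0:ℂ) 1 := mem_ball_self one_pos
  set C : ℝ := (P1 0).re + (P2 0).re + 1 with hC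
  have hA := hP1.2 0 h0
  have hB := hP2.2 0 h0
  have hC0 : 0 < C := by rw [hC]; linarith
  have hG : PR (fun z => P1 z - U z) := ⟨hP1.1.sub hU, fun z hz => by
    rw [sub_re]; linarith [(hreU z hz).1]⟩
  have hlip : ∀ s t : ℝ, 1 ≤ s → 1 ≤ t → |t - s| ≤ 1 / 2 →
      ‖U (pt t) - U (pt s)‖ ≤ 4 * C * |t - s| := by
    intro s t hs ht hst
    have e1 := PR_pt_le hP1 hs
    have e2 := PR_pt_le hP2 hs
    have e3 := (hreU _ (pt_mem hs)).2
    have hs0 : 0 ≤ s := by linarith
    have h1 := lip_pt hP1 hC0 hs ht (by rw [hC]; nlinarith) hst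
    have h2 := lip_pt hG hC0 hs ht (by rw [sub_re, hC]; nlinarith) hst
    have h3 : U (pt t) - U (pt s) = (P1 (pt t) - P1 (pt s)) -
      ((P1 (pt t) - U (pt t)) - (P1 (pt s) - U (pt s))) := by ring
    rw [h3]
    refine (norm_sub_le _ _).trans ?_
    linarith
  -- choose `δ`
  obtain ⟨δ, hδ0, hδ1, hδ2⟩ : ∃ δ : ℝ, 0 < δ ∧ δ ≤ 1 / 4 ∧ 8 * C * δ < 1 := by
    refine ⟨min (1 / 4) (1 / (16 * C)), by positivity, min_le_left _ _, ?_⟩
    calc 8 * C * min (1 / 4) (1 / (16 * C)) ≤ 8 * C * (1 / (16 * C)) := by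
          gcongr; exact min_le_right _ _
      _ = 1 / 2 := by field_simp; norm_num
      _ < 1 := by norm_num
  obtain ⟨s, t, hs, ht, hst, es, et⟩ := osc hδ0 hδ1
  have h1 : ‖U (pt t) - U (pt s)‖ < 1 := by
    have := hlip s t hs ht (by linarith)
    calc ‖U (pt t) - U (pt s)‖ ≤ 4 * C * |t - s| := this
      _ ≤ 4 * C * (2 * δ) := by gcongr
      _ = 8 * C * δ := by ring
      _ < 1 := hδ2
  have hvs : Complex.exp (U (pt s)) = 1 := by
    rw [← hvU _ (pt_mem hs)]
    simp only [hv]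
    rw [lf_pt hs, es]
    simp
  have hvt : Complex.exp (U (pt t)) = -1 := by
    rw [← hvU _ (pt_mem ht)]
    simp only [hv]
    rw [lf_pt ht, et]
    simp
  have h2 : Complex.exp (U (pt t) - U (pt s)) = -1 := by
    rw [Complex.exp_sub, hvs, hvt]; simp
  have h3 := Complex.norm_exp_sub_one_le h1.le
  rw [h2] at h3
  have h4 : ‖(-1 - 1 : ℂ)‖ = 2 := by
    rw [show (-1 - 1 : ℂ) = -2 by norm_num, norm_neg]
    simp
  rw [h4] at h3
  linarith

end Pool.Agent.Lib.P6e0919
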